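import Pool.Agent.X209.DI.Extra

/-!
# Centralisers of `p`-elements outside `G`
-/

open scoped Classical BigOperators
open Pool.Agent.Y63.KR Pool.Agent.Helper884.IC Pool.Agent.Y63.AWC

set_option linter.unusedSectionVars false
set_option linter.unusedVariables false

noncomputable section

namespace Pool.Agent.X209.DI

variable {p : ℕ} {E : Type} [Group E] [Fintype E]

/-- the centraliser of an element -/
abbrev Cq (q : E) : Subgroup E := Subgroup.centralizer {q}

lemma mem_Cq {q x : E} : x ∈ Cq q ↔ x * q = q * x :=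
  Subgroup.mem_centralizer_singleton_iff

/-- a `p`-element normalising a nontrivial `p`-subgroup centralises a nontrivial subgroup -/
lemma cent_ne_bot [hp : Fact p.Prime] {P : Subgroup E} (hP : IsPGroup p P) (h1 : P ≠ ⊥) {q : E}
    (hq : ∃ j, q ^ p ^ j = 1) (hn : conjSub q P = P) : P ⊓ Cq q ≠ ⊥ := by
  obtain ⟨j, hj⟩ := hq
  have hmem : ∀ x : P, q * x * q⁻¹ ∈ P := fun x => by
    have h2 := conj_mem_conjSub (g := q) x.2
    rwa [hn] at h2
  let f : Function.End P := fun x => ⟨q * x * q⁻¹, hmem x⟩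
  have hf : ∀ n : ℕ, ∀ x : P, (((f ^ n) x : P) : E) = q ^ n * x * (q ^ n)⁻¹ := by
    intro n
    induction n with
    | zero =>
      intro x
      rw [pow_zero, pow_zero, one_mul, inv_one, mul_one]
      rfl
    | succ n ih =>
      intro x
      rw [pow_succ' f]
      change q * (((f ^ n) x : P) : E) * q⁻¹ = _
      rw [ih, pow_succ']
      group
  have hf1 : f ^ p ^ j = 1 := by
    funext x
    apply Subtype.ext
    rw [hf, hj, one_mul, inv_one, mul_one]
    rfl
  have h2 := Equiv.Perm.card_fixedPoints_modEq (p := p) hf1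
  have h3 : p ∣ Fintype.card P := by
    rw [← Nat.card_eq_fintype_card]
    rcases hP.card_eq_or_dvd with h | h
    · exact absurd (Subgroup.eq_bot_of_card_eq _ h) h1
    · exact h
  have h4 : p ∣ Fintype.card (Function.fixedPoints f) :=
    (Nat.modEq_zero_iff_dvd).mp (h2.symm.trans ((Nat.modEq_zero_iff_dvd).mpr h3))
  have h5 : (1 : P) ∈ Function.fixedPoints f := by
    apply Subtype.ext
    change q * 1 * q⁻¹ = 1
    group
  have h6 : 0 < Fintype.card (Function.fixedPoints f) := Fintype.card_pos_iff.mpr ⟨⟨1, h5⟩⟩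
  have h7 : 1 < Fintype.card (Function.fixedPoints f) :=
    lt_of_lt_of_le hp.out.one_lt (Nat.le_of_dvd h6 h4)
  obtain ⟨⟨x, hx⟩, hx1⟩ := Fintype.exists_ne_of_one_lt_card h7 ⟨1, h5⟩
  intro h8
  apply hx1
  apply Subtype.ext
  have h9 : q * (x : E) * q⁻¹ = x := congrArg Subtype.val hx
  have h10 : (x : E) ∈ P ⊓ Cq q := by
    refine ⟨x.2, mem_Cq.mpr ?_⟩
    calc (x : E) * q = q * (x : E) * q⁻¹ * q := by rw [h9]
      _ = q * x := by group
  rw [h8, Subgroup.mem_bot] at h10
  exact Subtype.ext h10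

/-- the alternating sum over the subgroups normalised by a `p`-element `q` -/
theorem w_cent [hp : Fact p.Prime] {G : Subgroup E} {q x y : E} (hq : ∃ j, q ^ p ^ j = 1)
    (hx : x * q = q * x) (hy : y * q = q * y) :
    w p G (insert q {x, y}) = w p (G ⊓ Cq q) {x, y} := by
  have hqq : conjSub q (Cq q) = Cq q := conjSub_of_mem (mem_Cq.mpr rfl)
  have hxq : conjSub x (Cq q) = Cq q := conjSub_of_mem (mem_Cq.mpr hx)
  have hyq : conjSub y (Cq q) = Cq q := conjSub_of_mem (mem_Cq.mpr hy)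
  have hsub : Sp p (G ⊓ Cq q) {x, y} ⊆ Sp p G (insert q {x, y}) := by
    intro P hP
    rw [mem_Sp] at hP ⊢
    refine ⟨hP.1, hP.2.1, hP.2.2.1.trans inf_le_left, ?_⟩
    rintro z (rfl | hz)
    · ext u
      rw [mem_conjSub]
      constructor
      · intro hu
        have h1 := mem_Cq.mp (hP.2.2.1 hu).2
        have h2 : z⁻¹ * u * z = u := by
          have h3 : u = z * (z⁻¹ * u * z) * z⁻¹ := by group
          rw [← h1] at h3
          rw [mul_inv_cancel_right] at h3
          exact h3.symm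
        rwa [h2] at hu
      · intro hu
        have h1 := mem_Cq.mp (hP.2.2.1 hu).2
        have h2 : z⁻¹ * u * z = u := by
          rw [mul_assoc, h1, inv_mul_cancel_left]
        rwa [h2]
    · exact hP.2.2.2 z hz
  unfold w
  refine chi_eq_of_below hsub fun P hP hP2 => ?_
  rw [mem_Sp] at hP
  have hPq := hP.2.2.2 q (by simp)
  have hPx := hP.2.2.2 x (by simp)
  have hPy := hP.2.2.2 y (by simp)
  refine ⟨P ⊓ Cq q, ?_, ?_, ?_⟩
  · rw [mem_Sp]
    refine ⟨hP.1.to_le inf_le_left, cent_ne_bot hP.1 hP.2.1 hq hPq,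
      inf_le_inf_right _ hP.2.2.1, ?_⟩
    rintro z (rfl | hz)
    · rw [conjSub_inf, hPx, hxq]
    · rw [Set.mem_singleton_iff.mp hz, conjSub_inf, hPy, hyq]
  · refine lt_of_le_of_ne inf_le_left fun h => hP2 ?_
    rw [mem_Sp]
    refine ⟨hP.1, hP.2.1, le_inf hP.2.2.1 (by rw [← h]; exact inf_le_right), ?_⟩
    rintro z (rfl | hz)
    · exact hPx
    · rw [Set.mem_singleton_iff.mp hz]
      exact hPy
  · intro Q hQ hQP
    rw [mem_Sp] at hQ
    exact le_inf hQP.le (hQ.2.2.1.trans inf_le_right)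

variable {G : Subgroup E} [hG : G.Normal] {a b : ℕ}

/-- the `p`-elements `q` of the coset `e G` with `⟨q⟩ ∩ G = 1` -/
def Qe (p : ℕ) (G : Subgroup E) (e : E) : Finset E :=
  Finset.univ.filter fun q => (∃ j, q ^ p ^ j = 1) ∧ (∀ i : ℕ, q ^ i ∈ G → q ^ i = 1) ∧
    e⁻¹ * q ∈ G

lemma mem_Qe {e q : E} : q ∈ Qe p G e ↔ (∃ j, q ^ p ^ j = 1) ∧
    (∀ i : ℕ, q ^ i ∈ G → q ^ i = 1) ∧ e⁻¹ * q ∈ G := by
  simp [Qe]

lemma pow_coset' {x x' : E} (h : x⁻¹ * x' ∈ G) (n : ℕ) : (x ^ n)⁻¹ * x' ^ n ∈ G := by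
  rw [← QuotientGroup.eq, QuotientGroup.mk_pow, QuotientGroup.mk_pow, QuotientGroup.eq.mpr h]

lemma w_zero_pow [Fact p.Prime] (hPE : PE p (Nat.card E) a b) {x y : E} (hxy : x * y = y * x)
    {H : Subgroup E} {i : ℕ} (hy : (y ^ a) ^ i ∈ H) (h1 : (y ^ a) ^ i ≠ 1) : w p H {x, y} = 0 := by
  refine w_zero_of_elem (u := (y ^ a) ^ i)
    (Subgroup.pow_mem _ (Subgroup.pow_mem _ closure_pair_right _) _) hy ?_ ?_ h1
  · rintro u (rfl | hu)
    · rw [← pow_mul]
      exact ((show Commute u y from hxy).pow_right (a * i)).eq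
    · rw [Set.mem_singleton_iff.mp hu, ← pow_mul]
      exact ((Commute.refl y).pow_right (a * i)).eq
  · obtain ⟨j, hj⟩ := hPE.ppow E y (card_pow y)
    refine ⟨j, ?_⟩
    rw [← pow_mul, mul_comm, pow_mul, hj, one_pow]

/-- **The centraliser formula**, for arbitrary cosets -/
theorem A_cent [hp : Fact p.Prime] (hPE : PE p (Nat.card E) a b) (e : E) :
    A p G 1 e = ∑ q ∈ Qe p G (e ^ a), PSum p (G ⊓ Cq q)
      (fun x y => x ∈ G ⊓ Cq q ∧ y ∈ Cq q ∧ (e ^ b)⁻¹ * y ∈ G) := by
  rw [A_def]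
  unfold PSum
  rw [Finset.sum_sigma']
  symm
  have hea : e ^ a * e ^ b = e := hPE.split E e (card_pow e)
  have hba : e ^ b * e ^ a = e := by rw [← pow_add, add_comm, pow_add]; exact hea
  have heb : (e ^ b) ^ a = 1 := hPE.one E _ (card_pow _) (hPE.pprime E e (card_pow e))
  -- facts on a nonzero term
  have key : ∀ q x y : E, q ∈ Qe p G (e ^ a) →
      (x, y) ∈ CP E (fun x y => x ∈ G ⊓ Cq q ∧ y ∈ Cq q ∧ (e ^ b)⁻¹ * y ∈ G) →
      w p (G ⊓ Cq q) {x, y} ≠ 0 →
      x * q = q * x ∧ y * q = q * y ∧ x ^ a = 1 ∧ y ^ a = 1 ∧ q ^ a = q ∧ (y * q) ^ a = q := by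
    intro q x y hq hxy hne
    rw [mem_Qe] at hq
    rw [mem_CP] at hxy
    obtain ⟨h1, h2, h3, h4⟩ := hxy
    simp only [] at h1 h2 h3 h4
    have hxq : x * q = q * x := mem_Cq.mp h2.2
    have hyq : y * q = q * y := mem_Cq.mp h3
    have hxa : x ^ a = 1 := by
      by_contra h
      exact hne (w_zero_left hPE h1 (Subgroup.pow_mem _ h2 a) h)
    have hya : y ^ a = 1 := by
      by_contra h
      refine hne (w_zero_right hPE h1 ⟨?_, Subgroup.pow_mem _ h3 a⟩ h)
      have h5 := pow_coset' h4 a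
      rw [heb, inv_one, one_mul] at h5
      exact h5
    have hqa : q ^ a = q := hPE.self E q (card_pow q) hq.1
    refine ⟨hxq, hyq, hxa, hya, hqa, ?_⟩
    rw [(show Commute y q from hyq).mul_pow, hya, one_mul, hqa]
  refine Finset.sum_bij_ne_zero (fun s _ _ => (s.2.1, s.2.2 * s.1)) ?_ ?_ ?_ ?_
  · rintro ⟨q, x, y⟩ hs hne
    rw [Finset.mem_sigma] at hs
    obtain ⟨hxq, hyq, hxa, hya, hqa, hyqa⟩ := key q x y hs.1 hs.2 hne
    have hq := mem_Qe.mp hs.1
    obtain ⟨h1, h2, h3, h4⟩ := mem_CP.mp hs.2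
    simp only [] at h1 h2 h3 h4
    rw [mem_CP]
    refine ⟨?_, ?_, ?_⟩
    · change x * (y * q) = y * q * x
      rw [← mul_assoc, h1, mul_assoc, hxq, mul_assoc]
    · change (1 : E)⁻¹ * x ∈ G
      rw [inv_one, one_mul]
      exact h2.1
    · change e⁻¹ * (y * q) ∈ G
      rw [← QuotientGroup.eq, QuotientGroup.mk_mul, ← QuotientGroup.eq.mpr h4,
        ← QuotientGroup.eq.mpr hq.2.2, ← QuotientGroup.mk_mul, hba]
  · rintro ⟨q, x, y⟩ hs hne ⟨q', x', y'⟩ hs' hne' heq
    rw [Finset.mem_sigma] at hs hs'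
    obtain ⟨-, -, -, -, -, h1⟩ := key q x y hs.1 hs.2 hne
    obtain ⟨-, -, -, -, -, h2⟩ := key q' x' y' hs'.1 hs'.2 hne'
    have e1 : x = x' := (Prod.ext_iff.mp heq).1
    have e2 : y * q = y' * q' := (Prod.ext_iff.mp heq).2
    have e3 : q = q' := by rw [← h1, e2, h2]
    subst e3
    have e4 : y = y' := mul_right_cancel e2
    subst e4
    subst e1
    rfl
  · rintro ⟨x, z⟩ hz hne
    rw [mem_CP] at hz
    obtain ⟨hxz, hx, hze⟩ := hz
    simp only [inv_one, one_mul] at hxz hx hze hne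
    have hsplit := hPE.split E z (card_pow z)
    have hzb : z ^ b * z ^ a = z := by
      rw [← pow_add, add_comm, pow_add]
      exact hsplit
    have hxza : x * z ^ a = z ^ a * x := ((show Commute x z from hxz).pow_right a).eq
    have hxzb : x * z ^ b = z ^ b * x := ((show Commute x z from hxz).pow_right b).eq
    have hzab : z ^ b * z ^ a = z ^ a * z ^ b := by rw [← pow_add, ← pow_add, add_comm]
    have hpp : ∃ j, (z ^ a) ^ p ^ j = 1 := hPE.ppow E z (card_pow z)
    have hw : w p G (insert (z ^ a) {x, z ^ b}) = w p G {x, z} := by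
      apply w_closure
      apply le_antisymm
      · rw [Subgroup.closure_le]
        rintro u (rfl | rfl | hu)
        · exact Subgroup.pow_mem _ closure_pair_right _
        · exact closure_pair_left
        · rw [Set.mem_singleton_iff.mp hu]
          exact Subgroup.pow_mem _ closure_pair_right _
      · rw [Subgroup.closure_le]
        rintro u (rfl | hu)
        · exact Subgroup.subset_closure (by simp)
        · rw [Set.mem_singleton_iff.mp hu]
          have h7 : z ^ b * z ^ a ∈ Subgroup.closure (insert (z ^ a) ({x, z ^ b} : Set E)) :=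
            Subgroup.mul_mem _ (Subgroup.subset_closure (by simp))
              (Subgroup.subset_closure (by simp))
          rwa [hzb] at h7
    refine ⟨⟨z ^ a, x, z ^ b⟩, ?_, ?_, ?_⟩
    · rw [Finset.mem_sigma, mem_Qe, mem_CP]
      refine ⟨⟨hpp, fun i hi => ?_, pow_coset' hze a⟩, hxzb, ⟨hx, mem_Cq.mpr hxza⟩,
        mem_Cq.mpr hzab, pow_coset' hze b⟩
      by_contra h
      exact hne (w_zero_pow hPE hxz hi h)
    · change w p (G ⊓ Cq (z ^ a)) {x, z ^ b} ≠ 0
      rw [← w_cent hpp hxza hzab, hw]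
      exact hne
    · exact Prod.ext rfl hzb
  · rintro ⟨q, x, y⟩ hs hne
    rw [Finset.mem_sigma] at hs
    obtain ⟨hxq, hyq, hxa, hya, hqa, hyqa⟩ := key q x y hs.1 hs.2 hne
    have hq := mem_Qe.mp hs.1
    change w p (G ⊓ Cq q) {x, y} = w p G {x, y * q}
    rw [← w_cent hq.1 hxq hyq]
    apply w_closure
    have hqm : q ∈ Subgroup.closure ({x, y * q} : Set E) := by
      have := Subgroup.pow_mem _ (closure_pair_right (x := x) (y := y * q)) a
      rwa [hyqa] at this
    apply le_antisymm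
    · rw [Subgroup.closure_le]
      rintro u (rfl | rfl | hu)
      · exact hqm
      · exact closure_pair_left
      · rw [Set.mem_singleton_iff.mp hu]
        have := Subgroup.mul_mem _ (closure_pair_right (x := x) (y := y * q))
          (Subgroup.inv_mem _ hqm)
        rwa [mul_inv_cancel_right] at this
    · rw [Subgroup.closure_le]
      rintro u (rfl | hu)
      · exact Subgroup.subset_closure (by simp)
      · rw [Set.mem_singleton_iff.mp hu]
        exact Subgroup.mul_mem _ (Subgroup.subset_closure (by simp))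
          (Subgroup.subset_closure (by simp))

/-- an element whose order modulo `G` is a power of `p` -/
lemma pow_b_mem [hp : Fact p.Prime] (hPE : PE p (Nat.card E) a b) {e : E} {k : ℕ}
    (he : e ^ p ^ k ∈ G) : e ^ b ∈ G ∧ e⁻¹ * e ^ a ∈ G := by
  have h1 : (e : E ⧸ G) ^ a = (e : E ⧸ G) := by
    apply hPE.self _ _ (quot_pow G _)
    refine ⟨k, ?_⟩
    rw [← QuotientGroup.mk_pow]
    exact (QuotientGroup.eq_one_iff _).mpr he
  have h2 := hPE.split _ (e : E ⧸ G) (quot_pow G _)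
  rw [h1] at h2
  constructor
  · rw [← QuotientGroup.eq_one_iff, QuotientGroup.mk_pow]
    exact mul_eq_left.mp h2
  · rw [← QuotientGroup.eq, QuotientGroup.mk_pow]
    exact h1.symm

/-- **The centraliser formula** for a `p`-element modulo `G` -/
theorem A_cent_p [hp : Fact p.Prime] {e : E} {k : ℕ} (he : e ^ p ^ k ∈ G) :
    A p G 1 e = ∑ q ∈ Qe p G e, (Nat.card ↥(G ⊓ Cq q) : ℤ) * aK p ↥(G ⊓ Cq q) := by
  obtain ⟨a, b, hPE⟩ := exists_PE hp.out (Nat.card_pos (α := E)).ne'
  obtain ⟨hb, ha⟩ := pow_b_mem hPE he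
  rw [A_cent hPE]
  have h1 : Qe p G (e ^ a) = Qe p G e := by
    ext q
    rw [mem_Qe, mem_Qe, coset_iff ha]
  rw [h1]
  refine Finset.sum_congr rfl fun q _ => ?_
  rw [aK_eq]
  unfold PSum
  apply Finset.sum_congr _ fun _ _ => rfl
  ext r
  rw [mem_CP, mem_CP]
  have h2 : (e ^ b)⁻¹ * r.2 ∈ G ↔ r.2 ∈ G := Subgroup.mul_mem_cancel_left G (G.inv_mem hb)
  rw [h2]
  constructor
  · rintro ⟨h3, h4, h5, h6⟩
    exact ⟨h3, h4, h6, h5⟩
  · rintro ⟨h3, h4, h5, h6⟩
    exact ⟨h3, h4, h6, h5⟩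

end Pool.Agent.X209.DI
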