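import Mathlib

/-!
# Alternating sums over the chains of a finite partially ordered set
-/

open scoped Classical BigOperators

set_option linter.unusedSectionVars false

noncomputable section

namespace Pool.Agent.X209.DI

variable {α β : Type} [PartialOrder α] [PartialOrder β]

/-- the chains contained in `X` -/
def chainsIn (X : Finset α) : Finset (Finset α) :=
  X.powerset.filter fun σ => IsChain (· ≤ ·) (σ : Set α)

lemma mem_chainsIn {X σ : Finset α} :
    σ ∈ chainsIn X ↔ σ ⊆ X ∧ IsChain (· ≤ ·) (σ : Set α) := by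
  simp [chainsIn]

/-- the alternating sum `∑_σ (-1)^|σ|` over the chains in `X`, the empty chain included -/
def chi (X : Finset α) : ℤ := ∑ σ ∈ chainsIn X, (-1) ^ σ.card

lemma chi_empty : chi (∅ : Finset α) = 1 := by
  have : chainsIn (∅ : Finset α) = {∅} := by
    ext σ
    rw [mem_chainsIn, Finset.mem_singleton, Finset.subset_empty]
    constructor
    · exact fun h => h.1
    · rintro rfl
      exact ⟨rfl, by simp⟩
  rw [chi, this]
  simp

/-- the chains of an ordered union -/
lemma chi_union {A B : Finset α} (h : ∀ a ∈ A, ∀ b ∈ B, a < b) : chi (A ∪ B) = chi A * chi B := by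
  have hd : Disjoint A B := by
    rw [Finset.disjoint_left]
    intro a ha hb
    exact lt_irrefl a (h a ha a hb)
  unfold chi
  rw [Finset.sum_mul_sum, ← Finset.sum_product']
  symm
  refine Finset.sum_bij' (fun q _ => q.1 ∪ q.2) (fun ρ _ => (ρ ∩ A, ρ ∩ B)) ?_ ?_ ?_ ?_ ?_
  · rintro ⟨σ, τ⟩ hq
    rw [Finset.mem_product, mem_chainsIn, mem_chainsIn] at hq
    obtain ⟨⟨h1, h2⟩, h3, h4⟩ := hq
    rw [mem_chainsIn]
    refine ⟨Finset.union_subset_union h1 h3, ?_⟩
    rw [Finset.coe_union]
    rintro a (ha | ha) b (hb | hb) hab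
    · exact h2 ha hb hab
    · exact Or.inl (h a (h1 ha) b (h3 hb)).le
    · exact Or.inr (h b (h1 hb) a (h3 ha)).le
    · exact h4 ha hb hab
  · intro ρ hρ
    rw [mem_chainsIn] at hρ
    rw [Finset.mem_product, mem_chainsIn, mem_chainsIn]
    exact ⟨⟨Finset.inter_subset_right, hρ.2.mono (by simp)⟩,
      Finset.inter_subset_right, hρ.2.mono (by simp)⟩
  · rintro ⟨σ, τ⟩ hq
    rw [Finset.mem_product, mem_chainsIn, mem_chainsIn] at hq
    obtain ⟨⟨h1, h2⟩, h3, h4⟩ := hq
    simp only [] at h1 h3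
    refine Prod.ext ?_ ?_
    · ext x
      simp only [Finset.mem_inter, Finset.mem_union]
      constructor
      · rintro ⟨hx | hx, hA⟩
        · exact hx
        · exact absurd (h3 hx) (Finset.disjoint_left.mp hd hA)
      · intro hx
        exact ⟨Or.inl hx, h1 hx⟩
    · ext x
      simp only [Finset.mem_inter, Finset.mem_union]
      constructor
      · rintro ⟨hx | hx, hB⟩
        · exact absurd hB (Finset.disjoint_left.mp hd (h1 hx))
        · exact hx
      · intro hx
        exact ⟨Or.inr hx, h3 hx⟩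
  · intro ρ hρ
    rw [mem_chainsIn] at hρ
    simp only []
    rw [← Finset.inter_union_distrib_left]
    exact Finset.inter_eq_left.mpr hρ.1
  · rintro ⟨σ, τ⟩ hq
    rw [Finset.mem_product, mem_chainsIn, mem_chainsIn] at hq
    simp only []
    rw [Finset.card_union_of_disjoint (Finset.disjoint_of_subset_left hq.1.1
      (Finset.disjoint_of_subset_right hq.2.1 hd)), pow_add]

/-- removing one element -/
lemma chi_erase {X : Finset α} {x : α} (hx : x ∈ X) :
    chi X = chi (X.erase x) - chi (X.filter (· < x)) * chi (X.filter (x < ·)) := by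
  have h0 : chi X = ∑ σ ∈ (chainsIn X).filter (fun σ => x ∉ σ), (-1 : ℤ) ^ σ.card +
      ∑ σ ∈ (chainsIn X).filter (fun σ => ¬ x ∉ σ), (-1 : ℤ) ^ σ.card :=
    (Finset.sum_filter_add_sum_filter_not _ _ _).symm
  have h1 : (chainsIn X).filter (fun σ => x ∉ σ) = chainsIn (X.erase x) := by
    ext σ
    rw [Finset.mem_filter, mem_chainsIn, mem_chainsIn, Finset.subset_erase]
    tauto
  have h2 : ∑ σ ∈ (chainsIn X).filter (fun σ => ¬ x ∉ σ), (-1 : ℤ) ^ σ.card =
      - chi (X.filter (· < x) ∪ X.filter (x < ·)) := by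
    unfold chi
    rw [← Finset.sum_neg_distrib]
    refine Finset.sum_bij' (fun σ _ => σ.erase x) (fun τ _ => insert x τ) ?_ ?_ ?_ ?_ ?_
    · intro σ hσ
      rw [Finset.mem_filter, mem_chainsIn, not_not] at hσ
      obtain ⟨⟨h3, h4⟩, h5⟩ := hσ
      rw [mem_chainsIn]
      refine ⟨?_, h4.mono (by simp)⟩
      intro y hy
      rw [Finset.mem_erase] at hy
      rw [Finset.mem_union, Finset.mem_filter, Finset.mem_filter]
      rcases h4 (Finset.mem_coe.mpr hy.2) (Finset.mem_coe.mpr h5) hy.1 with h6 | h6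
      · exact Or.inl ⟨h3 hy.2, lt_of_le_of_ne h6 hy.1⟩
      · exact Or.inr ⟨h3 hy.2, lt_of_le_of_ne h6 (Ne.symm hy.1)⟩
    · intro τ hτ
      rw [mem_chainsIn] at hτ
      rw [Finset.mem_filter, mem_chainsIn, not_not]
      refine ⟨⟨?_, ?_⟩, Finset.mem_insert_self _ _⟩
      · rw [Finset.insert_subset_iff]
        exact ⟨hx, hτ.1.trans (Finset.union_subset (Finset.filter_subset _ _)
          (Finset.filter_subset _ _))⟩
      · rw [Finset.coe_insert]
        refine hτ.2.insert fun y hy _ => ?_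
        have h3 := hτ.1 hy
        rw [Finset.mem_union, Finset.mem_filter, Finset.mem_filter] at h3
        rcases h3 with h3 | h3
        · exact Or.inr h3.2.le
        · exact Or.inl h3.2.le
    · intro σ hσ
      rw [Finset.mem_filter, not_not] at hσ
      exact Finset.insert_erase hσ.2
    · intro τ hτ
      rw [mem_chainsIn] at hτ
      apply Finset.erase_insert
      intro h3
      have h4 := hτ.1 h3
      rw [Finset.mem_union, Finset.mem_filter, Finset.mem_filter] at h4
      rcases h4 with h4 | h4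
      · exact lt_irrefl x h4.2
      · exact lt_irrefl x h4.2
    · intro σ hσ
      rw [Finset.mem_filter, not_not] at hσ
      have h3 := Finset.card_erase_add_one hσ.2
      rw [← h3, pow_succ]
      ring
  rw [h0, h1, h2, chi_union]
  · rw [sub_eq_add_neg]
    rfl
  · intro a ha b hb
    exact (Finset.mem_filter.mp ha).2.trans (Finset.mem_filter.mp hb).2

/-- a greatest element -/
lemma chi_max {X : Finset α} {m : α} (hm : m ∈ X) (h : ∀ x ∈ X, x ≤ m) : chi X = 0 := by
  rw [chi_erase hm]
  have h1 : X.filter (m < ·) = ∅ := by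
    rw [Finset.filter_eq_empty_iff]
    intro x hx h2
    exact absurd (h x hx) (not_le_of_gt h2)
  have h2 : X.filter (· < m) = X.erase m := by
    ext x
    rw [Finset.mem_filter, Finset.mem_erase]
    constructor
    · rintro ⟨h3, h4⟩
      exact ⟨h4.ne, h3⟩
    · rintro ⟨h3, h4⟩
      exact ⟨h4, lt_of_le_of_ne (h x h4) h3⟩
  rw [h1, h2, chi_empty]
  ring

/-- a least element -/
lemma chi_min {X : Finset α} {m : α} (hm : m ∈ X) (h : ∀ x ∈ X, m ≤ x) : chi X = 0 := by
  rw [chi_erase hm]
  have h1 : X.filter (· < m) = ∅ := by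
    rw [Finset.filter_eq_empty_iff]
    intro x hx h2
    exact absurd (h x hx) (not_le_of_gt h2)
  have h2 : X.filter (m < ·) = X.erase m := by
    ext x
    rw [Finset.mem_filter, Finset.mem_erase]
    constructor
    · rintro ⟨h3, h4⟩
      exact ⟨h4.ne', h3⟩
    · rintro ⟨h3, h4⟩
      exact ⟨h4, lt_of_le_of_ne (h x h4) (Ne.symm h3)⟩
  rw [h1, h2, chi_empty]
  ring

/-- decomposition according to the least member of a chain which is not in `Y` -/
theorem chi_decomp {X Y : Finset α} (hYX : Y ⊆ X) :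
    chi X = chi Y - ∑ x ∈ X \ Y, chi (Y.filter (· < x)) * chi (X.filter (x < ·)) := by
  induction h : (X \ Y).card generalizing X with
  | zero =>
    rw [Finset.card_eq_zero] at h
    have h1 : X = Y := Finset.Subset.antisymm (Finset.sdiff_eq_empty_iff_subset.mp h) hYX
    rw [h1]
    simp
  | succ n ih =>
    have hne : (X \ Y).Nonempty := by
      rw [← Finset.card_pos]
      omega
    obtain ⟨x, hx, hmin⟩ := (X \ Y).exists_minimal hne
    have hx' := Finset.mem_sdiff.mp hx
    have h1 : Y ⊆ X.erase x := by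
      rw [Finset.subset_erase]
      exact ⟨hYX, hx'.2⟩
    have h2 : X.erase x \ Y = (X \ Y).erase x := by
      ext z
      simp only [Finset.mem_sdiff, Finset.mem_erase]
      tauto
    have h3 : (X.erase x \ Y).card = n := by
      rw [h2, Finset.card_erase_of_mem hx, h]
      omega
    have h4 := ih h1 h3
    have h5 : X.filter (· < x) = Y.filter (· < x) := by
      ext z
      simp only [Finset.mem_filter]
      constructor
      · rintro ⟨h6, h7⟩
        refine ⟨?_, h7⟩
        by_contra h8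
        have h9 : z ∈ X \ Y := Finset.mem_sdiff.mpr ⟨h6, h8⟩
        exact absurd (hmin h9 h7.le) (not_le_of_gt h7)
      · rintro ⟨h6, h7⟩
        exact ⟨hYX h6, h7⟩
    rw [chi_erase hx'.1, h4, h2, h5, ← Finset.add_sum_erase _ _ hx]
    have h6 : ∑ z ∈ (X \ Y).erase x, chi (Y.filter (· < z)) * chi ((X.erase x).filter (z < ·)) =
        ∑ z ∈ (X \ Y).erase x, chi (Y.filter (· < z)) * chi (X.filter (z < ·)) := by
      refine Finset.sum_congr rfl fun z hz => ?_
      congr 2
      ext w
      simp only [Finset.mem_filter, Finset.mem_erase]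
      constructor
      · rintro ⟨⟨-, h7⟩, h8⟩
        exact ⟨h7, h8⟩
      · rintro ⟨h7, h8⟩
        refine ⟨⟨?_, h7⟩, h8⟩
        rintro rfl
        exact absurd (hmin (Finset.mem_erase.mp hz).2 h8.le) (not_le_of_gt h8)
    rw [h6]
    ring

/-- decomposition according to the greatest member of a chain which is not in `Y` -/
theorem chi_decomp' {X Y : Finset α} (hYX : Y ⊆ X) :
    chi X = chi Y - ∑ x ∈ X \ Y, chi (X.filter (· < x)) * chi (Y.filter (x < ·)) := by
  induction h : (X \ Y).card generalizing X with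
  | zero =>
    rw [Finset.card_eq_zero] at h
    have h1 : X = Y := Finset.Subset.antisymm (Finset.sdiff_eq_empty_iff_subset.mp h) hYX
    rw [h1]
    simp
  | succ n ih =>
    have hne : (X \ Y).Nonempty := by
      rw [← Finset.card_pos]
      omega
    obtain ⟨x, hx, hmax⟩ := (X \ Y).exists_maximal hne
    have hx' := Finset.mem_sdiff.mp hx
    have h1 : Y ⊆ X.erase x := by
      rw [Finset.subset_erase]
      exact ⟨hYX, hx'.2⟩
    have h2 : X.erase x \ Y = (X \ Y).erase x := by
      ext z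
      simp only [Finset.mem_sdiff, Finset.mem_erase]
      tauto
    have h3 : (X.erase x \ Y).card = n := by
      rw [h2, Finset.card_erase_of_mem hx, h]
      omega
    have h4 := ih h1 h3
    have h5 : X.filter (x < ·) = Y.filter (x < ·) := by
      ext z
      simp only [Finset.mem_filter]
      constructor
      · rintro ⟨h6, h7⟩
        refine ⟨?_, h7⟩
        by_contra h8
        have h9 : z ∈ X \ Y := Finset.mem_sdiff.mpr ⟨h6, h8⟩
        exact absurd (hmax h9 h7.le) (not_le_of_gt h7)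
      · rintro ⟨h6, h7⟩
        exact ⟨hYX h6, h7⟩
    rw [chi_erase hx'.1, h4, h2, h5, ← Finset.add_sum_erase _ _ hx]
    have h6 : ∑ z ∈ (X \ Y).erase x, chi ((X.erase x).filter (· < z)) * chi (Y.filter (z < ·)) =
        ∑ z ∈ (X \ Y).erase x, chi (X.filter (· < z)) * chi (Y.filter (z < ·)) := by
      refine Finset.sum_congr rfl fun z hz => ?_
      congr 2
      ext w
      simp only [Finset.mem_filter, Finset.mem_erase]
      constructor
      · rintro ⟨⟨-, h7⟩, h8⟩
        exact ⟨h7, h8⟩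
      · rintro ⟨h7, h8⟩
        refine ⟨⟨?_, h7⟩, h8⟩
        rintro rfl
        exact absurd (hmax (Finset.mem_erase.mp hz).2 h8.le) (not_le_of_gt h8)
    rw [h6]
    ring

/-- a subset which has a greatest element below every other element -/
lemma chi_eq_of_below {X Y : Finset α} (hYX : Y ⊆ X)
    (h : ∀ x ∈ X, x ∉ Y → ∃ m ∈ Y, m < x ∧ ∀ y ∈ Y, y < x → y ≤ m) : chi X = chi Y := by
  rw [chi_decomp hYX, Finset.sum_eq_zero, sub_zero]
  intro x hx
  rw [Finset.mem_sdiff] at hx
  obtain ⟨m, h1, h2, h3⟩ := h x hx.1 hx.2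
  rw [chi_max (m := m) (Finset.mem_filter.mpr ⟨h1, h2⟩), zero_mul]
  intro y hy
  rw [Finset.mem_filter] at hy
  exact h3 y hy.1 hy.2

/-- a subset which has a least element above every other element -/
lemma chi_eq_of_above {X Y : Finset α} (hYX : Y ⊆ X)
    (h : ∀ x ∈ X, x ∉ Y → ∃ m ∈ Y, x < m ∧ ∀ y ∈ Y, x < y → m ≤ y) : chi X = chi Y := by
  rw [chi_decomp' hYX, Finset.sum_eq_zero, sub_zero]
  intro x hx
  rw [Finset.mem_sdiff] at hx
  obtain ⟨m, h1, h2, h3⟩ := h x hx.1 hx.2
  rw [chi_min (m := m) (Finset.mem_filter.mpr ⟨h1, h2⟩), mul_zero]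
  intro y hy
  rw [Finset.mem_filter] at hy
  exact h3 y hy.1 hy.2

/-- invariance under isomorphisms -/
lemma chi_congr {X : Finset α} {Y : Finset β} (f : α → β) (g : β → α)
    (hf : ∀ x ∈ X, f x ∈ Y) (hg : ∀ y ∈ Y, g y ∈ X)
    (hgf : ∀ x ∈ X, g (f x) = x) (hfg : ∀ y ∈ Y, f (g y) = y)
    (mf : ∀ x ∈ X, ∀ x' ∈ X, x ≤ x' → f x ≤ f x')
    (mg : ∀ y ∈ Y, ∀ y' ∈ Y, y ≤ y' → g y ≤ g y') : chi X = chi Y := by
  unfold chi
  refine Finset.sum_bij' (fun σ _ => σ.image f) (fun τ _ => τ.image g) ?_ ?_ ?_ ?_ ?_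
  · intro σ hσ
    rw [mem_chainsIn] at hσ ⊢
    refine ⟨?_, ?_⟩
    · intro y hy
      obtain ⟨x, hx, rfl⟩ := Finset.mem_image.mp hy
      exact hf x (hσ.1 hx)
    · intro y hy y' hy' hne
      rw [Finset.mem_coe, Finset.mem_image] at hy hy'
      obtain ⟨x, hx, rfl⟩ := hy
      obtain ⟨x', hx', rfl⟩ := hy'
      rcases hσ.2 (Finset.mem_coe.mpr hx) (Finset.mem_coe.mpr hx') (fun h => hne (by rw [h]))
        with h | h
      · exact Or.inl (mf x (hσ.1 hx) x' (hσ.1 hx') h)
      · exact Or.inr (mf x' (hσ.1 hx') x (hσ.1 hx) h)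
  · intro σ hσ
    rw [mem_chainsIn] at hσ ⊢
    refine ⟨?_, ?_⟩
    · intro y hy
      obtain ⟨x, hx, rfl⟩ := Finset.mem_image.mp hy
      exact hg x (hσ.1 hx)
    · intro y hy y' hy' hne
      rw [Finset.mem_coe, Finset.mem_image] at hy hy'
      obtain ⟨x, hx, rfl⟩ := hy
      obtain ⟨x', hx', rfl⟩ := hy'
      rcases hσ.2 (Finset.mem_coe.mpr hx) (Finset.mem_coe.mpr hx') (fun h => hne (by rw [h]))
        with h | h
      · exact Or.inl (mg x (hσ.1 hx) x' (hσ.1 hx') h)
      · exact Or.inr (mg x' (hσ.1 hx') x (hσ.1 hx) h)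
  · intro σ hσ
    rw [mem_chainsIn] at hσ
    rw [Finset.image_image]
    conv_rhs => rw [← Finset.image_id (s := σ)]
    refine Finset.image_congr fun x hx => ?_
    exact hgf x (hσ.1 hx)
  · intro σ hσ
    rw [mem_chainsIn] at hσ
    rw [Finset.image_image]
    conv_rhs => rw [← Finset.image_id (s := σ)]
    refine Finset.image_congr fun x hx => ?_
    exact hfg x (hσ.1 hx)
  · intro σ hσ
    rw [mem_chainsIn] at hσ
    rw [Finset.card_image_of_injOn]
    intro x hx x' hx' h
    rw [← hgf x (hσ.1 hx), ← hgf x' (hσ.1 hx'), h]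

end Pool.Agent.X209.DI
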