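import Pool.Agent.X209.DI.Count
import Pool.Agent.Y63.KR.Limit

/-!
# Clifford theory for cyclic quotients, by counting
-/

open scoped Classical BigOperators
open Pool.Agent.Y63.KR Pool.Agent.Helper884.IC Pool.Agent.Y63.AWC

set_option linter.unusedSectionVars false
set_option linter.unusedVariables false

noncomputable section

namespace Pool.Agent.X209.DI

section

variable {X : Type} [Group X] [Fintype X]

lemma card_Irr_mul : Nat.card X * (Irr X).card = (CP X (fun _ _ => True)).card := by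
  have hM := cardG_ne (G := X)
  have h1 : ((Irr X).card : ℂ) = ∑ theta ∈ Irr X, B theta theta := by
    rw [Finset.card_eq_sum_ones, Nat.cast_sum]
    refine Finset.sum_congr rfl fun theta ht => ?_
    rw [B_irr (mem_Irr.mp ht) (mem_Irr.mp ht), if_pos rfl, Nat.cast_one]
  have h2 : ∑ theta ∈ Irr X, B theta theta =
      (Nat.card X : ℂ)⁻¹ * ∑ m : X, (Nat.card {n : X // n * m * n⁻¹ = m} : ℂ) := by
    unfold B
    rw [← Finset.mul_sum, Finset.sum_comm]
    congr 1
    refine Finset.sum_congr rfl fun m _ => ?_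
    rw [← col_orth]
  have h3 : (CP X (fun _ _ => True)).card = ∑ m : X, Nat.card {n : X // n * m * n⁻¹ = m} := by
    have e : {q : X × X // q ∈ CP X (fun _ _ => True)} ≃
        (Σ m : X, {n : X // n * m * n⁻¹ = m}) :=
      { toFun := fun q => ⟨q.1.1, q.1.2, by
          have := (mem_CP.mp q.2).1
          rw [← this]; group⟩
        invFun := fun s => ⟨(s.1, s.2.1), mem_CP.mpr ⟨by
          have := s.2.2
          exact (mul_inv_eq_iff_eq_mul.mp this).symm, trivial⟩⟩
        left_inv := fun q => rfl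
        right_inv := fun s => rfl }
    rw [← Fintype.card_coe, ← Nat.card_eq_fintype_card, Nat.card_congr e, Nat.card_sigma]
  have h4 : ((Nat.card X * (Irr X).card : ℕ) : ℂ) = (((CP X (fun _ _ => True)).card : ℕ) : ℂ) := by
    rw [h3, Nat.cast_mul, h1, h2]
    push_cast
    field_simp
  exact_mod_cast h4

variable (M : Subgroup X) [hM : M.Normal]

lemma St_ge_iff {theta : M → ℂ} (h : IsIrrChar theta) (S : Subgroup X) :
    S ⊔ M ≤ St M theta ↔ S ≤ St M theta := by
  constructor
  · exact fun h1 => le_sup_left.trans h1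
  · exact fun h1 => sup_le h1 (le_St M h.isClass)

lemma pair_le_iff {x y : X} {S : Subgroup X} :
    Subgroup.closure {x, y} ≤ S ↔ x ∈ S ∧ y ∈ S := by
  rw [Subgroup.closure_le]
  constructor
  · intro h
    exact ⟨h (by simp), h (by simp)⟩
  · rintro ⟨h1, h2⟩ z (rfl | hz)
    · exact h1
    · rw [Set.mem_singleton_iff.mp hz]
      exact h2

/-- the number of characters fixed by two elements, by commuting pairs -/
lemma fix2 {g : X} (hg : ∀ x : X, ∃ i : ℕ, x⁻¹ * g ^ i ∈ M) (x y : X) :
    (Nat.card M : ℤ) * (((Irr M).filter fun theta => x ∈ St M theta ∧ y ∈ St M theta).card : ℤ) =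
      AF (fun _ => 1) M x y := by
  obtain ⟨d, -, h1, h2⟩ := normal_form (F := fun _ => 1) hg x y
  rw [h1]
  have h3 : ((Irr M).filter fun theta => x ∈ St M theta ∧ y ∈ St M theta) =
      ((Irr M).filter fun theta => cj M (g ^ d) theta = theta) := by
    apply Finset.filter_congr
    intro theta ht
    rw [← pair_le_iff, ← St_ge_iff M (mem_Irr.mp ht), h2, St_ge_iff M (mem_Irr.mp ht),
      Subgroup.zpowers_le, mem_St]
  rw [h3]
  have h4 := fix_count M (g ^ d)
  have h5 : Nat.card {q : M × M // q.2 * MulAut.conjNormal (g ^ d) q.1 * q.2⁻¹ = q.1} =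
      (CP X (fun x y => (1 : X)⁻¹ * x ∈ M ∧ (g ^ d)⁻¹ * y ∈ M)).card := by
    rw [← Fintype.card_coe, ← Nat.card_eq_fintype_card]
    refine Nat.card_congr
      { toFun := fun q => ⟨((q.1.1 : X), (q.1.2 : X) * g ^ d), ?_⟩
        invFun := fun q => ⟨(⟨q.1.1, ?_⟩, ⟨q.1.2 * (g ^ d)⁻¹, ?_⟩), ?_⟩
        left_inv := ?_
        right_inv := ?_ }
    · rw [mem_CP]
      have h6 := congrArg Subtype.val q.2
      simp only [Subgroup.coe_mul, MulAut.conjNormal_apply, InvMemClass.coe_inv] at h6
      refine ⟨?_, ?_, ?_⟩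
      · change (q.1.1 : X) * ((q.1.2 : X) * g ^ d) = (q.1.2 : X) * g ^ d * q.1.1
        calc (q.1.1 : X) * ((q.1.2 : X) * g ^ d)
            = ((q.1.2 : X) * (g ^ d * (q.1.1 : X) * (g ^ d)⁻¹) * (q.1.2 : X)⁻¹) *
              ((q.1.2 : X) * g ^ d) := by rw [h6]
          _ = _ := by group
      · change (1 : X)⁻¹ * (q.1.1 : X) ∈ M
        rw [inv_one, one_mul]
        exact q.1.1.2
      · change (g ^ d)⁻¹ * ((q.1.2 : X) * g ^ d) ∈ M
        have := hM.conj_mem _ q.1.2.2 (g ^ d)⁻¹
        rw [inv_inv, mul_assoc] at this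
        exact this
    · have h6 := (mem_CP.mp q.2).2.1
      simpa only [inv_one, one_mul] using h6
    · have h6 := (mem_CP.mp q.2).2.2
      have h7 := hM.conj_mem _ h6 (g ^ d)
      have e : g ^ d * ((g ^ d)⁻¹ * q.1.2) * (g ^ d)⁻¹ = q.1.2 * (g ^ d)⁻¹ := by group
      rwa [e] at h7
    · apply Subtype.ext
      simp only [Subgroup.coe_mul, MulAut.conjNormal_apply, InvMemClass.coe_inv]
      have h6 := (mem_CP.mp q.2).1
      calc q.1.2 * (g ^ d)⁻¹ * (g ^ d * q.1.1 * (g ^ d)⁻¹) * (q.1.2 * (g ^ d)⁻¹)⁻¹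
          = (q.1.2 * q.1.1) * q.1.2⁻¹ := by group
        _ = q.1.1 := by rw [← h6]; group
    · intro q
      apply Subtype.ext
      refine Prod.ext rfl ?_
      apply Subtype.ext
      change (q.1.2 : X) * g ^ d * (g ^ d)⁻¹ = q.1.2
      group
    · intro q
      apply Subtype.ext
      refine Prod.ext rfl ?_
      change q.1.2 * (g ^ d)⁻¹ * g ^ d = q.1.2
      group
  rw [h5] at h4
  have h6 : ((Nat.card M * ((Irr M).filter fun theta => cj M (g ^ d) theta = theta).card : ℕ) : ℤ) =
      (((CP X (fun x y => (1 : X)⁻¹ * x ∈ M ∧ (g ^ d)⁻¹ * y ∈ M)).card : ℕ) : ℤ) := by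
    rw [h4]
  push_cast at h6
  rw [h6]
  unfold AF PF
  simp

lemma sum_St_sq {g : X} (hg : ∀ x : X, ∃ i : ℕ, x⁻¹ * g ^ i ∈ M) :
    ∑ theta ∈ Irr M, Nat.card (St M theta) ^ 2 = Nat.card M * (Nat.card X * (Irr X).card) := by
  have h1 := PF_cosets (G := M) (fun _ => (1 : ℤ)) (fun _ _ => True)
    (fun _ _ _ _ _ _ => Iff.rfl)
  have h2 : ∑ q : X × X, AF (fun _ => (1 : ℤ)) M q.1 q.2 =
      ∑ q : X × X, (Nat.card M : ℤ) *
        (((Irr M).filter fun theta => q.1 ∈ St M theta ∧ q.2 ∈ St M theta).card : ℤ) :=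
    Finset.sum_congr rfl fun q _ => (fix2 M hg q.1 q.2).symm
  have h0 : FP X (fun _ _ => True) = Finset.univ := by
    ext q
    simp [mem_FP]
  rw [h0, h2] at h1
  have h3 : PF (fun _ => (1 : ℤ)) (fun (_ _ : X) => True) = (Nat.card X : ℤ) * (Irr X).card := by
    unfold PF
    rw [Finset.sum_const, nsmul_eq_mul, mul_one, ← card_Irr_mul]
    push_cast
    rfl
  rw [h3, ← Finset.mul_sum] at h1
  have h4 : ∑ q : X × X,
      (((Irr M).filter fun theta => q.1 ∈ St M theta ∧ q.2 ∈ St M theta).card : ℤ) =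
      ((∑ theta ∈ Irr M, Nat.card (St M theta) ^ 2 : ℕ) : ℤ) := by
    push_cast
    simp only [Finset.card_filter, Nat.cast_sum]
    rw [Finset.sum_comm]
    refine Finset.sum_congr rfl fun theta _ => ?_
    push_cast
    rw [← Finset.sum_filter, Finset.sum_const, nsmul_eq_mul, mul_one]
    have h5 : Finset.univ.filter (fun q : X × X => q.1 ∈ St M theta ∧ q.2 ∈ St M theta) =
        (Finset.univ.filter fun x : X => x ∈ St M theta) ×ˢ
          (Finset.univ.filter fun x : X => x ∈ St M theta) := by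
      ext q
      simp [Finset.mem_product]
    have h6 : (Finset.univ.filter fun x : X => x ∈ St M theta).card = Nat.card (St M theta) := by
      rw [← Fintype.card_subtype, ← Nat.card_eq_fintype_card]
    rw [h5, Finset.card_product, h6]
    push_cast
    ring
  rw [h4] at h1
  have h5 : (Nat.card M : ℤ) ≠ 0 := by exact_mod_cast Nat.card_pos.ne'
  have h6 : (Nat.card M : ℤ) * ((Nat.card M : ℤ) * ((Nat.card X : ℤ) * (Irr X).card)) =
      (Nat.card M : ℤ) * ((∑ theta ∈ Irr M, Nat.card (St M theta) ^ 2 : ℕ) : ℤ) := by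
    rw [← h1]; ring
  have h7 := mul_left_cancel₀ h5 h6
  exact_mod_cast h7.symm

/-- the number of characters over `theta` -/
def nov (theta : M → ℂ) : ℕ := ((Irr X).filter fun chi => mult M chi theta ≠ 0).card

lemma nov_le {theta : M → ℂ} (h : IsIrrChar theta) :
    Nat.card M * nov M theta ≤ Nat.card (St M theta) := by
  rw [St_eq M h]
  apply Nat.mul_le_mul_left
  unfold nov
  rw [Finset.card_filter]
  apply Finset.sum_le_sum
  intro chi _
  split_ifs with h1
  · exact Nat.one_le_iff_ne_zero.mpr (pow_ne_zero 2 h1)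
  · exact Nat.zero_le _

/-- double counting of the pairs of a character and a constituent -/
lemma double_count (P : (X → ℂ) → Prop) (Q : (M → ℂ) → Prop)
    (hPQ : ∀ chi theta, IsIrrChar chi → IsIrrChar theta → mult M chi theta ≠ 0 →
      (P chi ↔ Q theta)) :
    ∑ theta ∈ (Irr M).filter Q, nov M theta * Nat.card (St M theta) =
      Nat.card X * ((Irr X).filter P).card := by
  have h1 : ∀ theta ∈ (Irr M).filter Q, nov M theta * Nat.card (St M theta) =
      ∑ chi ∈ (Irr X).filter P, if mult M chi theta ≠ 0 then Nat.card (St M theta) else 0 := by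
    intro theta ht
    rw [Finset.mem_filter, mem_Irr] at ht
    rw [← Finset.sum_filter, Finset.sum_const, smul_eq_mul]
    congr 1
    unfold nov
    congr 1
    ext chi
    simp only [Finset.mem_filter]
    constructor
    · rintro ⟨h2, h3⟩
      exact ⟨⟨h2, (hPQ chi theta (mem_Irr.mp h2) ht.1 h3).mpr ht.2⟩, h3⟩
    · rintro ⟨⟨h2, -⟩, h3⟩
      exact ⟨h2, h3⟩
  rw [Finset.sum_congr rfl h1, Finset.sum_comm]
  have h2 : ∀ chi ∈ (Irr X).filter P, (∑ theta ∈ (Irr M).filter Q,
      if mult M chi theta ≠ 0 then Nat.card (St M theta) else 0) = Nat.card X := by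
    intro chi hchi
    rw [Finset.mem_filter, mem_Irr] at hchi
    obtain ⟨theta, ht, hm⟩ := mult_exists M hchi.1
    have h3 : ((Irr M).filter Q).filter (fun t => mult M chi t ≠ 0) = Orb M theta := by
      rw [← support_eq M hchi.1 ht hm]
      ext t
      simp only [Finset.mem_filter]
      constructor
      · rintro ⟨⟨h4, -⟩, h5⟩
        exact ⟨h4, h5⟩
      · rintro ⟨h4, h5⟩
        exact ⟨⟨h4, (hPQ chi t hchi.1 (mem_Irr.mp h4) h5).mp hchi.2⟩, h5⟩
    rw [← Finset.sum_filter, h3]
    have h4 : ∀ t ∈ Orb M theta, Nat.card (St M t) = Nat.card (St M theta) := by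
      intro t hth
      have h5 := card_Orb_mul M theta
      have h6 := card_Orb_mul M t
      have h7 : Orb M t = Orb M theta := by
        have ht' := Orb_irr M ht hth
        have h8 : mult M chi t ≠ 0 := by
          rw [← support_eq M hchi.1 ht hm, Finset.mem_filter] at hth
          exact hth.2
        rw [← support_eq M hchi.1 ht hm, ← support_eq M hchi.1 ht' h8]
      rw [h7, ← h5] at h6
      have h9 : 0 < (Orb M theta).card := by
        rw [Finset.card_pos]
        exact ⟨_, Finset.mem_image.mpr ⟨1, Finset.mem_univ _, rfl⟩⟩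
      exact Nat.eq_of_mul_eq_mul_left h9 h6
    rw [Finset.sum_congr rfl h4, Finset.sum_const, smul_eq_mul, card_Orb_mul]
  rw [Finset.sum_congr rfl h2, Finset.sum_const, smul_eq_mul, mul_comm]

/-- the number of characters over an irreducible character, for a cyclic quotient -/
theorem nov_eq {g : X} (hg : ∀ x : X, ∃ i : ℕ, x⁻¹ * g ^ i ∈ M) {theta : M → ℂ}
    (h : IsIrrChar theta) : Nat.card M * nov M theta = Nat.card (St M theta) := by
  have h1 := double_count M (fun _ => True) (fun _ => True) (fun _ _ _ _ _ => Iff.rfl)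
  rw [Finset.filter_true, Finset.filter_true] at h1
  have h2 := sum_St_sq M hg
  rw [← h1, Finset.mul_sum] at h2
  have h3 : ∀ t ∈ Irr M, Nat.card M * (nov M t * Nat.card (St M t)) ≤ Nat.card (St M t) ^ 2 := by
    intro t ht
    rw [← mul_assoc, sq]
    exact Nat.mul_le_mul_right _ (nov_le M (mem_Irr.mp ht))
  have h4 := (Finset.sum_eq_sum_iff_of_le h3).mp h2.symm theta (mem_Irr.mpr h)
  rw [← mul_assoc, sq] at h4
  exact Nat.eq_of_mul_eq_mul_right Nat.card_pos h4

lemma mult_le_one {g : X} (hg : ∀ x : X, ∃ i : ℕ, x⁻¹ * g ^ i ∈ M) {theta : M → ℂ}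
    (h : IsIrrChar theta) {chi : X → ℂ} (hc : IsIrrChar chi) : mult M chi theta ≤ 1 := by
  have h1 := nov_eq M hg h
  rw [St_eq M h] at h1
  have h2 := Nat.eq_of_mul_eq_mul_left Nat.card_pos h1
  unfold nov at h2
  rw [Finset.card_filter] at h2
  have h3 : ∀ c ∈ Irr X, (if mult M c theta ≠ 0 then 1 else 0) ≤ mult M c theta ^ 2 := by
    intro c _
    split_ifs with h4
    · exact Nat.one_le_iff_ne_zero.mpr (pow_ne_zero 2 h4)
    · exact Nat.zero_le _
  have h4 := (Finset.sum_eq_sum_iff_of_le h3).mp h2 chi (mem_Irr.mpr hc)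
  by_contra hcon
  rw [if_pos (by omega)] at h4
  nlinarith

variable {p : ℕ} [hp : Fact p.Prime]

lemma card_St_dvd {theta : M → ℂ} (h : IsIrrChar theta) : Nat.card M ∣ Nat.card (St M theta) :=
  Subgroup.card_dvd_of_le (le_St M h.isClass)

/-- defect zero of the characters over `theta` -/
lemma DZ_over {g : X} (hg : ∀ x : X, ∃ i : ℕ, x⁻¹ * g ^ i ∈ M) {theta : M → ℂ}
    (h : IsIrrChar theta) {chi : X → ℂ} (hc : IsIrrChar chi) (h1 : mult M chi theta ≠ 0) :
    DZ p chi ↔ (DZ p theta ∧ ¬ p ∣ Nat.card (St M theta) / Nat.card M) := by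
  rw [DZ_iff hc, DZ_iff h]
  obtain ⟨hd1, hd2⟩ := dg_spec hc
  obtain ⟨hd3, hd4⟩ := dg_spec h
  have h2 := deg_eq M hc h h1 hd1 hd3
  have h3 : mult M chi theta = 1 := le_antisymm (mult_le_one M hg h hc) (Nat.pos_of_ne_zero h1)
  rw [h3, mul_one] at h2
  have h4 := cod_spec hc
  have h5 := card_Orb_mul M theta
  have h9 : 0 < (Orb M theta).card := by
    rw [Finset.card_pos]
    exact ⟨_, Finset.mem_image.mpr ⟨1, Finset.mem_univ _, rfl⟩⟩
  have h6 : Nat.card (St M theta) = dg theta * cod chi := by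
    apply Nat.eq_of_mul_eq_mul_left h9
    rw [h5, ← h4, h2]
    ring
  obtain ⟨t, ht⟩ := card_St_dvd M h
  have h7 := cod_spec h
  have h8 : cod chi = cod theta * t := by
    apply Nat.eq_of_mul_eq_mul_left hd4
    rw [← h6, ht, ← h7]
    ring
  have h10 : Nat.card (St M theta) / Nat.card M = t := by
    rw [ht]
    exact Nat.mul_div_cancel_left t Nat.card_pos
  rw [h8, h10, hp.out.dvd_mul]
  tauto

/-- **The number of characters of defect zero, for a cyclic quotient.** -/
theorem defectZero_cyclic {g : X} (hg : ∀ x : X, ∃ i : ℕ, x⁻¹ * g ^ i ∈ M) :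
    Nat.card M * (Nat.card X * numDefectZero p X) =
      ∑ theta ∈ (Irr M).filter (fun theta => DZ p theta ∧
        ¬ p ∣ Nat.card (St M theta) / Nat.card M), Nat.card (St M theta) ^ 2 := by
  have h1 := double_count M (fun chi => DZ p chi) (fun theta => DZ p theta ∧
        ¬ p ∣ Nat.card (St M theta) / Nat.card M) (fun chi theta h2 h3 h4 => DZ_over M hg h3 h2 h4)
  rw [numDefectZero_eq, ← h1, Finset.mul_sum]
  refine Finset.sum_congr (by ext t; simp only [Finset.mem_filter]) fun theta ht => ?_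
  rw [Finset.mem_filter, mem_Irr] at ht
  rw [← mul_assoc, nov_eq M hg ht.1, sq]

end

end Pool.Agent.X209.DI
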