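import Pool.Agent.X209.DI.Cyc

/-!
# Invariance under isomorphisms
-/

open scoped Classical BigOperators
open Pool.Agent.Y63.KR Pool.Agent.Helper884.IC Pool.Agent.Y63.AWC

set_option linter.unusedSectionVars false
set_option linter.unusedVariables false

noncomputable section

namespace Pool.Agent.X209.DI

variable {p : ℕ} {A B : Type} [Group A] [Group B]

lemma conjSub_mapE (e : A ≃* B) (x : A) (P : Subgroup A) :
    (conjSub x P).map e.toMonoidHom = conjSub (e x) (P.map e.toMonoidHom) := by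
  unfold conjSub
  rw [Subgroup.map_map, Subgroup.map_map]
  congr 1
  ext y
  simp

variable [Fintype A] [Fintype B]

lemma w_congr (e : A ≃* B) (x y : A) :
    w p (⊤ : Subgroup A) {x, y} = w p (⊤ : Subgroup B) {e x, e y} := by
  unfold w
  have key : ∀ {A B : Type} [Group A] [Group B] [Fintype A] [Fintype B] (e : A ≃* B) (x y : A)
      (P : Subgroup A), P ∈ Sp p (⊤ : Subgroup A) {x, y} →
      P.map e.toMonoidHom ∈ Sp p (⊤ : Subgroup B) {e x, e y} := by
    intro A B _ _ _ _ e x y P hP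
    rw [mem_Sp] at hP ⊢
    refine ⟨hP.1.map _, ?_, le_top, ?_⟩
    · intro h
      exact hP.2.1 ((Subgroup.map_eq_bot_iff_of_injective _ e.injective).mp h)
    · rintro z (rfl | hz)
      · rw [← conjSub_mapE, hP.2.2.2 x (by simp)]
      · rw [Set.mem_singleton_iff.mp hz, ← conjSub_mapE, hP.2.2.2 y (by simp)]
  refine chi_congr (fun P => P.map e.toMonoidHom) (fun Q => Q.map e.symm.toMonoidHom)
    (key e x y) (fun Q hQ => ?_) (fun P _ => ?_) (fun Q _ => ?_)
    (fun P _ P' _ h => Subgroup.map_mono h) (fun Q _ Q' _ h => Subgroup.map_mono h)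
  · have h1 := key e.symm (e x) (e y) Q hQ
    rwa [e.symm_apply_apply, e.symm_apply_apply] at h1
  · rw [Subgroup.map_map]
    convert Subgroup.map_id P
    ext z
    simp
  · rw [Subgroup.map_map]
    convert Subgroup.map_id Q
    ext z
    simp

lemma aK_top [Fact p.Prime] :
    (Nat.card A : ℤ) * aK p A = ∑ q ∈ CP A (fun _ _ => True), w p (⊤ : Subgroup A) {q.1, q.2} := by
  have : Fintype (TwPair 1 A) := Fintype.ofFinite _
  have e2 : (fun K : Subgroup A => (Nat.card (ConjClasses K) : ℤ)) =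
      fun K : Subgroup A => (numR 1 K (fun _ => True) : ℤ) := funext fun K => by
    rw [← numFixed_eq, numFixed_one]
  have h1 := sum_numR (p := p) (G := A) 1 (fun _ => True)
  rw [← e2] at h1
  unfold aK
  rw [h1]
  refine Finset.sum_bij' (fun q _ => (q.1.1, q.1.2))
    (fun q hq => (⟨(q.1, q.2), ?_⟩ : TwPair 1 A)) ?_ ?_ ?_ ?_ ?_
  · have := (mem_CP.mp hq).1
    change q.2 * q.1 * q.2⁻¹ = q.1 ^ 1
    rw [pow_one, ← this]
    group
  · intro q _
    rw [mem_CP]
    refine ⟨?_, trivial⟩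
    have h2 := q.2
    change q.1.2 * q.1.1 * q.1.2⁻¹ = q.1.1 ^ 1 at h2
    rw [pow_one] at h2
    exact (mul_inv_eq_iff_eq_mul.mp h2).symm
  · intro q _
    exact Finset.mem_univ _
  · intro q _
    rfl
  · intro q _
    rfl
  · intro q _
    rw [bz_pos trivial, mul_one, W_eq_w]

theorem aK_congr [Fact p.Prime] (e : A ≃* B) : aK p A = aK p B := by
  have h0 : (Nat.card A : ℤ) ≠ 0 := by exact_mod_cast Nat.card_pos.ne'
  apply mul_left_cancel₀ h0
  rw [aK_top, Nat.card_congr e.toEquiv, aK_top]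
  refine Finset.sum_bij' (fun q _ => (e q.1, e q.2)) (fun q _ => (e.symm q.1, e.symm q.2))
    ?_ ?_ ?_ ?_ ?_
  · intro q hq
    rw [mem_CP] at hq ⊢
    refine ⟨?_, trivial⟩
    change e q.1 * e q.2 = e q.2 * e q.1
    rw [← map_mul, ← map_mul, hq.1]
  · intro q hq
    rw [mem_CP] at hq ⊢
    refine ⟨?_, trivial⟩
    change e.symm q.1 * e.symm q.2 = e.symm q.2 * e.symm q.1
    rw [← map_mul, ← map_mul, hq.1]
  · intro q _
    simp
  · intro q _
    simp
  · intro q _
    exact w_congr e q.1 q.2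

lemma kd_congr [Fact p.Prime] (e : A ≃* B) : kd p A = kd p B := by
  unfold kd
  rw [aK_congr e, numDefectZero_congr e]

lemma KRC_congr [Fact p.Prime] (e : A ≃* B) : KRC p A ↔ KRC p B := by
  rw [KRC_iff_kd, KRC_iff_kd, kd_congr e]

/-- `k(H) - z_p(H) - χ₂` -/
def krDefect (p : ℕ) (H : Type) [Group H] : ℚ :=
  (Nat.card (ConjClasses H) : ℚ) - (numDefectZero p H : ℚ) - chi2 p H

lemma krDefect_eq [Fact p.Prime] : krDefect p A = (kd p A : ℚ) := by
  unfold krDefect kd aK
  push_cast
  rw [altSum_classes]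
  ring

end Pool.Agent.X209.DI
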