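import Pool.Agent.X209.DI.SL
import Pool.Agent.Y63.AWC.Z1

/-!
# Invariant characters of the stabilisers of chains
-/

open scoped Classical BigOperators
open Pool.Agent.Y63.KR Pool.Agent.Helper884.IC

set_option linter.unusedSectionVars false
set_option linter.unusedVariables false
set_option linter.style.haveILetI false

noncomputable section

namespace Pool.Agent.X209.DI

section defs

variable {E : Type} [Group E]

/-- `σ` is a chain of nontrivial `p`-subgroups of `G`. -/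
def IsChainIn (p : ℕ) (G : Subgroup E) (σ : Set (Subgroup E)) : Prop :=
  IsPChain p σ ∧ ∀ P ∈ σ, P ≤ G

theorem chainClass_equivalence (p : ℕ) (G : Subgroup E) :
    Equivalence (fun σ τ : {σ : Set (Subgroup E) // IsChainIn p G σ} =>
      ∃ g ∈ G, τ.1 = conjSub g '' σ.1) :=
  { refl := fun σ => ⟨1, G.one_mem, by
      have : (conjSub (1 : E)) = id := funext conjSub_one
      rw [this, Set.image_id]⟩
    symm := by
      rintro σ τ ⟨g, hg, h⟩
      refine ⟨g⁻¹, G.inv_mem hg, ?_⟩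
      rw [h, ← Set.image_comp]
      have : conjSub g⁻¹ ∘ conjSub g = id := funext fun P => by
        rw [Function.comp_apply, ← conjSub_mul, inv_mul_cancel, conjSub_one, id]
      rw [this, Set.image_id]
    trans := by
      rintro σ τ υ ⟨g, hg, h1⟩ ⟨h, hh, h2⟩
      refine ⟨h * g, G.mul_mem hh hg, ?_⟩
      rw [h2, h1, ← Set.image_comp]
      congr 1
      exact (funext fun P => conjSub_mul h g P).symm }

/-- Conjugacy under `G` of chains of nontrivial `p`-subgroups of `G`. -/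
def chainClass (p : ℕ) (G : Subgroup E) : Setoid {σ : Set (Subgroup E) // IsChainIn p G σ} where
  r σ τ := ∃ g ∈ G, τ.1 = conjSub g '' σ.1
  iseqv := chainClass_equivalence p G

/-- The alternating sum `∑_σ (-1)^|σ| f(σ)` over representatives `σ` of the `G`-classes of chains of
nontrivial `p`-subgroups of `G`, the empty chain included. -/
def altSum (p : ℕ) (G : Subgroup E) (f : Set (Subgroup E) → ℤ) : ℤ :=
  ∑ᶠ c : Quotient (chainClass p G), (-1) ^ c.out.1.ncard * f c.out.1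

end defs

variable {p : ℕ} {E : Type} [Group E] [Fintype E] {G : Subgroup E} [hG : G.Normal]

/-- the stabiliser in `G` -/
abbrev Gs (G : Subgroup E) (σ : Set (Subgroup E)) : Subgroup (chainStabilizer σ) :=
  G.subgroupOf (chainStabilizer σ)

lemma card_Gs (σ : Set (Subgroup E)) :
    Nat.card (Gs G σ) = Nat.card {x : E // x ∈ G ∧ x ∈ chainStabilizer σ} :=
  Nat.card_congr
    { toFun := fun x => ⟨x.1.1, x.2, x.1.2⟩
      invFun := fun x => ⟨⟨x.1, x.2.2⟩, x.2.1⟩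
      left_inv := fun x => rfl
      right_inv := fun x => rfl }

lemma IsChainIn.conj {σ : Set (Subgroup E)} (h : IsChainIn p G σ) {g : E} (hg : g ∈ G) :
    IsChainIn p G (conjSub g '' σ) := by
  refine ⟨h.1.conj g, ?_⟩
  rintro _ ⟨P, hP, rfl⟩ x hx
  rw [mem_conjSub] at hx
  have h1 := h.2 P hP hx
  have h2 := hG.conj_mem _ h1 g
  have e : g * (g⁻¹ * x * g) * g⁻¹ = x := by group
  rwa [e] at h2

theorem card_mul_altSum (f : Set (Subgroup E) → ℤ)
    (hf : ∀ g ∈ G, ∀ σ, IsChainIn p G σ → f (conjSub g '' σ) = f σ)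
    [Fintype {σ : Set (Subgroup E) // IsChainIn p G σ}] :
    (Nat.card G : ℤ) * altSum p G f =
      ∑ σ : {σ : Set (Subgroup E) // IsChainIn p G σ},
        (-1) ^ σ.1.ncard * ((Nat.card (Gs G σ.1) : ℤ) * f σ.1) := by
  letI : MulAction G {σ : Set (Subgroup E) // IsChainIn p G σ} :=
    { smul := fun g σ => ⟨conjSub g.1 '' σ.1, σ.2.conj g.2⟩
      one_smul := fun σ => by
        apply Subtype.ext
        change conjSub (1 : E) '' σ.1 = σ.1
        have : (conjSub (1 : E)) = id := funext conjSub_one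
        rw [this, Set.image_id]
      mul_smul := fun g h σ => by
        apply Subtype.ext
        change conjSub (g.1 * h.1) '' σ.1 = conjSub g.1 '' (conjSub h.1 '' σ.1)
        rw [← Set.image_comp]
        congr 1
        exact funext fun P => conjSub_mul g.1 h.1 P }
  have hsm : ∀ (g : G) (σ : {σ : Set (Subgroup E) // IsChainIn p G σ}),
      (g • σ).1 = conjSub g.1 '' σ.1 := fun _ _ => rfl
  have h := orbit_sum (G := G) (chainClass p G) (by
    intro σ τ
    change (∃ g ∈ G, τ.1 = conjSub g '' σ.1) ↔ _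
    constructor
    · rintro ⟨g, hg, h1⟩
      exact ⟨⟨g, hg⟩, Subtype.ext (by rw [hsm, h1])⟩
    · rintro ⟨g, hg⟩
      exact ⟨g.1, g.2, by rw [← hg, hsm]⟩)
    (fun σ => (-1) ^ σ.1.ncard * f σ.1) (by
      rintro σ τ ⟨g, hg, h1⟩
      rw [h1, ncard_conj, hf g hg σ.1 σ.2])
  unfold altSum
  rw [h]
  refine Finset.sum_congr rfl fun σ _ => ?_
  have hst : Nat.card (MulAction.stabilizer G σ) = Nat.card (Gs G σ.1) := by
    rw [card_Gs]
    refine Nat.card_congr
      { toFun := fun g => ⟨g.1.1, g.1.2, ?_⟩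
        invFun := fun x => ⟨⟨x.1, x.2.1⟩, ?_⟩
        left_inv := fun x => rfl
        right_inv := fun x => rfl }
    · have h3 := congrArg Subtype.val (MulAction.mem_stabilizer_iff.mp g.2)
      rw [hsm] at h3
      rw [mem_chainStabilizer]
      intro P hP
      have hgP : conjSub g.1.1 P ∈ σ.1 := by
        rw [← h3]
        exact ⟨P, hP, rfl⟩
      have hcard : Nat.card (conjSub g.1.1 P) = Nat.card P :=
        Nat.card_congr (Subgroup.equivMapOfInjective _ _ (MulAut.conj g.1.1).injective).toEquiv.symm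
      rcases σ.2.1.chain.total hgP hP with h4 | h4
      · exact Subgroup.eq_of_le_of_card_ge h4 hcard.ge
      · exact (Subgroup.eq_of_le_of_card_ge h4 hcard.le).symm
    · rw [MulAction.mem_stabilizer_iff, Subtype.ext_iff, hsm]
      have h3 := mem_chainStabilizer.mp x.2.2
      ext P
      constructor
      · rintro ⟨Q, hQ, rfl⟩
        rw [h3 Q hQ]
        exact hQ
      · intro hP
        exact ⟨P, hP, h3 P hP⟩
  rw [hst]
  ring

/-- the sum over the chains normalised by `K` -/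
lemma sum_chains (K : Set E) [Fintype {σ : Set (Subgroup E) // IsChainIn p G σ}] :
    ∑ σ : {σ : Set (Subgroup E) // IsChainIn p G σ},
      (-1 : ℤ) ^ σ.1.ncard * (if ∀ P ∈ σ.1, ∀ x ∈ K, conjSub x P = P then 1 else 0) = w p G K := by
  unfold w chi
  have h1 : ∀ σ : {σ : Set (Subgroup E) // IsChainIn p G σ},
      (-1 : ℤ) ^ σ.1.ncard * (if ∀ P ∈ σ.1, ∀ x ∈ K, conjSub x P = P then 1 else 0) =
      if ∀ P ∈ σ.1, ∀ x ∈ K, conjSub x P = P then (-1 : ℤ) ^ σ.1.ncard else 0 := by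
    intro σ
    split_ifs <;> simp
  simp only [h1]
  rw [← Finset.sum_filter]
  refine Finset.sum_bij (fun σ _ => (Set.toFinite σ.1).toFinset) ?_ ?_ ?_ ?_
  · intro σ hσ
    rw [Finset.mem_filter] at hσ
    rw [mem_chainsIn]
    refine ⟨?_, ?_⟩
    · intro P hP
      rw [Set.Finite.mem_toFinset] at hP
      rw [mem_Sp]
      exact ⟨σ.2.1.isPGroup P hP, σ.2.1.ne_bot P hP, σ.2.2 P hP, hσ.2 P hP⟩
    · rw [Set.Finite.coe_toFinset]
      exact σ.2.1.chain
  · intro σ _ τ _ h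
    apply Subtype.ext
    have h2 := congrArg (fun s : Finset (Subgroup E) => (s : Set (Subgroup E))) h
    simp only [Set.Finite.coe_toFinset] at h2
    exact h2
  · intro s hs
    rw [mem_chainsIn] at hs
    have hs' : ∀ P ∈ s, IsPGroup p P ∧ P ≠ ⊥ ∧ P ≤ G ∧ ∀ x ∈ K, conjSub x P = P :=
      fun P hP => mem_Sp.mp (hs.1 hP)
    refine ⟨⟨(s : Set (Subgroup E)), ⟨hs.2, fun P hP => (hs' P hP).1, fun P hP => (hs' P hP).2.1⟩,
      fun P hP => (hs' P hP).2.2.1⟩, ?_, ?_⟩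
    · rw [Finset.mem_filter]
      exact ⟨Finset.mem_univ _, fun P hP => (hs' P hP).2.2.2⟩
    · ext P
      rw [Set.Finite.mem_toFinset]
      exact Finset.mem_coe
  · intro σ _
    rw [Set.ncard_eq_toFinset_card σ.1 (Set.toFinite σ.1)]

theorem main_count' (f : Set (Subgroup E) → ℤ)
    (hf : ∀ g ∈ G, ∀ σ, IsChainIn p G σ → f (conjSub g '' σ) = f σ) {T : Type} [Fintype T]
    (K : T → Set E) (h : ∀ σ : Set (Subgroup E), IsChainIn p G σ → (Nat.card (Gs G σ) : ℤ) * f σ =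
      (Nat.card {t : T // K t ⊆ chainStabilizer σ} : ℤ)) :
    (Nat.card G : ℤ) * altSum p G f = ∑ t : T, w p G (K t) := by
  have : Fintype {σ : Set (Subgroup E) // IsChainIn p G σ} := Fintype.ofFinite _
  rw [card_mul_altSum f hf]
  simp only [← sum_chains]
  rw [Finset.sum_comm]
  refine Finset.sum_congr rfl fun σ _ => ?_
  rw [h σ.1 σ.2, ← Finset.mul_sum]
  congr 1
  rw [Finset.sum_boole, Nat.card_eq_fintype_card, Fintype.card_subtype]
  congr 2
  ext t
  simp only [Finset.mem_filter, Finset.mem_univ, true_and]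
  constructor
  · intro h1 P hP x hx
    exact mem_chainStabilizer.mp (h1 hx) P hP
  · intro h1 x hx
    exact mem_chainStabilizer.mpr fun P hP => h1 P hP x hx

/-- The number of the irreducible characters of `G_σ` which are invariant under some (equivalently:
all) elements of `E_σ ∩ eG`. -/
def kE (G : Subgroup E) [G.Normal] (e : E) (σ : Set (Subgroup E)) : ℕ :=
  Nat.card {χ : Gs G σ → ℂ // IsIrrChar χ ∧
    ∃ b : chainStabilizer σ, e⁻¹ * (b : E) ∈ G ∧ Pool.Agent.Y63.AWC.cj (Gs G σ) b χ = χ}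

lemma cj_congr {X : Type} [Group X] [Fintype X] {M : Subgroup X} [M.Normal] {χ : M → ℂ}
    (h : IsIrrChar χ) {b c : X} (hbc : b⁻¹ * c ∈ M) :
    Pool.Agent.Y63.AWC.cj M b χ = χ ↔ Pool.Agent.Y63.AWC.cj M c χ = χ := by
  have key : ∀ {b c : X}, b⁻¹ * c ∈ M → Pool.Agent.Y63.AWC.cj M b χ = χ →
      Pool.Agent.Y63.AWC.cj M c χ = χ := by
    intro b c hbc hb
    have h1 : c = b * (b⁻¹ * c) := by group
    rw [h1, Pool.Agent.Y63.AWC.cj_mul, hb]
    exact Pool.Agent.Y63.AWC.le_St M h.isClass hbc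
  refine ⟨key hbc, key ?_⟩
  have := M.inv_mem hbc
  rwa [mul_inv_rev, inv_inv] at this

lemma natCard_eq {α : Type} (P : α → Prop) (s : Finset α) (h : ∀ x, P x ↔ x ∈ s) :
    Nat.card {x // P x} = s.card := by
  rw [Nat.card_congr (Equiv.subtypeEquivRight h), Nat.card_eq_fintype_card, Fintype.card_coe]

lemma count_kE (e : E) (σ : Set (Subgroup E)) :
    Nat.card (Gs G σ) * kE G e σ = Nat.card {q : E × E // (q.1 ∈ G ∧ e⁻¹ * q.2 ∈ G) ∧
      (q.1 ∈ chainStabilizer σ ∧ q.2 ∈ chainStabilizer σ) ∧ q.1 * q.2 = q.2 * q.1} := by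
  set T := chainStabilizer σ with hT
  by_cases hb : ∃ b : T, e⁻¹ * (b : E) ∈ G
  · obtain ⟨b, hb⟩ := hb
    have h1 : kE G e σ = ((Irr (Gs G σ)).filter
        fun theta => Pool.Agent.Y63.AWC.cj (Gs G σ) b theta = theta).card := by
      unfold kE
      apply natCard_eq
      intro χ
      rw [Finset.mem_filter, mem_Irr]
      constructor
      · rintro ⟨h1, c, hc, h2⟩
        refine ⟨h1, (cj_congr h1 ?_).mp h2⟩
        change (c : E)⁻¹ * b ∈ G
        have e1 : (c : E)⁻¹ * b = (e⁻¹ * c)⁻¹ * (e⁻¹ * b) := by group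
        rw [e1]
        exact G.mul_mem (G.inv_mem hc) hb
      · rintro ⟨h1, h2⟩
        exact ⟨h1, b, hb, h2⟩
    rw [h1, Pool.Agent.Y63.AWC.fix_count]
    refine Nat.card_congr
      { toFun := fun q => ⟨((q.1.1 : T), (q.1.2 : T) * b), ?_⟩
        invFun := fun q => ⟨(⟨⟨q.1.1, q.2.2.1.1⟩, q.2.1.1⟩, ⟨⟨q.1.2 * (b : E)⁻¹, ?_⟩, ?_⟩), ?_⟩
        left_inv := ?_
        right_inv := ?_ }
    · refine ⟨⟨q.1.1.2, ?_⟩, ⟨q.1.1.1.2, T.mul_mem q.1.2.1.2 b.2⟩, ?_⟩
      · change e⁻¹ * (((q.1.2 : T) : E) * b) ∈ G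
        have h2 := hG.conj_mem _ q.1.2.2 e⁻¹
        have e1 : e⁻¹ * (((q.1.2 : T) : E) * b) = (e⁻¹ * ((q.1.2 : T) : E) * e⁻¹⁻¹) * (e⁻¹ * b) := by
          group
        rw [e1]
        exact G.mul_mem h2 hb
      · have h2 := congrArg (fun z : Gs G σ => ((z : T) : E)) q.2
        simp only [Subgroup.coe_mul, MulAut.conjNormal_apply, InvMemClass.coe_inv] at h2
        change ((q.1.1 : T) : E) * (((q.1.2 : T) : E) * b) = ((q.1.2 : T) : E) * b * ((q.1.1 : T) : E)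
        calc ((q.1.1 : T) : E) * (((q.1.2 : T) : E) * b)
            = (((q.1.2 : T) : E) * ((b : E) * ((q.1.1 : T) : E) * (b : E)⁻¹) *
              (((q.1.2 : T) : E))⁻¹) * (((q.1.2 : T) : E) * b) := by rw [h2]
          _ = _ := by group
    · exact T.mul_mem q.2.2.1.2 (T.inv_mem b.2)
    · change q.1.2 * (b : E)⁻¹ ∈ G
      have h2 : (e⁻¹ * q.1.2) * (e⁻¹ * b)⁻¹ ∈ G := G.mul_mem q.2.1.2 (G.inv_mem hb)
      have h3 := hG.conj_mem _ h2 e
      have e1 : e * ((e⁻¹ * q.1.2) * (e⁻¹ * b)⁻¹) * e⁻¹ = q.1.2 * (b : E)⁻¹ := by group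
      rwa [e1] at h3
    · apply Subtype.ext
      apply Subtype.ext
      simp only [Subgroup.coe_mul, MulAut.conjNormal_apply, InvMemClass.coe_inv]
      have h2 := q.2.2.2
      calc q.1.2 * (b : E)⁻¹ * ((b : E) * q.1.1 * (b : E)⁻¹) * (q.1.2 * (b : E)⁻¹)⁻¹
          = (q.1.2 * q.1.1) * q.1.2⁻¹ := by group
        _ = q.1.1 := by rw [← h2]; group
    · intro q
      apply Subtype.ext
      refine Prod.ext rfl ?_
      apply Subtype.ext
      apply Subtype.ext
      change ((q.1.2 : T) : E) * b * (b : E)⁻¹ = ((q.1.2 : T) : E)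
      group
    · intro q
      apply Subtype.ext
      refine Prod.ext rfl ?_
      change q.1.2 * (b : E)⁻¹ * b = q.1.2
      group
  · have h1 : kE G e σ = 0 := by
      unfold kE
      rw [Nat.card_eq_zero]
      left
      constructor
      rintro ⟨χ, h1, c, hc, h2⟩
      exact hb ⟨c, hc⟩
    rw [h1, mul_zero]
    symm
    rw [Nat.card_eq_zero]
    left
    constructor
    rintro ⟨q, h2, h3, h4⟩
    exact hb ⟨⟨q.2, h3.2⟩, h2.2⟩

lemma card_Gs_conj {g : E} (hg : g ∈ G) (σ : Set (Subgroup E)) :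
    Nat.card (Gs G (conjSub g '' σ)) = Nat.card (Gs G σ) := by
  rw [card_Gs, card_Gs, chainStabilizer_conj]
  refine Nat.card_congr (Equiv.subtypeEquiv (MulAut.conj g⁻¹).toEquiv fun x => ?_)
  change _ ↔ g⁻¹ * x * g⁻¹⁻¹ ∈ G ∧ g⁻¹ * x * g⁻¹⁻¹ ∈ chainStabilizer σ
  rw [mem_conjSub, inv_inv]
  have : g⁻¹ * x * g ∈ G ↔ x ∈ G := by
    constructor
    · intro h
      have h2 := hG.conj_mem _ h g
      have e : g * (g⁻¹ * x * g) * g⁻¹ = x := by group
      rwa [e] at h2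
    · intro h
      have h2 := hG.conj_mem _ h g⁻¹
      rwa [inv_inv] at h2
  rw [this]

lemma coset_conj {g e x : E} (hg : g ∈ G) : e⁻¹ * x ∈ G ↔ e⁻¹ * (g⁻¹ * x * g) ∈ G := by
  have h1 : e⁻¹ * (g⁻¹ * x * g) = (e⁻¹ * g⁻¹ * e⁻¹⁻¹) * (e⁻¹ * x) * g := by group
  rw [h1, Subgroup.mul_mem_cancel_right G hg,
    Subgroup.mul_mem_cancel_left G (hG.conj_mem _ (G.inv_mem hg) e⁻¹)]

lemma pairs_conj {g e : E} (hg : g ∈ G) (σ : Set (Subgroup E)) (R : E → E → Prop)
    (hR : ∀ x y, R x y ↔ R (g⁻¹ * x * g) (g⁻¹ * y * g)) :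
    Nat.card {q : E × E // (q.1 ∈ G ∧ e⁻¹ * q.2 ∈ G) ∧
      (q.1 ∈ chainStabilizer (conjSub g '' σ) ∧ q.2 ∈ chainStabilizer (conjSub g '' σ)) ∧
        R q.1 q.2} =
    Nat.card {q : E × E // (q.1 ∈ G ∧ e⁻¹ * q.2 ∈ G) ∧
      (q.1 ∈ chainStabilizer σ ∧ q.2 ∈ chainStabilizer σ) ∧ R q.1 q.2} := by
  rw [chainStabilizer_conj]
  refine Nat.card_congr (Equiv.subtypeEquiv (Equiv.prodCongr (MulAut.conj g⁻¹).toEquiv
    (MulAut.conj g⁻¹).toEquiv) fun q => ?_)
  change _ ↔ (g⁻¹ * q.1 * g⁻¹⁻¹ ∈ G ∧ e⁻¹ * (g⁻¹ * q.2 * g⁻¹⁻¹) ∈ G) ∧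
    (g⁻¹ * q.1 * g⁻¹⁻¹ ∈ chainStabilizer σ ∧ g⁻¹ * q.2 * g⁻¹⁻¹ ∈ chainStabilizer σ) ∧
    R (g⁻¹ * q.1 * g⁻¹⁻¹) (g⁻¹ * q.2 * g⁻¹⁻¹)
  rw [mem_conjSub, mem_conjSub, inv_inv, ← hR, ← coset_conj hg]
  have : g⁻¹ * q.1 * g ∈ G ↔ q.1 ∈ G := by
    have h1 := coset_conj (G := G) (e := 1) (x := q.1) hg
    rw [inv_one, one_mul, one_mul] at h1
    exact h1.symm
  rw [this]

lemma kE_conj {g : E} (hg : g ∈ G) (e : E) (σ : Set (Subgroup E)) :
    kE G e (conjSub g '' σ) = kE G e σ := by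
  have h1 := count_kE (G := G) e (conjSub g '' σ)
  have h2 := count_kE (G := G) e σ
  rw [pairs_conj hg σ (fun x y => x * y = y * x) (fun x y => by
    constructor
    · intro h
      calc g⁻¹ * x * g * (g⁻¹ * y * g) = g⁻¹ * (x * y) * g := by group
        _ = g⁻¹ * (y * x) * g := by rw [h]
        _ = _ := by group
    · intro h
      have h3 : g * (g⁻¹ * x * g * (g⁻¹ * y * g)) * g⁻¹ = g * (g⁻¹ * y * g * (g⁻¹ * x * g)) * g⁻¹ := by
        rw [h]
      calc x * y = g * (g⁻¹ * x * g * (g⁻¹ * y * g)) * g⁻¹ := by group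
        _ = g * (g⁻¹ * y * g * (g⁻¹ * x * g)) * g⁻¹ := h3
        _ = _ := by group), card_Gs_conj hg, ← h2] at h1
  exact Nat.eq_of_mul_eq_mul_left Nat.card_pos h1

/-- **The alternating sum of the numbers of `e`-invariant characters.** -/
theorem altSum_kE (e : E) :
    (Nat.card G : ℤ) * altSum p G (fun σ => (kE G e σ : ℤ)) = A p G 1 e := by
  rw [main_count' (T := {q : E × E // q ∈ CP E (fun x y => (1 : E)⁻¹ * x ∈ G ∧ e⁻¹ * y ∈ G)})
    (fun σ => (kE G e σ : ℤ)) (fun g hg σ _ => by rw [kE_conj hg])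
    (fun q => {q.1.1, q.1.2})]
  · rw [A_def]
    unfold PSum
    exact Finset.sum_coe_sort (CP E (fun x y => (1 : E)⁻¹ * x ∈ G ∧ e⁻¹ * y ∈ G))
      (fun q => w p G {q.1, q.2})
  · intro σ hσ
    have h1 := count_kE (G := G) e σ
    have h2 : ((Nat.card (Gs G σ) * kE G e σ : ℕ) : ℤ) = ((Nat.card {q : E × E //
      (q.1 ∈ G ∧ e⁻¹ * q.2 ∈ G) ∧ (q.1 ∈ chainStabilizer σ ∧ q.2 ∈ chainStabilizer σ) ∧
        q.1 * q.2 = q.2 * q.1} : ℕ) : ℤ) := by rw [h1]
    push_cast at h2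
    rw [h2]
    norm_cast
    refine Nat.card_congr
      { toFun := fun q => ⟨⟨q.1, ?_⟩, ?_⟩
        invFun := fun q => ⟨q.1.1, ?_⟩
        left_inv := fun q => rfl
        right_inv := fun q => rfl }
    · rw [mem_CP]
      refine ⟨q.2.2.2, ?_, q.2.1.2⟩
      rw [inv_one, one_mul]
      exact q.2.1.1
    · rintro z (rfl | hz)
      · exact q.2.2.1.1
      · rw [Set.mem_singleton_iff.mp hz]
        exact q.2.2.1.2
    · have h3 := mem_CP.mp q.1.2
      have h4 : q.1.1.1 ∈ G := by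
        have h5 := h3.2.1
        simpa only [inv_one, one_mul] using h5
      exact ⟨⟨h4, h3.2.2⟩, ⟨q.2 (by simp), q.2 (by simp)⟩, h3.1⟩

end Pool.Agent.X209.DI
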