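import Pool.Agent.X209.DI.Mixed2

/-!
# Cyclic sections
-/

open scoped Classical BigOperators
open Pool.Agent.Y63.KR Pool.Agent.Helper884.IC Pool.Agent.Y63.AWC

set_option linter.unusedSectionVars false
set_option linter.unusedVariables false

noncomputable section

namespace Pool.Agent.X209.DI

variable {p : ℕ} {E : Type} [Group E] [Fintype E] {G : Subgroup E} [hG : G.Normal] {a b : ℕ}

lemma not_dvd_relIndex [hp : Fact p.Prime] {W U : Subgroup E} [W.Normal]
    (hno : ∀ s ∈ U, s ^ p ∈ W → s ∈ W) : ¬ p ∣ W.relIndex U := by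
  intro h
  have h' : p ∣ Nat.card (U ⧸ W.subgroupOf U) := h
  obtain ⟨c, hc⟩ := exists_prime_orderOf_dvd_card' p h'
  obtain ⟨s, rfl⟩ := QuotientGroup.mk_surjective c
  have h4 : s ^ p ∈ W.subgroupOf U := by
    rw [← QuotientGroup.eq_one_iff, QuotientGroup.mk_pow, ← hc, pow_orderOf_eq_one]
  have h5 : (s : E) ∈ W := hno s s.2 h4
  have h6 : (s : U ⧸ W.subgroupOf U) = 1 := (QuotientGroup.eq_one_iff s).mpr h5
  rw [h6, orderOf_one] at hc
  exact hp.out.one_lt.ne hc

/-- the `p`-elements `q` of `U` with `⟨q⟩ ∩ G = 1` whose images generate the Sylow `p`-subgroup of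
`U / G` (if `U / G` is cyclic) -/
structure Comp (p : ℕ) (G U : Subgroup E) (q : E) : Prop where
  mem : q ∈ U
  ppow : ∃ j, q ^ p ^ j = 1
  inf : Subgroup.zpowers q ⊓ G = ⊥
  idx : ¬ p ∣ (Subgroup.zpowers q ⊔ G).relIndex U

/-- cyclic sections of a group with cyclic quotient `E / G` -/
theorem dl_cyc [hp : Fact p.Prime] [IsCyclic (E ⧸ G)] {U : Subgroup E} (hGU : G ≤ U)
    (hK : ∀ H : Subgroup E, G ≤ H → H ≤ U → ¬ p ∣ G.relIndex H → ∀ q : E, Comp p G U q →
      KRC p ↥(H ⊓ Cq q)) : dl p G U = 0 := by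
  obtain ⟨a, b, hPE⟩ := exists_PE hp.out (Nat.card_pos (α := E)).ne'
  have hC : Cyc p G := Cyc.of_cyclic
  obtain ⟨e, he⟩ := gen_H hGU
  have heU : e ∈ U := by
    rw [he]
    exact Subgroup.mem_sup_left (Subgroup.mem_zpowers e)
  set y := e ^ a with hy
  have hya : y ^ a = y := hPE.self E y (card_pow y) (hPE.ppow E e (card_pow e))
  have hyU : y ∈ U := U.pow_mem heU a
  -- the `p`-regular part
  let N0 : Subgroup E :=
    { carrier := {x | x ∈ U ∧ x ^ a ∈ G}
      one_mem' := ⟨U.one_mem, by rw [one_pow]; exact G.one_mem⟩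
      mul_mem' := fun {x z} hx hz => ⟨U.mul_mem hx.1 hz.1, pow_mem_mul hC.comm hx.2 hz.2⟩
      inv_mem' := fun {x} hx => ⟨U.inv_mem hx.1, by rw [inv_pow]; exact G.inv_mem hx.2⟩ }
  have hGN0 : G ≤ N0 := fun x hx => ⟨hGU hx, G.pow_mem hx a⟩
  have hebN0 : e ^ b ∈ N0 := by
    refine ⟨U.pow_mem heU b, ?_⟩
    rw [hPE.one E _ (card_pow _) (hPE.pprime E e (card_pow e))]
    exact G.one_mem
  have hU : U = Subgroup.zpowers y ⊔ N0 := by
    apply le_antisymm
    · conv_lhs => rw [he]
      refine sup_le ?_ (hGN0.trans le_sup_right)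
      rw [Subgroup.zpowers_le, ← hPE.split E e (card_pow e)]
      exact Subgroup.mul_mem _ (Subgroup.mem_sup_left (Subgroup.mem_zpowers _))
        (Subgroup.mem_sup_right hebN0)
    · refine sup_le ?_ (fun x hx => hx.1)
      rw [Subgroup.zpowers_le]
      exact hyU
  rw [hU]
  refine dl_zero_of' hPE ?_ ?_ hGN0 (fun n hn => hn.2)
  · rw [hya, inv_mul_cancel]
    exact G.one_mem
  · intro N hNn hNN0 hGN hreg
    have hyp : ∃ k, y ^ p ^ k ∈ N := by
      obtain ⟨k, hk⟩ := hPE.ppow E e (card_pow e)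
      exact ⟨k, by rw [hk]; exact N.one_mem⟩
    obtain ⟨k, hk⟩ := hyp
    have h1 := dl_cent_p (p := p) (G := N) hk
    have hNU : N ≤ U := fun x hx => (hNN0 hx).1
    have hcfg : Cfg p a G N y := ⟨hC.comm, hGN, hreg, by
      rw [hya, inv_mul_cancel]
      exact G.one_mem⟩
    have h2 : ∑ q ∈ Qe p N y, (Nat.card ↥(N ⊓ Cq q) : ℤ) * kd p ↥(N ⊓ Cq q) = 0 := by
      apply Finset.sum_eq_zero
      intro q hq
      rw [mem_Qe] at hq
      obtain ⟨hq1, hq2, hq3⟩ := hq
      have hqa : q ^ a = q := hPE.self E q (card_pow q) hq1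
      have hyq : y⁻¹ * q ∈ G := by
        have := hcfg.ppart hq3
        rwa [hqa] at this
      have hqU : q ∈ U := by
        have e1 : q = y * (y⁻¹ * q) := by group
        rw [e1]
        exact U.mul_mem hyU (hGU hyq)
      have hcomp : Comp p G U q := by
        refine ⟨hqU, hq1, ?_, ?_⟩
        · rw [eq_bot_iff]
          rintro x ⟨hx, hxG⟩
          have hfo : IsOfFinOrder q := isOfFinOrder_of_finite _
          obtain ⟨i, hi⟩ := (hfo.mem_powers_iff_mem_zpowers).mpr hx
          simp only [] at hi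
          rw [Subgroup.mem_bot, ← hi]
          apply hq2
          rw [hi]
          exact hGN hxG
        · have hW : (Subgroup.zpowers q ⊔ G).Normal := by
            refine ⟨fun x hx z => ?_⟩
            have h3 := conj_ge hC.comm (H := Subgroup.zpowers q ⊔ G) le_sup_right z
            have h4 := conj_mem_conjSub (g := z) hx
            rwa [h3] at h4
          apply not_dvd_relIndex
          intro s hs hsp
          -- modulo `W` the element `s` is a power of `e ^ b`
          have hyW : y ∈ Subgroup.zpowers q ⊔ G := by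
            have e1 : y = q * (y⁻¹ * q)⁻¹ := by group
            rw [e1]
            exact Subgroup.mul_mem _ (Subgroup.mem_sup_left (Subgroup.mem_zpowers q))
              (Subgroup.mem_sup_right (G.inv_mem hyq))
          rw [he, mem_sup_iff] at hs
          obtain ⟨t, ⟨i, rfl⟩, hts⟩ := hs
          simp only [] at hts
          have h5 : ((s : E) : E ⧸ (Subgroup.zpowers q ⊔ G)) =
              (((e ^ b : E) : E ⧸ (Subgroup.zpowers q ⊔ G))) ^ i := by
            have h6 : ((e ^ i : E) : E ⧸ (Subgroup.zpowers q ⊔ G)) = (s : E) :=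
              QuotientGroup.eq.mpr (Subgroup.mem_sup_right hts)
            have h7 : ((e : E) : E ⧸ (Subgroup.zpowers q ⊔ G)) = ((e ^ b : E)) := by
              have h8 : ((e : E) : E ⧸ (Subgroup.zpowers q ⊔ G)) =
                  ((y : E) : E ⧸ (Subgroup.zpowers q ⊔ G)) * ((e ^ b : E)) := by
                rw [← QuotientGroup.mk_mul, hPE.split E e (card_pow e)]
              rw [h8, (QuotientGroup.eq_one_iff y).mpr hyW, one_mul]
            rw [← h6, QuotientGroup.mk_zpow, h7]
          have h6 : ((s : E) : E ⧸ (Subgroup.zpowers q ⊔ G)) ^ a =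
              ((s : E) : E ⧸ (Subgroup.zpowers q ⊔ G)) := by
            apply hPE.self _ _ (quot_pow _ _)
            refine ⟨1, ?_⟩
            rw [pow_one, ← QuotientGroup.mk_pow]
            exact (QuotientGroup.eq_one_iff _).mpr hsp
          have h7 : ((s : E) : E ⧸ (Subgroup.zpowers q ⊔ G)) ^ a = 1 := by
            rw [h5, ← zpow_natCast, ← zpow_mul, mul_comm, zpow_mul, zpow_natCast,
              ← QuotientGroup.mk_pow, hPE.one E _ (card_pow _) (hPE.pprime E e (card_pow e)),
              QuotientGroup.mk_one, one_zpow]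
          rw [← QuotientGroup.eq_one_iff, ← h6, h7]
      have hrel : ¬ p ∣ G.relIndex N := by
        apply not_dvd_relIndex
        intro s hs hsp
        exact hcfg.no_p hPE hs hsp
      rw [(KRC_iff_kd _).mp (hK N hGN hNU hrel q hcomp), mul_zero]
    rw [h2] at h1
    rcases mul_eq_zero.mp h1 with h3 | h3
    · exact absurd h3 (by exact_mod_cast Nat.card_pos.ne')
    · exact h3

/-- cyclic sections of an arbitrary group -/
theorem dl_cyc' [hp : Fact p.Prime] {U : Subgroup E} (hGU : G ≤ U)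
    (hcyc : IsCyclic (U ⧸ G.subgroupOf U))
    (hK : ∀ H : Subgroup U, G.subgroupOf U ≤ H → ¬ p ∣ (G.subgroupOf U).relIndex H → ∀ q : U,
      Comp p (G.subgroupOf U) ⊤ q → KRC p ↥(H ⊓ Cq q)) : dl p G U = 0 := by
  have hgen : Gen G U := by
    obtain ⟨g, hg⟩ := gen_of_cyclic (E := U) (G := G.subgroupOf U)
    refine ⟨(g : E), le_antisymm ?_ (sup_le (by rw [Subgroup.zpowers_le]; exact g.2) hGU)⟩
    intro x hx
    obtain ⟨i, hi⟩ := hg ⟨x, hx⟩
    rw [mem_sup_iff]
    refine ⟨(g : E) ^ i, Subgroup.pow_mem _ (Subgroup.mem_zpowers _) i, ?_⟩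
    have h1 : x⁻¹ * (g : E) ^ i ∈ G := hi
    have := G.inv_mem h1
    rwa [mul_inv_rev, inv_inv] at this
  rw [← dl_ambient hGU hgen]
  exact dl_cyc (G := G.subgroupOf U) le_top fun H h1 _ h2 q hq => hK H h1 h2 q hq

end Pool.Agent.X209.DI
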