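import Pool.Agent.X209.DI.Cent
import Pool.Agent.Y63.NV.Pe

/-!
# The centraliser formula for the characters of defect zero
-/

open scoped Classical BigOperators
open Pool.Agent.Y63.KR Pool.Agent.Helper884.IC Pool.Agent.Y63.AWC

set_option linter.unusedSectionVars false
set_option linter.unusedVariables false

noncomputable section

namespace Pool.Agent.X209.DI

variable {p : ℕ} {E : Type} [Group E] [Fintype E] {G : Subgroup E} [hG : G.Normal]

lemma numInvDz_eq : Pool.Agent.Y63.NV.numInvDz p G = zGe p G ⊤ := by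
  unfold Pool.Agent.Y63.NV.numInvDz zGe
  refine Nat.card_congr (Equiv.subtypeEquivRight fun χ => ?_)
  refine and_congr Iff.rfl (and_congr Iff.rfl ?_)
  constructor
  · intro h u _
    rw [mem_St]
    funext m
    unfold cj
    exact h u m _ (MulAut.conjNormal_apply u m)
  · intro h y a b hab
    have h1 := congrFun ((mem_St (M := G)).mp (h (Subgroup.mem_top y))) a
    rw [← h1]
    unfold cj
    congr 1
    apply Subtype.ext
    rw [MulAut.conjNormal_apply]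
    exact hab

lemma cent_zpowers (q : E) : Subgroup.centralizer ((Subgroup.zpowers q : Subgroup E) : Set E) =
    Cq q := by
  ext x
  rw [mem_Cq, Subgroup.mem_centralizer_iff]
  constructor
  · intro h
    exact (h q (Subgroup.mem_zpowers q)).symm
  · rintro h z ⟨n, rfl⟩
    exact ((show Commute x q from h).zpow_right n).eq.symm

/-- a complement -/
structure Compl (p : ℕ) (G : Subgroup E) (R : Subgroup E) : Prop where
  pg : IsPGroup p R
  sup : G ⊔ R = ⊤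
  inf : G ⊓ R = ⊥

lemma compl_of_mem {e : E} (hg : ∀ x : E, ∃ i : ℕ, x⁻¹ * e ^ i ∈ G) {q : E}
    (hq : q ∈ Qe p G e) : Compl p G (Subgroup.zpowers q) := by
  rw [mem_Qe] at hq
  obtain ⟨⟨j, hj⟩, h1, h2⟩ := hq
  refine ⟨?_, ?_, ?_⟩
  · rintro ⟨x, hx⟩
    obtain ⟨n, rfl⟩ := Subgroup.mem_zpowers_iff.mp hx
    refine ⟨j, ?_⟩
    apply Subtype.ext
    change (q ^ n) ^ p ^ j = 1
    rw [← zpow_natCast, ← zpow_mul, mul_comm, zpow_mul, zpow_natCast, hj, one_zpow]
  · rw [eq_top_iff]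
    intro x _
    rw [sup_comm, mem_sup_iff]
    obtain ⟨i, hi⟩ := hg x
    refine ⟨q ^ i, Subgroup.pow_mem _ (Subgroup.mem_zpowers q) i, ?_⟩
    have h3 := pow_coset' h2 i
    have e1 : (q ^ i)⁻¹ * x = ((x⁻¹ * e ^ i) * ((e ^ i)⁻¹ * q ^ i))⁻¹ := by group
    rw [e1]
    exact G.inv_mem (G.mul_mem hi h3)
  · rw [eq_bot_iff]
    rintro x ⟨hxG, hx⟩
    have hfo : IsOfFinOrder q := isOfFinOrder_of_finite _
    obtain ⟨i, hi⟩ := (hfo.mem_powers_iff_mem_zpowers).mpr hx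
    simp only [] at hi
    rw [Subgroup.mem_bot, ← hi]
    apply h1
    rw [hi]
    exact hxG

lemma mem_of_compl {e : E} (hg : ∀ x : E, ∃ i : ℕ, x⁻¹ * e ^ i ∈ G) {R : Subgroup E}
    (hR : Compl p G R) : ∃ q ∈ Qe p G e, Subgroup.zpowers q = R := by
  have h1 : e ∈ R ⊔ G := by
    rw [sup_comm, hR.sup]
    exact Subgroup.mem_top e
  obtain ⟨s, hs, hsG⟩ := mem_sup_iff.mp h1
  have hes : e⁻¹ * s ∈ G := by
    have := G.inv_mem hsG
    rwa [mul_inv_rev, inv_inv] at this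
  have hbot : ∀ x, x ∈ G → x ∈ R → x = 1 := by
    intro x hx hxR
    have : x ∈ G ⊓ R := ⟨hx, hxR⟩
    rwa [hR.inf, Subgroup.mem_bot] at this
  refine ⟨s, ?_, ?_⟩
  · rw [mem_Qe]
    refine ⟨?_, fun i hi => hbot _ hi (R.pow_mem hs i), hes⟩
    obtain ⟨j, hj⟩ := hR.pg ⟨s, hs⟩
    exact ⟨j, congrArg Subtype.val hj⟩
  · apply le_antisymm
    · rw [Subgroup.zpowers_le]
      exact hs
    · intro r hr
      obtain ⟨i, hi⟩ := hg r
      have h3 := pow_coset' hsG i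
      have h4 : r⁻¹ * s ^ i ∈ G := by
        have e1 : r⁻¹ * s ^ i = (r⁻¹ * e ^ i) * ((s ^ i)⁻¹ * e ^ i)⁻¹ := by group
        rw [e1]
        exact G.mul_mem hi (G.inv_mem h3)
      have h5 := hbot _ h4 (R.mul_mem (R.inv_mem hr) (R.pow_mem hs i))
      rw [inv_mul_eq_one] at h5
      rw [h5]
      exact Subgroup.pow_mem _ (Subgroup.mem_zpowers s) i

lemma Qe_inj {e q q' : E} (hq : q ∈ Qe p G e) (hq' : q' ∈ Qe p G e)
    (h : Subgroup.zpowers q = Subgroup.zpowers q') : q = q' := by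
  rw [mem_Qe] at hq hq'
  have h1 : q⁻¹ * q' ∈ Subgroup.zpowers q :=
    Subgroup.mul_mem _ (Subgroup.inv_mem _ (Subgroup.mem_zpowers q))
      (by rw [h]; exact Subgroup.mem_zpowers q')
  have h2 : q⁻¹ * q' ∈ G := by
    have e1 : q⁻¹ * q' = (e⁻¹ * q)⁻¹ * (e⁻¹ * q') := by group
    rw [e1]
    exact G.mul_mem (G.inv_mem hq.2.2) hq'.2.2
  have hfo : IsOfFinOrder q := isOfFinOrder_of_finite _
  obtain ⟨i, hi⟩ := (hfo.mem_powers_iff_mem_zpowers).mpr h1
  simp only [] at hi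
  have h3 := hq.2.1 i (by rw [hi]; exact h2)
  rw [hi] at h3
  exact inv_mul_eq_one.mp h3

lemma card_compl {R : Subgroup E} (hR : Compl p G R) :
    Nat.card G * Nat.card R = Nat.card E := by
  have h1 : Function.Bijective (fun r : R => ((r : E) : E ⧸ G)) := by
    constructor
    · intro r s h
      have h2 : (r : E)⁻¹ * s ∈ G := QuotientGroup.eq.mp h
      have h3 : (r : E)⁻¹ * s ∈ G ⊓ R := ⟨h2, R.mul_mem (R.inv_mem r.2) s.2⟩
      rw [hR.inf, Subgroup.mem_bot, inv_mul_eq_one] at h3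
      exact Subtype.ext h3
    · intro c
      obtain ⟨x, rfl⟩ := QuotientGroup.mk_surjective c
      have h2 : x ∈ R ⊔ G := by
        rw [sup_comm, hR.sup]
        exact Subgroup.mem_top x
      obtain ⟨s, hs, hsG⟩ := mem_sup_iff.mp h2
      exact ⟨⟨s, hs⟩, QuotientGroup.eq.mpr hsG⟩
  rw [Nat.card_congr (Equiv.ofBijective _ h1), mul_comm,
    ← Subgroup.card_eq_card_quotient_mul_card_subgroup]

lemma card_norm {R : Subgroup E} (hR : Compl p G R) :
    Nat.card (Subgroup.normalizer (R : Set E)) =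
      Nat.card ↥(G ⊓ Subgroup.centralizer (R : Set E)) * Nat.card R := by
  have h1 := Pool.Agent.Y474.NV.kmap_bij G R hR.sup hR.inf
  have h2 := Subgroup.card_eq_card_quotient_mul_card_subgroup
    (R.subgroupOf (Subgroup.normalizer (R : Set E)))
  rw [h2, ← Nat.card_congr (Equiv.ofBijective _ h1),
    Nat.card_congr (Subgroup.subgroupOfEquivOfLe (Subgroup.le_normalizer (H := R))).toEquiv]

/-- the count of Dade, Glauberman and Nagao for a cyclic `p`-quotient -/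
theorem z_cent_top [hp : Fact p.Prime] {e : E} (hg : ∀ x : E, ∃ i : ℕ, x⁻¹ * e ^ i ∈ G) {k : ℕ}
    (he : e ^ p ^ k ∈ G) :
    Nat.card G * zGe p G ⊤ =
      ∑ q ∈ Qe p G e, Nat.card ↥(G ⊓ Cq q) * numDefectZero p ↥(G ⊓ Cq q) := by
  have h0 : IsPGroup p (E ⧸ G) := by
    intro c
    obtain ⟨x, rfl⟩ := QuotientGroup.mk_surjective c
    obtain ⟨i, hi⟩ := hg x
    refine ⟨k, ?_⟩
    rw [QuotientGroup.eq.mpr hi, ← QuotientGroup.mk_pow, QuotientGroup.eq_one_iff, ← pow_mul,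
      mul_comm, pow_mul]
    exact G.pow_mem he i
  have h1 := Pool.Agent.Y63.NV.dgn' p E G h0
  rw [numInvDz_eq] at h1
  have : Fintype (Subgroup E) := Fintype.ofFinite _
  rw [finsum_eq_sum_of_fintype, ← Finset.sum_filter] at h1
  have hE : 0 < Nat.card E := Nat.card_pos
  apply Nat.eq_of_mul_eq_mul_left hE
  calc Nat.card E * (Nat.card G * zGe p G ⊤)
      = Nat.card G * (Nat.card E * zGe p G ⊤) := by ring
    _ = ∑ q ∈ Qe p G e,
        Nat.card E * (Nat.card ↥(G ⊓ Cq q) * numDefectZero p ↥(G ⊓ Cq q)) := ?_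
    _ = _ := by rw [Finset.mul_sum]
  rw [h1, Finset.mul_sum]
  symm
  refine Finset.sum_bij (fun q _ => Subgroup.zpowers q) ?_ ?_ ?_ ?_
  · intro q hq
    have h2 := compl_of_mem hg hq
    rw [Finset.mem_filter]
    exact ⟨Finset.mem_univ _, h2.pg, h2.sup, h2.inf⟩
  · intro q hq q' hq' h
    exact Qe_inj hq hq' h
  · intro R hR
    rw [Finset.mem_filter] at hR
    obtain ⟨q, hq, h2⟩ := mem_of_compl (p := p) hg ⟨hR.2.1, hR.2.2.1, hR.2.2.2⟩
    exact ⟨q, hq, h2⟩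
  · intro q hq
    have h2 := compl_of_mem hg hq
    rw [Pool.Agent.Y474.NV.locz_eq p G (Subgroup.zpowers q) h2.sup h2.inf,
      Pool.Agent.Y474.NV.numInvDz_top, card_norm h2, cent_zpowers, ← card_compl h2]
    ring

/-- the centraliser of `q` in `G`, in a subgroup -/
def centEquiv {V : Subgroup E} (hGV : G ≤ V) (q : V) :
    ↥(G.subgroupOf V ⊓ Cq q) ≃* ↥(G ⊓ Cq (q : E)) where
  toFun x := ⟨x.1.1, x.2.1, mem_Cq.mpr (congrArg Subtype.val (mem_Cq.mp x.2.2))⟩
  invFun x := ⟨⟨x.1, hGV x.2.1⟩, x.2.1, mem_Cq.mpr (Subtype.ext (mem_Cq.mp x.2.2))⟩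
  left_inv x := rfl
  right_inv x := rfl
  map_mul' x y := rfl

/-- the same for a cyclic `p`-section -/
theorem z_cent_p [hp : Fact p.Prime] {e : E} {k : ℕ} (he : e ^ p ^ k ∈ G) :
    Nat.card G * zGe p G (Subgroup.zpowers e ⊔ G) =
      ∑ q ∈ Qe p G e, Nat.card ↥(G ⊓ Cq q) * numDefectZero p ↥(G ⊓ Cq q) := by
  set V := Subgroup.zpowers e ⊔ G with hV
  have hGV : G ≤ V := le_sup_right
  have heV : e ∈ V := Subgroup.mem_sup_left (Subgroup.mem_zpowers e)
  have hg : ∀ x : V, ∃ i : ℕ, x⁻¹ * (⟨e, heV⟩ : V) ^ i ∈ G.subgroupOf V := by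
    intro x
    have hx : (x : E) ∈ Subgroup.zpowers e ⊔ G := x.2
    rw [mem_sup_iff] at hx
    obtain ⟨s, hs, hsG⟩ := hx
    have hfo : IsOfFinOrder e := isOfFinOrder_of_finite _
    obtain ⟨i, hi⟩ := (hfo.mem_powers_iff_mem_zpowers).mpr hs
    simp only [] at hi
    refine ⟨i, ?_⟩
    change (x : E)⁻¹ * e ^ i ∈ G
    rw [hi]
    have := G.inv_mem hsG
    rwa [mul_inv_rev, inv_inv] at this
  have h1 := z_cent_top (p := p) hg (k := k) he
  rw [zGe_ambient hGV, Nat.card_congr (Subgroup.subgroupOfEquivOfLe hGV).toEquiv] at h1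
  rw [h1]
  refine Finset.sum_bij' (fun q _ => (q : E)) (fun q hq => (⟨q, ?_⟩ : V)) ?_ ?_ ?_ ?_ ?_
  · have h2 := (mem_Qe.mp hq).2.2
    have e1 : q = e * (e⁻¹ * q) := by group
    rw [e1]
    exact V.mul_mem heV (hGV h2)
  · intro q hq
    rw [mem_Qe] at hq ⊢
    obtain ⟨⟨j, hj⟩, h2, h3⟩ := hq
    exact ⟨⟨j, congrArg Subtype.val hj⟩, fun i hi => congrArg Subtype.val (h2 i hi), h3⟩
  · intro q hq
    rw [mem_Qe] at hq ⊢
    obtain ⟨⟨j, hj⟩, h2, h3⟩ := hq
    exact ⟨⟨j, Subtype.ext hj⟩, fun i hi => Subtype.ext (h2 i hi), h3⟩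
  · intro q _
    rfl
  · intro q _
    rfl
  · intro q _
    rw [Nat.card_congr (centEquiv hGV q).toEquiv, numDefectZero_congr (centEquiv hGV q)]

/-- the difference of the two sides of the conjecture of Knörr and Robinson -/
def kd (p : ℕ) (H : Type) [Group H] : ℤ := aK p H - (numDefectZero p H : ℤ)

lemma KRC_iff_kd [Fact p.Prime] (H : Type) [Group H] [Finite H] : KRC p H ↔ kd p H = 0 := by
  rw [KRC_iff_aK, kd, sub_eq_zero]

/-- **The centraliser formula.** -/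
theorem dl_cent_p [hp : Fact p.Prime] {e : E} {k : ℕ} (he : e ^ p ^ k ∈ G) :
    (Nat.card G : ℤ) * dl p G (Subgroup.zpowers e ⊔ G) =
      ∑ q ∈ Qe p G e, (Nat.card ↥(G ⊓ Cq q) : ℤ) * kd p ↥(G ⊓ Cq q) := by
  have h1 : (Nat.card G : ℤ) * altSum p G (fun σ => (kGe G (Subgroup.zpowers e ⊔ G) σ : ℤ)) =
      A p G 1 e := by
    rw [← altSum_kE]
    congr 2
    funext σ
    rw [← kGe_zpowers]
  have h2 := congrArg (Nat.cast : ℕ → ℤ) (z_cent_p (p := p) he)
  push_cast at h2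
  unfold dl kd
  rw [mul_sub, h1, h2, A_cent_p he, ← Finset.sum_sub_distrib]
  exact Finset.sum_congr rfl fun q _ => (mul_sub _ _ _).symm

end Pool.Agent.X209.DI
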