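import Pool.Agent.X209.DI.Sub

/-!
# `p`-parts, and subgroups with abelian quotient
-/

open scoped Classical BigOperators
open Pool.Agent.Y63.KR

set_option linter.unusedSectionVars false

noncomputable section

namespace Pool.Agent.X209.DI

/-- exponents giving the `p`-part and the `p'`-part of elements of exponent dividing `N` -/
structure PE (p N a b : ℕ) : Prop where
  split : ∀ (H : Type) [Group H] (h : H), h ^ N = 1 → h ^ a * h ^ b = h
  self : ∀ (H : Type) [Group H] (h : H), h ^ N = 1 → (∃ j, h ^ p ^ j = 1) → h ^ a = h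
  one : ∀ (H : Type) [Group H] (h : H), h ^ N = 1 → (∃ k, ¬ p ∣ k ∧ h ^ k = 1) → h ^ a = 1
  ppow : ∀ (H : Type) [Group H] (h : H), h ^ N = 1 → ∃ j, (h ^ a) ^ p ^ j = 1
  pprime : ∀ (H : Type) [Group H] (h : H), h ^ N = 1 → ∃ k, ¬ p ∣ k ∧ (h ^ b) ^ k = 1

lemma exists_PE {p N : ℕ} (hp : p.Prime) (hN : N ≠ 0) : ∃ a b, PE p N a b := by
  set v := N.factorization p with hv
  set m := N / p ^ v with hm
  have hqm : p ^ v * m = N := Nat.ordProj_mul_ordCompl_eq_self N p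
  have hpm : ¬ p ∣ m := Nat.not_dvd_ordCompl hp hN
  have hcop : Nat.Coprime (p ^ v) m :=
    Nat.Coprime.pow_left _ ((Nat.Prime.coprime_iff_not_dvd hp).mpr hpm)
  obtain ⟨a, ha1, ha2⟩ := Nat.chineseRemainder hcop 1 0
  obtain ⟨f, hf⟩ : m ∣ a := (Nat.modEq_zero_iff_dvd).mp ha2
  have hq : p ^ v ∣ a * (N - 1) + 1 := by
    have h1 : a * (N - 1) + 1 + (a - 1) = a * N ∨ a = 0 := by
      rcases Nat.eq_zero_or_pos a with h | h
      · exact Or.inr h
      · left
        obtain ⟨c, rfl⟩ := Nat.exists_eq_add_of_le h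
        obtain ⟨n, rfl⟩ := Nat.exists_eq_succ_of_ne_zero hN
        simp only [Nat.succ_eq_add_one, Nat.add_sub_cancel, Nat.add_sub_cancel_left]
        ring
    rcases h1 with h1 | h1
    · have h2 : p ^ v ∣ a * N := Dvd.dvd.mul_left (Dvd.intro _ hqm) a
      by_cases ha0 : a = 0
      · subst ha0
        have h3 : p ^ v ∣ 1 := by
          have := (Nat.modEq_iff_dvd' (Nat.zero_le 1)).mp (show 0 ≡ 1 [MOD p ^ v] from ha1)
          simpa using this
        simpa using h3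
      · have h3 : p ^ v ∣ a - 1 :=
          (Nat.modEq_iff_dvd' (Nat.one_le_iff_ne_zero.mpr ha0)).mp ha1.symm
        rw [← h1] at h2
        exact (Nat.dvd_add_left h3).mp h2
    · subst h1
      have h3 : p ^ v ∣ 1 := by
        have := (Nat.modEq_iff_dvd' (Nat.zero_le 1)).mp (show 0 ≡ 1 [MOD p ^ v] from ha1)
        simpa using this
      simpa using h3
  refine ⟨a, a * (N - 1) + 1, ?_, ?_, ?_, ?_, ?_⟩
  · intro H _ h hh
    rw [← pow_add]
    have : a + (a * (N - 1) + 1) = N * a + 1 := by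
      obtain ⟨n, rfl⟩ := Nat.exists_eq_succ_of_ne_zero hN
      simp only [Nat.succ_eq_add_one, Nat.add_sub_cancel]
      ring
    rw [this, pow_succ, pow_mul, hh, one_pow, one_mul]
  · rintro H _ h hh ⟨j, hj⟩
    conv_rhs => rw [← pow_one h]
    rw [pow_eq_pow_iff_modEq]
    apply ha1.of_dvd
    have h1 : orderOf h ∣ p ^ j := orderOf_dvd_of_pow_eq_one hj
    have h2 : orderOf h ∣ p ^ v * m := hqm ▸ orderOf_dvd_of_pow_eq_one hh
    have h3 : Nat.Coprime (orderOf h) m :=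
      Nat.Coprime.coprime_dvd_left h1
        (Nat.Coprime.pow_left _ ((Nat.Prime.coprime_iff_not_dvd hp).mpr hpm))
    exact h3.dvd_of_dvd_mul_right h2
  · rintro H _ h hh ⟨k, hk, hk1⟩
    have h1 : orderOf h ∣ k := orderOf_dvd_of_pow_eq_one hk1
    have h2 : orderOf h ∣ p ^ v * m := hqm ▸ orderOf_dvd_of_pow_eq_one hh
    have h3 : Nat.Coprime (orderOf h) (p ^ v) := by
      apply Nat.Coprime.pow_right
      rw [Nat.coprime_comm, Nat.Prime.coprime_iff_not_dvd hp]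
      exact fun h4 => hk (h4.trans h1)
    have h4 : orderOf h ∣ m := h3.dvd_of_dvd_mul_left h2
    exact orderOf_dvd_iff_pow_eq_one.mp (h4.trans ⟨f, hf⟩)
  · intro H _ h hh
    refine ⟨v, ?_⟩
    rw [← pow_mul, hf]
    have : m * f * p ^ v = N * f := by rw [← hqm]; ring
    rw [this, pow_mul, hh, one_pow]
  · intro H _ h hh
    refine ⟨m, hpm, ?_⟩
    obtain ⟨c, hc⟩ := hq
    rw [← pow_mul, hc]
    have : p ^ v * c * m = N * c := by rw [← hqm]; ring
    rw [this, pow_mul, hh, one_pow]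

section

variable {p : ℕ} {E : Type} [Group E] [Finite E] {a b : ℕ}

lemma card_pow (g : E) : g ^ Nat.card E = 1 := pow_card_eq_one'

lemma quot_pow (G : Subgroup E) [G.Normal] (c : E ⧸ G) : c ^ Nat.card E = 1 := by
  obtain ⟨g, rfl⟩ := QuotientGroup.mk_surjective c
  rw [← QuotientGroup.mk_pow, card_pow]
  rfl

/-- a central `p`-element of `⟨K⟩` in `G` -/
lemma w_zero_of_elem [Fact p.Prime] {G : Subgroup E} {K : Set E} {u : E}
    (hu : u ∈ Subgroup.closure K) (hG : u ∈ G) (hc : ∀ x ∈ K, x * u = u * x)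
    (hj : ∃ j, u ^ p ^ j = 1) (h1 : u ≠ 1) : w p G K = 0 := by
  refine w_eq_zero (U := Subgroup.zpowers u) ?_ ?_
  · rw [mem_Sp]
    refine ⟨?_, ?_, ?_, ?_⟩
    · obtain ⟨j, hj⟩ := hj
      rintro ⟨x, hx⟩
      obtain ⟨i, rfl⟩ := Subgroup.mem_zpowers_iff.mp hx
      refine ⟨j, ?_⟩
      apply Subtype.ext
      change (u ^ i) ^ p ^ j = 1
      rw [← zpow_natCast, ← zpow_mul, mul_comm, zpow_mul, zpow_natCast, hj, one_zpow]
    · intro h
      exact h1 (Subgroup.zpowers_eq_bot.mp h)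
    · rw [Subgroup.zpowers_le]
      exact hG
    · intro x hx
      rw [conjSub_eq_iff]
      have h2 : x ∈ Subgroup.centralizer (Subgroup.zpowers u : Set E) := by
        rw [Subgroup.mem_centralizer_iff]
        intro y hy
        obtain ⟨i, rfl⟩ := Subgroup.mem_zpowers_iff.mp hy
        exact ((show Commute x u from hc x hx).zpow_right i).symm
      exact Subgroup.centralizer_le_normalizer (s := (Subgroup.zpowers u : Set E)) h2
  · rw [Subgroup.zpowers_le]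
    exact hu

variable {G : Subgroup E} [G.Normal]

lemma pow_mem_mul (hc : ∀ x y : E, x * y * x⁻¹ * y⁻¹ ∈ G) {x y : E} {n : ℕ} (hx : x ^ n ∈ G)
    (hy : y ^ n ∈ G) : (x * y) ^ n ∈ G := by
  rw [← QuotientGroup.eq_one_iff] at hx hy ⊢
  have h : Commute (x : E ⧸ G) (y : E ⧸ G) := by
    have h1 := (QuotientGroup.eq_one_iff _).mpr (hc x y)
    change (x : E ⧸ G) * y * (x : E ⧸ G)⁻¹ * (y : E ⧸ G)⁻¹ = 1 at h1
    exact mul_inv_eq_iff_eq_mul.mp (mul_inv_eq_one.mp h1)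
  rw [QuotientGroup.mk_pow] at hx hy ⊢
  rw [QuotientGroup.mk_mul, h.mul_pow, hx, hy, one_mul]

/-- a subgroup containing `G` is normal if `E / G` is abelian -/
lemma conj_ge (hc : ∀ x y : E, x * y * x⁻¹ * y⁻¹ ∈ G) {H : Subgroup E} (h : G ≤ H) (x : E) :
    conjSub x H = H := by
  rw [conjSub_eq_iff, Subgroup.mem_normalizer_iff]
  intro y
  constructor
  · intro hy
    have e : x * y * x⁻¹ = (x * y * x⁻¹ * y⁻¹) * y := by group
    change x * y * x⁻¹ ∈ H
    rw [e]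
    exact H.mul_mem (h (hc x y)) hy
  · intro hy
    change x * y * x⁻¹ ∈ H at hy
    have e : y = (x * y * x⁻¹ * y⁻¹)⁻¹ * (x * y * x⁻¹) := by group
    rw [e]
    exact H.mul_mem (H.inv_mem (h (hc x y))) hy

/-- the elements of `H` whose `p`-part has order at most `p` modulo `G` -/
def H1 (p a : ℕ) (G : Subgroup E) [G.Normal] (H : Subgroup E)
    (hc : ∀ x y : E, x * y * x⁻¹ * y⁻¹ ∈ G) : Subgroup E where
  carrier := {h | h ∈ H ∧ h ^ (a * p) ∈ G}
  one_mem' := ⟨H.one_mem, by rw [one_pow]; exact G.one_mem⟩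
  mul_mem' := fun ha hb => ⟨H.mul_mem ha.1 hb.1, pow_mem_mul hc ha.2 hb.2⟩
  inv_mem' := fun ha => ⟨H.inv_mem ha.1, by rw [inv_pow]; exact G.inv_mem ha.2⟩

lemma mem_H1 {H : Subgroup E} {hc : ∀ x y : E, x * y * x⁻¹ * y⁻¹ ∈ G} {h : E} :
    h ∈ H1 p a G H hc ↔ h ∈ H ∧ h ^ (a * p) ∈ G := Iff.rfl

/-- an element of order `p` in a nontrivial `p`-group -/
lemma exists_order_p (hp : p.Prime) {P : Subgroup E} (hP : IsPGroup p P) (h1 : P ≠ ⊥) :
    ∃ g ∈ P, g ≠ 1 ∧ g ^ p = 1 := by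
  obtain ⟨x, hx⟩ := (Subgroup.ne_bot_iff_exists_ne_one.mp h1)
  obtain ⟨j, hj⟩ := hP ⟨x.1, x.2⟩
  have hj' : (x.1) ^ p ^ j = 1 := congrArg Subtype.val hj
  have hex : ∃ j, (x.1) ^ p ^ j = 1 := ⟨j, hj'⟩
  have h2 := Nat.find_spec hex
  have h3 : Nat.find hex ≠ 0 := by
    intro h
    rw [h, pow_zero, pow_one] at h2
    apply hx
    exact Subtype.ext h2
  obtain ⟨i, hi⟩ := Nat.exists_eq_succ_of_ne_zero h3
  refine ⟨x.1 ^ p ^ i, P.pow_mem x.2 _, ?_, ?_⟩
  · intro h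
    have := Nat.find_min hex (m := i) (by omega)
    exact this h
  · rw [← pow_mul, ← pow_succ]
    rw [hi] at h2
    exact h2

/-- first reduction -/
lemma w_H1 [hp : Fact p.Prime] {H : Subgroup E} (hGH : G ≤ H)
    (hc : ∀ x y : E, x * y * x⁻¹ * y⁻¹ ∈ G) (K : Set E) :
    w p H K = w p (H1 p a G H hc) K := by
  have hle : H1 p a G H hc ≤ H := fun x hx => hx.1
  have hGH1 : G ≤ H1 p a G H hc := fun x hx => ⟨hGH hx, G.pow_mem hx _⟩
  have hsub : Sp p (H1 p a G H hc) K ⊆ Sp p H K := by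
    intro P hP
    rw [mem_Sp] at hP ⊢
    exact ⟨hP.1, hP.2.1, hP.2.2.1.trans hle, hP.2.2.2⟩
  refine chi_eq_of_below hsub fun P hP hP2 => ?_
  rw [mem_Sp] at hP
  have hn : ¬ P ≤ H1 p a G H hc := fun h => hP2 (mem_Sp.mpr ⟨hP.1, hP.2.1, h, hP.2.2.2⟩)
  refine ⟨P ⊓ H1 p a G H hc, ?_, ?_, ?_⟩
  · rw [mem_Sp]
    refine ⟨hP.1.to_le inf_le_left, ?_, inf_le_right, ?_⟩
    · obtain ⟨g, hg, hg1, hgp⟩ := exists_order_p hp.out hP.1 hP.2.1
      intro h
      apply hg1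
      have : g ∈ P ⊓ H1 p a G H hc := by
        refine ⟨hg, hP.2.2.1 hg, ?_⟩
        rw [mul_comm, pow_mul, hgp, one_pow]
        exact G.one_mem
      rw [h] at this
      exact this
    · intro x hx
      rw [conjSub_inf, hP.2.2.2 x hx, conj_ge hc hGH1]
  · exact lt_of_le_of_ne inf_le_left (fun h => hn (by rw [← h]; exact inf_le_right))
  · intro Q hQ hQP
    exact le_inf hQP.le (mem_Sp.mp hQ).2.2.1

end

end Pool.Agent.X209.DI
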