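import Pool.Agent.X209.DI.Final

/-!
# Exact stabilisers, and arbitrary quotients
-/

open scoped Classical BigOperators
open Pool.Agent.Y63.KR Pool.Agent.Helper884.IC Pool.Agent.Y63.AWC

set_option linter.unusedSectionVars false
set_option linter.unusedVariables false

noncomputable section

namespace Pool.Agent.X209.DI

variable {p : ℕ} {E : Type} [Group E] [Fintype E] {G : Subgroup E} [hG : G.Normal]

/-- change of the ambient group -/
lemma w_ambient' {V : Subgroup E} (hGV : G ≤ V) (x y : V) :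
    w p (G.subgroupOf V) {x, y} = w p G ({(x : E), (y : E)} : Set E) := by
  unfold w
  have hinj : Function.Injective V.subtype := V.subtype_injective
  refine chi_congr (fun P => P.map V.subtype) (fun Q => Q.subgroupOf V) ?_ ?_ ?_ ?_ ?_ ?_
  · intro P hP
    rw [mem_Sp] at hP ⊢
    refine ⟨hP.1.map _, ?_, ?_, ?_⟩
    · intro h
      exact hP.2.1 ((Subgroup.map_eq_bot_iff_of_injective _ hinj).mp h)
    · exact Subgroup.map_le_iff_le_comap.mpr hP.2.2.1
    · rintro z (rfl | hz)
      · rw [← conjSub_map, hP.2.2.2 x (by simp)]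
      · rw [Set.mem_singleton_iff.mp hz, ← conjSub_map, hP.2.2.2 y (by simp)]
  · intro Q hQ
    rw [mem_Sp] at hQ ⊢
    have h1 : (Q.subgroupOf V).map V.subtype = Q :=
      Subgroup.map_subgroupOf_eq_of_le (hQ.2.2.1.trans hGV)
    refine ⟨hQ.1.comap_of_injective _ hinj, ?_, Subgroup.comap_mono hQ.2.2.1, ?_⟩
    · intro h
      apply hQ.2.1
      rw [← h1, h, Subgroup.map_bot]
    · have key : ∀ z : V, conjSub (z : E) Q = Q → conjSub z (Q.subgroupOf V) = Q.subgroupOf V := by
        intro z hz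
        apply Subgroup.map_injective hinj
        rw [conjSub_map, h1, hz]
      rintro z (rfl | hz)
      · exact key z (hQ.2.2.2 _ (by simp))
      · rw [Set.mem_singleton_iff.mp hz]
        exact key y (hQ.2.2.2 _ (by simp))
  · intro P _
    exact Subgroup.comap_map_eq_self_of_injective hinj P
  · intro Q hQ
    exact Subgroup.map_subgroupOf_eq_of_le ((mem_Sp.mp hQ).2.2.1.trans hGV)
  · intro P _ P' _ h
    exact Subgroup.map_mono h
  · intro Q _ Q' _ h
    exact Subgroup.comap_mono h

lemma A_ambient {V : Subgroup E} (hGV : G ≤ V) (e : V) :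
    A p (G.subgroupOf V) 1 e = A p G 1 (e : E) := by
  rw [A_def, A_def]
  unfold PSum
  refine Finset.sum_bij' (fun q _ => ((q.1 : E), (q.2 : E)))
    (fun q hq => (⟨q.1, ?_⟩, ⟨q.2, ?_⟩)) ?_ ?_ ?_ ?_ ?_
  · have h := (mem_CP.mp hq).2.1
    simp only [inv_one, one_mul] at h
    exact hGV h
  · have h := hGV (mem_CP.mp hq).2.2
    have e1 : q.2 = (e : E) * ((e : E)⁻¹ * q.2) := by group
    rw [e1]
    exact V.mul_mem e.2 h
  · intro q hq
    rw [mem_CP] at hq ⊢
    exact ⟨congrArg Subtype.val hq.1, hq.2.1, hq.2.2⟩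
  · intro q hq
    rw [mem_CP] at hq ⊢
    exact ⟨Subtype.ext hq.1, hq.2.1, hq.2.2⟩
  · intro q _
    rfl
  · intro q _
    rfl
  · intro q _
    exact w_ambient' hGV q.1 q.2

lemma zGe_ambient {V : Subgroup E} (hGV : G ≤ V) :
    zGe p (G.subgroupOf V) ⊤ = zGe p G V := by
  unfold zGe
  set e := Subgroup.subgroupOfEquivOfLe hGV with he
  have key : ∀ (θ : G → ℂ) (x : V), x ∈ St (G.subgroupOf V) (fun x => θ (e x)) ↔
      (x : E) ∈ St G θ := by
    intro θ x
    rw [mem_St, mem_St]
    constructor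
    · intro h
      funext m
      have h1 := congrFun h (e.symm m)
      simp only [cj, MulEquiv.apply_symm_apply] at h1
      rw [← h1]
      unfold cj
      congr 1
    · intro h
      funext m
      exact congrFun h (e m)
  symm
  refine Nat.card_congr
    { toFun := fun θ => ⟨fun x => θ.1 (e x), irr_comp e θ.2.1, (DZ_comp e θ.1).mpr θ.2.2.1,
        fun x _ => (key θ.1 x).mpr (θ.2.2.2 x.2)⟩
      invFun := fun θ => ⟨fun x => θ.1 (e.symm x), irr_comp e.symm θ.2.1,
        (DZ_comp e.symm θ.1).mpr θ.2.2.1, fun x hx => ?_⟩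
      left_inv := fun θ => by
        apply Subtype.ext
        funext x
        simp
      right_inv := fun θ => by
        apply Subtype.ext
        funext x
        simp }
  have h1 := key (fun x => θ.1 (e.symm x)) ⟨x, hx⟩
  have h2 : (fun x => (fun x => θ.1 (e.symm x)) (e x)) = θ.1 := by
    funext x
    simp
  rw [h2] at h1
  exact h1.mp (θ.2.2.2 (Subgroup.mem_top _))

/-- the identity for `U` does not depend on the ambient group -/
lemma dl_ambient {V : Subgroup E} (hGV : G ≤ V) (hV : Gen G V) :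
    dl p (G.subgroupOf V) ⊤ = dl p G V := by
  obtain ⟨e, he⟩ := id hV
  have heV : e ∈ V := by
    rw [he]
    exact Subgroup.mem_sup_left (Subgroup.mem_zpowers e)
  have htop : (⊤ : Subgroup V) = Subgroup.zpowers ⟨e, heV⟩ ⊔ G.subgroupOf V := by
    symm
    rw [eq_top_iff]
    intro x _
    have hx : (x : E) ∈ Subgroup.zpowers e ⊔ G := he ▸ x.2
    rw [mem_sup_iff] at hx
    obtain ⟨s, ⟨k, hk⟩, hsG⟩ := hx
    rw [mem_sup_iff]
    refine ⟨⟨e, heV⟩ ^ k, ⟨k, rfl⟩, ?_⟩
    change (((⟨e, heV⟩ : V) ^ k : V) : E)⁻¹ * (x : E) ∈ G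
    simp only [] at hk
    rw [Subgroup.coe_zpow, hk]
    exact hsG
  have h1 : (Nat.card G : ℤ) * altSum p G (fun σ => (kGe G V σ : ℤ)) = A p G 1 e := by
    rw [← altSum_kE]
    congr 2
    funext σ
    rw [← kGe_zpowers, ← he]
  have h2 : (Nat.card (G.subgroupOf V) : ℤ) * altSum p (G.subgroupOf V)
      (fun σ => (kGe (G.subgroupOf V) ⊤ σ : ℤ)) = A p (G.subgroupOf V) 1 ⟨e, heV⟩ := by
    rw [← altSum_kE]
    congr 2
    funext σ
    rw [← kGe_zpowers, ← htop]
  have h3 : Nat.card (G.subgroupOf V) = Nat.card G :=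
    Nat.card_congr (Subgroup.subgroupOfEquivOfLe hGV).toEquiv
  rw [h3, A_ambient hGV, ← h1] at h2
  have h0 : (Nat.card G : ℤ) ≠ 0 := by exact_mod_cast Nat.card_pos.ne'
  have h4 := mul_left_cancel₀ h0 h2
  unfold dl
  rw [h4, zGe_ambient hGV]

/-- the identity for a cyclic subgroup of an arbitrary quotient -/
theorem dl_eq_zero [hp : Fact p.Prime] {V : Subgroup E} (hGV : G ≤ V)
    (hcyc : IsCyclic (V ⧸ G.subgroupOf V)) (hV : ¬ p ^ 2 ∣ G.relIndex V)
    (hK : ∀ H : Subgroup V, G.subgroupOf V ≤ H → KRC p H) : dl p G V = 0 := by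
  have hgen : Gen G V := by
    obtain ⟨g, hg⟩ := gen_of_cyclic (E := V) (G := G.subgroupOf V)
    refine ⟨(g : E), le_antisymm ?_ (sup_le (by rw [Subgroup.zpowers_le]; exact g.2) hGV)⟩
    intro x hx
    obtain ⟨i, hi⟩ := hg ⟨x, hx⟩
    rw [mem_sup_iff]
    refine ⟨(g : E) ^ i, Subgroup.pow_mem _ (Subgroup.mem_zpowers _) i, ?_⟩
    have h1 : x⁻¹ * (g : E) ^ i ∈ G := hi
    have := G.inv_mem h1
    rwa [mul_inv_rev, inv_inv] at this
  rw [← dl_ambient hGV hgen]
  refine (equiv_ge (p := p) (G := G.subgroupOf V)).mp hK ⊤ le_top ?_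
  have h1 : (G.subgroupOf V).relIndex ⊤ = G.relIndex V := by
    rw [Subgroup.relIndex_top_right]
    rfl
  rw [h1]
  exact hV

/-! ### Exact stabilisers -/

lemma altSum_sum {ι : Type} (s : Finset ι) (f : ι → Set (Subgroup E) → ℤ) :
    altSum p G (fun σ => ∑ i ∈ s, f i σ) = ∑ i ∈ s, altSum p G (f i) := by
  have : Fintype (Quotient (chainClass p G)) := Fintype.ofFinite _
  unfold altSum
  simp only [finsum_eq_sum_of_fintype, Finset.mul_sum]
  rw [Finset.sum_comm]

/-- the subgroups containing `U` -/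
def above (U : Subgroup E) : Finset (Subgroup E) := (Set.toFinite {V | U ≤ V}).toFinset

lemma mem_above {U V : Subgroup E} : V ∈ above U ↔ U ≤ V := by
  simp [above]

lemma finite_irr (σ : Set (Subgroup E)) : Finite {χ : Gs G σ → ℂ // IsIrrChar χ} :=
  (irr_finite (G := Gs G σ)).to_subtype

lemma sum_kEq (U : Subgroup E) (σ : Set (Subgroup E)) :
    ∑ V ∈ above U, kEq G V σ = kGe G U σ := by
  have h1 : kGe G U σ = ((Irr (Gs G σ)).filter fun χ => U ≤ inE G σ χ).card := by
    apply natCard_eq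
    intro χ
    rw [Finset.mem_filter, mem_Irr]
  have h2 : ∀ V, kEq G V σ = ((Irr (Gs G σ)).filter fun χ => inE G σ χ = V).card := by
    intro V
    apply natCard_eq
    intro χ
    rw [Finset.mem_filter, mem_Irr]
  rw [h1, Finset.card_eq_sum_card_fiberwise (f := fun χ => inE G σ χ) (t := above U)]
  · refine Finset.sum_congr rfl fun V hV => ?_
    rw [h2]
    congr 1
    ext χ
    rw [mem_above] at hV
    simp only [Finset.mem_filter]
    constructor
    · rintro ⟨h3, h4⟩
      exact ⟨⟨h3, by rw [h4]; exact hV⟩, h4⟩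
    · rintro ⟨⟨h3, -⟩, h4⟩
      exact ⟨h3, h4⟩
  · intro χ hχ
    rw [Finset.mem_coe, mem_above]
    exact (Finset.mem_filter.mp hχ).2

lemma sum_zEq (U : Subgroup E) : ∑ V ∈ above U, zEq p G V = zGe p G U := by
  have h1 : zGe p G U = ((Irr G).filter fun θ => DZ p θ ∧ U ≤ St G θ).card := by
    apply natCard_eq
    intro χ
    rw [Finset.mem_filter, mem_Irr]
  have h2 : ∀ V, zEq p G V = ((Irr G).filter fun θ => DZ p θ ∧ St G θ = V).card := by
    intro V
    apply natCard_eq
    intro χ
    rw [Finset.mem_filter, mem_Irr]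
  rw [h1, Finset.card_eq_sum_card_fiberwise (f := fun θ => St G θ) (t := above U)]
  · refine Finset.sum_congr rfl fun V hV => ?_
    rw [h2]
    congr 1
    ext χ
    rw [mem_above] at hV
    simp only [Finset.mem_filter]
    constructor
    · rintro ⟨h3, h4, h5⟩
      exact ⟨⟨h3, h4, by rw [h5]; exact hV⟩, h5⟩
    · rintro ⟨⟨h3, h4, -⟩, h5⟩
      exact ⟨h3, h4, h5⟩
  · intro χ hχ
    rw [Finset.mem_coe, mem_above]
    exact (Finset.mem_filter.mp hχ).2.2

/-- the difference for an exact stabiliser -/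
def ex (p : ℕ) (G : Subgroup E) [G.Normal] (U : Subgroup E) : ℤ :=
  altSum p G (fun σ => (kEq G U σ : ℤ)) - (zEq p G U : ℤ)

theorem dl_eq_sum (U : Subgroup E) : dl p G U = ∑ V ∈ above U, ex p G V := by
  unfold dl ex
  rw [Finset.sum_sub_distrib, ← altSum_sum]
  congr 1
  · congr 1
    funext σ
    rw [← sum_kEq U σ]
    push_cast
    rfl
  · rw [← sum_zEq U]
    push_cast
    rfl

theorem exact_iff : (∀ U : Subgroup E, G ≤ U → dl p G U = 0) ↔
    (∀ U : Subgroup E, G ≤ U → ex p G U = 0) := by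
  constructor
  · intro h
    have main : ∀ n : ℕ, ∀ U : Subgroup E, U.index = n → G ≤ U → ex p G U = 0 := by
      intro n
      induction n using Nat.strong_induction_on with
      | _ n ih =>
        intro U hn hGU
        have h1 := h U hGU
        have hU : U ∈ above U := mem_above.mpr le_rfl
        rw [dl_eq_sum, ← Finset.add_sum_erase _ _ hU, Finset.sum_eq_zero, add_zero] at h1
        · exact h1
        · intro V hV
          rw [Finset.mem_erase, mem_above] at hV
          refine ih V.index ?_ V rfl (hGU.trans hV.2)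
          rw [← hn]
          exact Subgroup.index_strictAnti (lt_of_le_of_ne hV.2 (Ne.symm hV.1))
    exact fun U => main _ U rfl
  · intro h U hGU
    rw [dl_eq_sum]
    apply Finset.sum_eq_zero
    intro V hV
    exact h V (hGU.trans (mem_above.mp hV))

end Pool.Agent.X209.DI
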