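import Pool.Agent.X209.DI.Main

/-!
# The equivalence for cyclic quotients
-/

open scoped Classical BigOperators
open Pool.Agent.Y63.KR Pool.Agent.Helper884.IC Pool.Agent.Y63.AWC

set_option linter.unusedSectionVars false
set_option linter.unusedVariables false

noncomputable section

namespace Pool.Agent.X209.DI

variable {p : ℕ} {E : Type} [Group E] [Fintype E] {G : Subgroup E} [hG : G.Normal]

lemma gen_of_cyclic [IsCyclic (E ⧸ G)] : ∃ g : E, ∀ x : E, ∃ i : ℕ, x⁻¹ * g ^ i ∈ G := by
  obtain ⟨c, hc⟩ := IsCyclic.exists_generator (α := E ⧸ G)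
  obtain ⟨g, rfl⟩ := QuotientGroup.mk_surjective c
  refine ⟨g, fun x => ?_⟩
  obtain ⟨i, hi⟩ := (mem_powers_iff_mem_zpowers.mpr (hc (x : E ⧸ G)))
  refine ⟨i, ?_⟩
  rw [← QuotientGroup.eq, QuotientGroup.mk_pow]
  exact hi.symm

lemma gen_H [IsCyclic (E ⧸ G)] {H : Subgroup E} (hGH : G ≤ H) : Gen G H := by
  obtain ⟨⟨c, hcH⟩, hc⟩ := IsCyclic.exists_generator (α := H.map (QuotientGroup.mk' G))
  obtain ⟨e, he, rfl⟩ := hcH
  refine ⟨e, le_antisymm ?_ (sup_le (by rw [Subgroup.zpowers_le]; exact he) hGH)⟩
  intro x hx
  obtain ⟨k, hk⟩ := Subgroup.mem_zpowers_iff.mp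
    (hc ⟨QuotientGroup.mk' G x, Subgroup.mem_map_of_mem _ hx⟩)
  have hk' := congrArg Subtype.val hk
  rw [mem_sup_iff]
  refine ⟨e ^ k, ⟨k, rfl⟩, ?_⟩
  rw [← QuotientGroup.eq, QuotientGroup.mk_zpow]
  exact hk'

section

variable {a b : ℕ}

lemma quot_sub_pow (U : Subgroup E) (d : U ⧸ G.subgroupOf U) : d ^ Nat.card E = 1 := by
  obtain ⟨u, rfl⟩ := QuotientGroup.mk_surjective d
  have : u ^ Nat.card E = 1 := by
    apply Subtype.ext
    exact card_pow (u : E)
  rw [← QuotientGroup.mk_pow, this]
  rfl

lemma not_sq [hp : Fact p.Prime] (hPE : PE p (Nat.card E) a b) {U : Subgroup E}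
    (hU : Gen G U) (hGU : G ≤ U) (h : ∀ s ∈ U, s ^ (a * p) ∈ G) : ¬ p ^ 2 ∣ G.relIndex U := by
  rintro ⟨k, hk⟩
  have hk' : Nat.card (U ⧸ G.subgroupOf U) = p ^ 2 * k := hk
  obtain ⟨g, hg⟩ := hU.sub hGU
  have hord : orderOf (g : U ⧸ G.subgroupOf U) = p ^ 2 * k := by
    rw [← hk']
    apply orderOf_eq_card_of_forall_mem_zpowers
    intro c
    obtain ⟨x, rfl⟩ := QuotientGroup.mk_surjective c
    obtain ⟨i, hi⟩ := hg x
    rw [QuotientGroup.eq.mpr hi, QuotientGroup.mk_pow]
    exact Subgroup.pow_mem _ (Subgroup.mem_zpowers _) i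
  have hk0 : 0 < k := by
    rcases Nat.eq_zero_or_pos k with h0 | h0
    · rw [h0, mul_zero] at hk'
      exact absurd hk' Nat.card_pos.ne'
    · exact h0
  have h1 : ((g : U ⧸ G.subgroupOf U) ^ k) ^ p ^ 2 = 1 := by
    rw [← pow_mul, mul_comm, ← hord, pow_orderOf_eq_one]
  have h2 := hPE.self _ ((g : U ⧸ G.subgroupOf U) ^ k) (quot_sub_pow U _) ⟨2, h1⟩
  have h3 : ((g : U ⧸ G.subgroupOf U) ^ k) ^ p = 1 := by
    rw [← h2, ← pow_mul, ← QuotientGroup.mk_pow, ← QuotientGroup.mk_pow, QuotientGroup.eq_one_iff]
    exact h _ (g ^ k).2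
  rw [← pow_mul] at h3
  have h4 := orderOf_dvd_of_pow_eq_one h3
  rw [hord] at h4
  have h5 := Nat.le_of_dvd (Nat.mul_pos hk0 hp.out.pos) h4
  have h6 := hp.out.two_le
  nlinarith

lemma pow_p_mem [hp : Fact p.Prime] (hPE : PE p (Nat.card E) a b) {U : Subgroup E}
    (h : ¬ p ^ 2 ∣ G.relIndex U) {e : E} (he : e ∈ U) : (e ^ a) ^ p ∈ G := by
  set d : U ⧸ G.subgroupOf U := ((⟨e, he⟩ : U) : U ⧸ G.subgroupOf U) with hd
  obtain ⟨j, hj⟩ := hPE.ppow _ d (quot_sub_pow U d)
  obtain ⟨i, hi, hi2⟩ := (Nat.dvd_prime_pow hp.out).mp (orderOf_dvd_of_pow_eq_one hj)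
  have h1 : i ≤ 1 := by
    by_contra hcon
    apply h
    have h2 : orderOf (d ^ a) ∣ G.relIndex U := orderOf_dvd_natCard _
    rw [hi2] at h2
    exact (pow_dvd_pow p (by omega)).trans h2
  have h2 : (d ^ a) ^ p = 1 := by
    apply orderOf_dvd_iff_pow_eq_one.mp
    rw [hi2]
    exact (pow_dvd_pow p h1).trans (by rw [pow_one])
  rw [hd, ← QuotientGroup.mk_pow, ← QuotientGroup.mk_pow, QuotientGroup.eq_one_iff] at h2
  exact h2

/-- **The equivalence.** -/
theorem equiv_ge [hp : Fact p.Prime] [IsCyclic (E ⧸ G)] :
    (∀ H : Subgroup E, G ≤ H → KRC p H) ↔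
      (∀ U : Subgroup E, G ≤ U → ¬ p ^ 2 ∣ G.relIndex U → dl p G U = 0) := by
  obtain ⟨a, b, hPE⟩ := exists_PE hp.out (Nat.card_pos (α := E)).ne'
  have hC : Cyc p G := Cyc.of_cyclic
  have hg := gen_of_cyclic (E := E) (G := G)
  have hle : ∀ {H : Subgroup E} {x y : E}, x ∈ H1 p a G H hC.comm → y ∈ H1 p a G H hC.comm →
      G ≤ H → Subgroup.closure {x, y} ⊔ G ≤ H1 p a G H hC.comm := by
    intro H x y hx hy hGH
    exact sup_le (pair_le_iff.mpr ⟨hx, hy⟩) (fun z hz => ⟨hGH hz, G.pow_mem hz _⟩)
  have hR0 : ∀ {H : Subgroup E} {x : E}, R0 a G H x → x ∈ H1 p a G H hC.comm := by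
    intro H x hx
    exact ⟨hx.1, by rw [pow_mul]; exact G.pow_mem hx.2 p⟩
  constructor
  · intro hK
    have main : ∀ n : ℕ, ∀ U : Subgroup E, Nat.card U = n → G ≤ U → ¬ p ^ 2 ∣ G.relIndex U →
        dl p G U = 0 := by
      intro n
      induction n using Nat.strong_induction_on with
      | _ n ih =>
        intro U hn hGU hU
        have hgen : Gen G U := gen_H hGU
        obtain ⟨e, he⟩ := id hgen
        have heU : e ∈ U := by
          rw [he]
          exact Subgroup.mem_sup_left (Subgroup.mem_zpowers e)
        have hsmall : ∀ V : Subgroup E, V ≤ U → V ≠ U → G ≤ V → dl p G V = 0 := by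
          intro V hV hne hGV
          have h1 : Nat.card V < n := by
            rw [← hn]
            refine lt_of_le_of_ne (Subgroup.card_le_of_le hV) fun h => hne ?_
            exact Subgroup.eq_of_le_of_card_ge hV h.ge
          refine ih _ h1 V rfl hGV fun h => hU (h.trans ?_)
          rw [← Subgroup.relIndex_mul_relIndex G V U hGV hV]
          exact Dvd.intro _ rfl
        have hpair : ∀ (R : E → E → Prop), (∀ x y, R x y → x ∈ U ∧ y ∈ U) →
            ∑ q ∈ FP E R, dl p G (Subgroup.closure {q.1, q.2} ⊔ G) =
              (((FP E R).filter (fun q => Subgroup.closure {q.1, q.2} ⊔ G = U)).card : ℤ) *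
                dl p G U := by
          intro R hR
          rw [← Finset.sum_filter_add_sum_filter_not (FP E R)
            (fun q => Subgroup.closure {q.1, q.2} ⊔ G = U)]
          have h1 : ∑ q ∈ (FP E R).filter (fun q => ¬ Subgroup.closure {q.1, q.2} ⊔ G = U),
              dl p G (Subgroup.closure {q.1, q.2} ⊔ G) = 0 := by
            apply Finset.sum_eq_zero
            intro q hq
            rw [Finset.mem_filter, mem_FP] at hq
            obtain ⟨h2, h3⟩ := hR _ _ hq.1
            exact hsmall _ (sup_le (pair_le_iff.mpr ⟨h2, h3⟩) hGU) hq.2 le_sup_right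
          rw [h1, add_zero]
          rw [Finset.sum_congr rfl (g := fun _ => dl p G U) (fun q hq => by
            rw [(Finset.mem_filter.mp hq).2]), Finset.sum_const, nsmul_eq_mul]
        have hone : Subgroup.closure {1, e} ⊔ G = U := by
          rw [he]
          congr 1
          apply le_antisymm
          · rw [pair_le_iff]
            exact ⟨Subgroup.one_mem _, Subgroup.mem_zpowers e⟩
          · rw [Subgroup.zpowers_le]
            exact closure_pair_right
        have hKU : aK p U - (numDefectZero p U : ℤ) = 0 := by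
          rw [(KRC_iff_aK (p := p) U).mp (hK U hGU), sub_self]
        by_cases hno : ∀ h ∈ U, h ^ p ∈ G → h ∈ G
        · have h1 := formula_none hPE hC hg hGU hgen hno
          rw [hKU, mul_zero, mul_zero, hpair _ (fun x y h => ⟨h.1.1, h.2.1⟩)] at h1
          rcases mul_eq_zero.mp h1.symm with h2 | h2
          · exfalso
            have h3 : (1, e) ∈ (FP E (fun x y => R0 a G U x ∧ R0 a G U y)).filter
                (fun q => Subgroup.closure {q.1, q.2} ⊔ G = U) := by
              rw [Finset.mem_filter, mem_FP]
              refine ⟨⟨⟨U.one_mem, by rw [one_pow]; exact G.one_mem⟩, heU, ?_⟩, hone⟩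
              obtain ⟨j, hj⟩ := hPE.ppow E e (card_pow e)
              have : ∀ j, ∀ h ∈ U, h ^ p ^ j = 1 → h ∈ G := by
                intro j
                induction j with
                | zero =>
                  intro h _ h1
                  rw [pow_zero, pow_one] at h1
                  rw [h1]
                  exact G.one_mem
                | succ j ih =>
                  intro h hh h1
                  apply hno h hh
                  apply ih (h ^ p) (U.pow_mem hh p)
                  rw [← pow_mul, ← pow_succ']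
                  exact h1
              exact this j _ (U.pow_mem heU a) hj
            have h4 := Finset.card_pos.mpr ⟨_, h3⟩
            have h5 : ((FP E (fun x y => R0 a G U x ∧ R0 a G U y)).filter
                (fun q => Subgroup.closure {q.1, q.2} ⊔ G = U)).card = 0 := by exact_mod_cast h2
            omega
          · exact h2
        · push Not at hno
          obtain ⟨h, hhU, hhp, hhG⟩ := hno
          have hea : e ^ a ∉ G := by
            intro hea
            apply hhG
            have hall : ∀ s ∈ U, s ^ a ∈ G := by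
              intro s hs
              rw [he, mem_sup_iff] at hs
              obtain ⟨t, ⟨k, hk⟩, ht⟩ := hs
              have h1 : ((e ^ k : E) ^ a)⁻¹ * s ^ a ∈ G := by
                apply pow_coset hC
                simp only [] at hk
                rw [hk]
                exact ht
              have h2 : (e ^ k : E) ^ a ∈ G := by
                rw [← zpow_natCast, ← zpow_mul, mul_comm, zpow_mul, zpow_natCast]
                exact G.zpow_mem hea k
              have e1 : s ^ a = (e ^ k : E) ^ a * (((e ^ k : E) ^ a)⁻¹ * s ^ a) := by group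
              rw [e1]
              exact G.mul_mem h2 h1
            have h3 : h⁻¹ * h ^ a ∈ G := by
              rw [← QuotientGroup.eq, QuotientGroup.mk_pow]
              symm
              apply hPE.self _ _ (quot_pow G _)
              refine ⟨1, ?_⟩
              rw [pow_one, ← QuotientGroup.mk_pow]
              exact (QuotientGroup.eq_one_iff _).mpr hhp
            have e1 : h = h ^ a * (h⁻¹ * h ^ a)⁻¹ := by group
            rw [e1]
            exact G.mul_mem (hall h hhU) (G.inv_mem h3)
          have heap : (e ^ a) ^ p ∈ G := pow_p_mem hPE hU heU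
          have h1 := formula_some hPE hC hg hGU hgen (U.pow_mem heU a) hea heap
          rw [hKU, mul_zero, mul_zero, hpair _ (fun x y h => ⟨h.1.1, h.2.1⟩),
            hpair _ (fun x y h => ⟨h.1.1, h.2.1⟩)] at h1
          have hz : ((FP E (fun x y => R0 a G U x ∧ R0 a G U y)).filter
                (fun q => Subgroup.closure {q.1, q.2} ⊔ G = U)).card = 0 := by
            rw [Finset.card_eq_zero, Finset.filter_eq_empty_iff]
            intro q hq h2
            rw [mem_FP] at hq
            apply hea
            -- all elements of `U` would be `p`-regular modulo `G`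
            have h3 : ∀ s ∈ Subgroup.closure {q.1, q.2} ⊔ G, s ^ a ∈ G := by
              let T : Subgroup E :=
                { carrier := {s | s ^ a ∈ G}
                  one_mem' := by
                    change (1 : E) ^ a ∈ G
                    rw [one_pow]; exact G.one_mem
                  mul_mem' := fun h h' => pow_mem_mul hC.comm h h'
                  inv_mem' := fun {x} h => by
                    change (x⁻¹) ^ a ∈ G
                    rw [inv_pow]; exact G.inv_mem h }
              have h4 : Subgroup.closure {q.1, q.2} ⊔ G ≤ T :=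
                sup_le (pair_le_iff.mpr ⟨hq.1.2, hq.2.2⟩) (fun z hz => G.pow_mem hz a)
              exact fun s hs => h4 hs
            apply h3
            rw [h2]
            exact heU
          rw [hz, Nat.cast_zero, zero_mul, zero_sub] at h1
          have h2 := neg_eq_zero.mp h1.symm
          rcases mul_eq_zero.mp h2 with h3 | h3
          · exfalso
            have h4 : (1, e) ∈ (FP E (fun x y => R0 a G U x ∧ R1 a G U (e ^ a) y)).filter
                (fun q => Subgroup.closure {q.1, q.2} ⊔ G = U) := by
              rw [Finset.mem_filter, mem_FP]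
              refine ⟨⟨⟨U.one_mem, by rw [one_pow]; exact G.one_mem⟩, heU, ?_⟩, hone⟩
              rw [inv_mul_cancel]
              exact G.one_mem
            have h5 := Finset.card_pos.mpr ⟨_, h4⟩
            have h6 : ((FP E (fun x y => R0 a G U x ∧ R1 a G U (e ^ a) y)).filter
                (fun q => Subgroup.closure {q.1, q.2} ⊔ G = U)).card = 0 := by exact_mod_cast h3
            omega
          · exact h3
    exact fun U => main _ U rfl
  · intro hD H hGH
    rw [KRC_iff_aK]
    have hgen : Gen G H := gen_H hGH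
    have h0 : (Nat.card G : ℤ) ≠ 0 := by exact_mod_cast Nat.card_pos.ne'
    have h0' : (Nat.card H : ℤ) ≠ 0 := by exact_mod_cast Nat.card_pos.ne'
    have hvan : ∀ x y : E, x ∈ H1 p a G H hC.comm → y ∈ H1 p a G H hC.comm →
        dl p G (Subgroup.closure {x, y} ⊔ G) = 0 := by
      intro x y hx hy
      have h1 := hle hx hy hGH
      exact hD _ le_sup_right (not_sq hPE (gen_H le_sup_right) le_sup_right
        (fun s hs => (h1 hs).2))
    have key : (Nat.card G : ℤ) * ((Nat.card H : ℤ) * (aK p H - (numDefectZero p H : ℤ))) = 0 := by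
      by_cases hno : ∀ h ∈ H, h ^ p ∈ G → h ∈ G
      · rw [formula_none hPE hC hg hGH hgen hno]
        apply Finset.sum_eq_zero
        intro q hq
        rw [mem_FP] at hq
        exact hvan _ _ (hR0 hq.1) (hR0 hq.2)
      · push Not at hno
        obtain ⟨e₁, he1, he3, he2⟩ := hno
        rw [formula_some hPE hC hg hGH hgen he1 he2 he3]
        have h1 : ∑ q ∈ FP E (fun x y => R0 a G H x ∧ R0 a G H y),
            dl p G (Subgroup.closure {q.1, q.2} ⊔ G) = 0 := by
          apply Finset.sum_eq_zero
          intro q hq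
          rw [mem_FP] at hq
          exact hvan _ _ (hR0 hq.1) (hR0 hq.2)
        have h2 : ∑ q ∈ FP E (fun x y => R0 a G H x ∧ R1 a G H e₁ y),
            dl p G (Subgroup.closure {q.1, q.2} ⊔ G) = 0 := by
          apply Finset.sum_eq_zero
          intro q hq
          rw [mem_FP] at hq
          refine hvan _ _ (hR0 hq.1) ⟨hq.2.1, ?_⟩
          have h3 := pow_coset hC hq.2.2 p
          have e1 : q.2 ^ (a * p) = e₁ ^ p * ((e₁ ^ p)⁻¹ * (q.2 ^ a) ^ p) := by
            rw [mul_inv_cancel_left, pow_mul]
          rw [e1]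
          exact G.mul_mem he3 h3
        rw [h1, h2, sub_zero]
    rcases mul_eq_zero.mp key with h | h
    · exact absurd h h0
    · rcases mul_eq_zero.mp h with h | h
      · exact absurd h h0'
      · exact sub_eq_zero.mp h

end

end Pool.Agent.X209.DI
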