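import Pool.Agent.X209.DI.Congr

/-!
# Normal subgroups of index `p`, and nontrivial normal `p`-subgroups
-/

open scoped Classical BigOperators
open Pool.Agent.Y63.KR Pool.Agent.Helper884.IC Pool.Agent.Y63.AWC

set_option linter.unusedSectionVars false
set_option linter.unusedVariables false

noncomputable section

namespace Pool.Agent.X209.DI

section top

variable {p : ℕ} {E : Type} [Group E] [Fintype E] {G : Subgroup E} [hG : G.Normal]

lemma PSum_congr {R R' : E → E → Prop} (h : ∀ x y, R x y ↔ R' x y) : PSum p G R = PSum p G R' := by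
  have : R = R' := by
    funext x y
    exact propext (h x y)
  rw [this]

lemma aK_index [hp : Fact p.Prime] (hidx : Nat.card (E ⧸ G) = p) {e : E} (he : e ∉ G) :
    (Nat.card E : ℤ) * aK p E = (Nat.card G : ℤ) * aK p G -
      ∑ q ∈ Qe p G e, (Nat.card ↥(G ⊓ Cq q) : ℤ) * aK p ↥(G ⊓ Cq q) := by
  have hcyc : IsCyclic (E ⧸ G) := isCyclic_of_prime_card hidx
  have hC : Cyc p G := Cyc.of_cyclic
  obtain ⟨a, b, hPE⟩ := exists_PE hp.out (Nat.card_pos (α := E)).ne'
  have hep : ∀ x : E, x ^ p ∈ G := by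
    intro x
    rw [← QuotientGroup.eq_one_iff, QuotientGroup.mk_pow]
    have h := pow_card_eq_one' (x := (x : E ⧸ G))
    rwa [hidx] at h
  have hR : ∀ x : E, x⁻¹ * x ^ a ∈ G := fun x =>
    (pow_b_mem hPE (k := 1) (by rw [pow_one]; exact hep x)).2
  have h1 := PSum_some hPE hC (H := ⊤) le_top (Subgroup.mem_top e) he (hep e)
  have h0 : ∀ x : E, R0 a G ⊤ x ↔ x ∈ G := by
    intro x
    unfold R0
    constructor
    · rintro ⟨_, h⟩
      have e1 : x = x ^ a * (x⁻¹ * x ^ a)⁻¹ := by group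
      rw [e1]
      exact G.mul_mem h (G.inv_mem (hR x))
    · intro h
      exact ⟨Subgroup.mem_top x, G.pow_mem h a⟩
  have h0' : ∀ y : E, R1 a G ⊤ e y ↔ e⁻¹ * y ∈ G := by
    intro y
    unfold R1
    constructor
    · rintro ⟨_, h⟩
      have e1 : e⁻¹ * y = e⁻¹ * y ^ a * (y⁻¹ * y ^ a)⁻¹ := by group
      rw [e1]
      exact G.mul_mem h (G.inv_mem (hR y))
    · intro h
      refine ⟨Subgroup.mem_top y, ?_⟩
      have e1 : e⁻¹ * y ^ a = e⁻¹ * y * (y⁻¹ * y ^ a) := by group
      rw [e1]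
      exact G.mul_mem h (hR y)
  rw [aK_top]
  have h2 : ∑ q ∈ CP E (fun _ _ => True), w p (⊤ : Subgroup E) {q.1, q.2} =
      PSum p (⊤ : Subgroup E) (fun x y => x ∈ (⊤ : Subgroup E) ∧ y ∈ (⊤ : Subgroup E)) := by
    change PSum p (⊤ : Subgroup E) (fun _ _ => True) = _
    apply congrArg (PSum p (⊤ : Subgroup E))
    funext x y
    simp
  rw [h2, h1, aK_eq]
  congr 1
  · exact PSum_congr fun x y => by rw [h0, h0]
  · rw [← A_cent_p (k := 1) (by rw [pow_one]; exact hep e), A_def]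
    exact PSum_congr fun x y => by rw [h0, h0', inv_one, one_mul]

lemma z_index [hp : Fact p.Prime] (hidx : Nat.card (E ⧸ G) = p) {e : E} (he : e ∉ G) :
    (Nat.card E : ℤ) * (numDefectZero p E : ℤ) = (Nat.card G : ℤ) * (numDefectZero p G : ℤ) -
      ∑ q ∈ Qe p G e, (Nat.card ↥(G ⊓ Cq q) : ℤ) * (numDefectZero p ↥(G ⊓ Cq q) : ℤ) := by
  have hcyc : IsCyclic (E ⧸ G) := isCyclic_of_prime_card hidx
  have hC : Cyc p G := Cyc.of_cyclic
  have hep : ∀ x : E, x ^ p ∈ G := by
    intro x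
    rw [← QuotientGroup.eq_one_iff, QuotientGroup.mk_pow]
    have h := pow_card_eq_one' (x := (x : E ⧸ G))
    rwa [hidx] at h
  have hg : ∀ x : E, ∃ i : ℕ, x⁻¹ * e ^ i ∈ G := fun x => hC.uniq x e he (hep x) (hep e)
  have h1 := Pool.Agent.Y564.NV.clif p E G hidx
  have h2 := z_cent_top (p := p) hg (k := 1) (by rw [pow_one]; exact hep e)
  rw [numInvDz_eq] at h1
  have h3 := Subgroup.card_eq_card_quotient_mul_card_subgroup G
  rw [hidx] at h3
  have h1' := congrArg (Nat.cast : ℕ → ℤ) h1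
  have h2' := congrArg (Nat.cast : ℕ → ℤ) h2
  push_cast at h1' h2'
  rw [← h2', h3]
  push_cast
  linear_combination (Nat.card G : ℤ) * h1'

/-- **Index `p`.** -/
theorem kd_index [hp : Fact p.Prime] (hidx : Nat.card (E ⧸ G) = p) {e : E} (he : e ∉ G) :
    (Nat.card E : ℤ) * kd p E = (Nat.card G : ℤ) * kd p G -
      ∑ q ∈ Qe p G e, (Nat.card ↥(G ⊓ Cq q) : ℤ) * kd p ↥(G ⊓ Cq q) := by
  unfold kd
  rw [mul_sub, mul_sub, aK_index hidx he, z_index hidx he]
  simp only [mul_sub, Finset.sum_sub_distrib]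
  ring

end top

/-! ### Nontrivial normal `p`-subgroups -/

lemma kd_normal {p : ℕ} [hp : Fact p.Prime] {H : Type} [Group H] [Finite H] {R : Subgroup H}
    (hR : IsPGroup p R) (hn : R.Normal) (h1 : R ≠ ⊥) : kd p H = 0 := by
  have : Fintype H := Fintype.ofFinite _
  have h0 : (Nat.card H : ℤ) ≠ 0 := by exact_mod_cast Nat.card_pos.ne'
  have hz : numDefectZero p H = 0 := defectZero_normal hR hn h1
  have ha : aK p H = 0 := by
    apply (mul_eq_zero_iff_left h0).mp
    rw [aK_top]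
    apply Finset.sum_eq_zero
    intro q _
    have hRn : ∀ x : H, conjSub x R = R := fun x => by
      rw [conjSub_eq_iff, Subgroup.normalizer_eq_top_iff.mpr hn]
      trivial
    unfold w
    have hRS : R ∈ Sp p (⊤ : Subgroup H) {q.1, q.2} :=
      mem_Sp.mpr ⟨hR, h1, le_top, fun x _ => hRn x⟩
    rw [chi_eq_of_above (Y := (Sp p (⊤ : Subgroup H) {q.1, q.2}).filter (R ≤ ·))
      (Finset.filter_subset _ _) ?_]
    · refine chi_min (m := R) (Finset.mem_filter.mpr ⟨hRS, le_rfl⟩) fun P hP => ?_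
      exact (Finset.mem_filter.mp hP).2
    · intro P hP hP2
      have hPS := mem_Sp.mp hP
      refine ⟨P ⊔ R, ?_, ?_, ?_⟩
      · rw [Finset.mem_filter, mem_Sp]
        refine ⟨⟨?_, ?_, le_top, ?_⟩, le_sup_right⟩
        · have : R.Normal := hn
          rw [sup_comm]
          exact IsPGroup.to_sup_of_normal_left hR hPS.1
        · intro h
          exact h1 (le_bot_iff.mp (h ▸ le_sup_right))
        · intro x hx
          rw [conjSub_sup, hPS.2.2.2 x hx, hRn]
      · refine lt_of_le_of_ne le_sup_left fun h => hP2 ?_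
        rw [Finset.mem_filter]
        exact ⟨hP, by rw [h]; exact le_sup_right⟩
      · intro Q hQ hPQ
        exact sup_le hPQ.le (Finset.mem_filter.mp hQ).2
  unfold kd
  rw [ha, hz]
  rfl

end Pool.Agent.X209.DI
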