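import Pool.Agent.X209.DI.Top

/-!
# The equivalence
-/

open scoped Classical BigOperators
open Pool.Agent.Y63.KR Pool.Agent.Helper884.IC Pool.Agent.Y63.AWC

set_option linter.unusedSectionVars false
set_option linter.unusedVariables false

noncomputable section

namespace Pool.Agent.X209.DI

variable {p : ℕ} {E : Type} [Group E] [Fintype E] {G : Subgroup E} [hG : G.Normal]

/-- `N_E(σ, χ) G`, where `N_E(σ, χ)` is the stabiliser of `σ` and of the character `χ` of `G_σ`. -/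
def inE (G : Subgroup E) [G.Normal] (σ : Set (Subgroup E)) (χ : Gs G σ → ℂ) : Subgroup E :=
  (St (Gs G σ) χ).map (chainStabilizer σ).subtype ⊔ G

/-- the number of the irreducible characters of `G_σ` with `U ≤ N_E(σ, χ) G` -/
def kGe (G : Subgroup E) [G.Normal] (U : Subgroup E) (σ : Set (Subgroup E)) : ℕ :=
  Nat.card {χ : Gs G σ → ℂ // IsIrrChar χ ∧ U ≤ inE G σ χ}

/-- the number of the irreducible characters of `G_σ` with `U = N_E(σ, χ) G` -/
def kEq (G : Subgroup E) [G.Normal] (U : Subgroup E) (σ : Set (Subgroup E)) : ℕ :=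
  Nat.card {χ : Gs G σ → ℂ // IsIrrChar χ ∧ inE G σ χ = U}

/-- the number of the characters of defect zero of `G` stabilised by `U` -/
def zGe (p : ℕ) (G : Subgroup E) [G.Normal] (U : Subgroup E) : ℕ :=
  Nat.card {θ : G → ℂ // IsIrrChar θ ∧ DZ p θ ∧ U ≤ St G θ}

/-- the number of the characters of defect zero of `G` with stabiliser `U` -/
def zEq (p : ℕ) (G : Subgroup E) [G.Normal] (U : Subgroup E) : ℕ :=
  Nat.card {θ : G → ℂ // IsIrrChar θ ∧ DZ p θ ∧ St G θ = U}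

lemma kGe_zpowers (e : E) (σ : Set (Subgroup E)) :
    kGe G (Subgroup.zpowers e ⊔ G) σ = kE G e σ := by
  unfold kGe kE
  refine Nat.card_congr (Equiv.subtypeEquivRight fun χ => ?_)
  refine and_congr_right fun _ => ?_
  unfold inE
  rw [sup_le_iff, Subgroup.zpowers_le, mem_sup_iff]
  constructor
  · rintro ⟨⟨s, hs, hsG⟩, -⟩
    obtain ⟨b, hb, rfl⟩ := hs
    refine ⟨b, ?_, hb⟩
    have := G.inv_mem hsG
    rwa [mul_inv_rev, inv_inv] at this
  · rintro ⟨b, hb, h1⟩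
    refine ⟨⟨b, ⟨b, h1, rfl⟩, ?_⟩, le_sup_right⟩
    have := G.inv_mem hb
    rwa [mul_inv_rev, inv_inv] at this

lemma zGe_closure (x y : E) : zGe p G (Subgroup.closure {x, y} ⊔ G) = Z p G x y := by
  unfold zGe Z
  apply natCard_eq
  intro θ
  rw [Finset.mem_filter, mem_Irr]
  constructor
  · rintro ⟨h1, h2, h3⟩
    rw [St_ge_iff G h1, pair_le_iff] at h3
    exact ⟨h1, h2, h3⟩
  · rintro ⟨h1, h2, h3⟩
    refine ⟨h1, h2, ?_⟩
    rw [St_ge_iff G h1, pair_le_iff]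
    exact h3

/-- the defect of the identity for `U` -/
def dl (p : ℕ) (G : Subgroup E) [G.Normal] (U : Subgroup E) : ℤ :=
  altSum p G (fun σ => (kGe G U σ : ℤ)) - (zGe p G U : ℤ)

lemma card_mul_dl {g : E} (hg : ∀ x : E, ∃ i : ℕ, x⁻¹ * g ^ i ∈ G) (x y : E) :
    (Nat.card G : ℤ) * dl p G (Subgroup.closure {x, y} ⊔ G) =
      A p G x y - (Nat.card G : ℤ) * (Z p G x y : ℤ) := by
  obtain ⟨d, -, h1, h2⟩ := normal_form (F := fun S => w p G (S : Set E)) hg x y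
  have h3 : A p G x y = A p G 1 (g ^ d) := h1
  unfold dl
  rw [mul_sub, zGe_closure]
  congr 1
  rw [h3, ← altSum_kE, h2]
  congr 2
  funext σ
  rw [kGe_zpowers]

/-! ### The formula -/

section formula

variable {a b : ℕ}

lemma pow_coset (hC : Cyc p G) {x x' : E} (h : x⁻¹ * x' ∈ G) (n : ℕ) :
    (x ^ n)⁻¹ * x' ^ n ∈ G := by
  rw [← QuotientGroup.eq, QuotientGroup.mk_pow, QuotientGroup.mk_pow, QuotientGroup.eq.mpr h]

lemma R0_congr (hC : Cyc p G) {H : Subgroup E} (hGH : G ≤ H) {x x' : E} (h : x⁻¹ * x' ∈ G) :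
    R0 a G H x ↔ R0 a G H x' := by
  have h1 : x ∈ H ↔ x' ∈ H := by
    have e : x' = x * (x⁻¹ * x') := by group
    rw [e]
    exact (Subgroup.mul_mem_cancel_right H (hGH h)).symm
  have h2 : x ^ a ∈ G ↔ x' ^ a ∈ G := by
    have h3 := pow_coset hC h a
    have e : x' ^ a = x ^ a * ((x ^ a)⁻¹ * x' ^ a) := by group
    rw [e]
    exact (Subgroup.mul_mem_cancel_right G h3).symm
  unfold R0
  rw [h1, h2]

lemma R1_congr (hC : Cyc p G) {H : Subgroup E} (hGH : G ≤ H) {e₁ x x' : E} (h : x⁻¹ * x' ∈ G) :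
    R1 a G H e₁ x ↔ R1 a G H e₁ x' := by
  have h1 : x ∈ H ↔ x' ∈ H := by
    have e : x' = x * (x⁻¹ * x') := by group
    rw [e]
    exact (Subgroup.mul_mem_cancel_right H (hGH h)).symm
  have h2 : e₁⁻¹ * x ^ a ∈ G ↔ e₁⁻¹ * x' ^ a ∈ G := by
    have h3 := pow_coset hC h a
    have e : e₁⁻¹ * x' ^ a = e₁⁻¹ * x ^ a * ((x ^ a)⁻¹ * x' ^ a) := by group
    rw [e]
    exact (Subgroup.mul_mem_cancel_right G h3).symm
  unfold R1
  rw [h1, h2]

lemma PSum_A (R : E → E → Prop)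
    (hR : ∀ x y x' y', x⁻¹ * x' ∈ G → y⁻¹ * y' ∈ G → (R x y ↔ R x' y')) :
    (Nat.card G : ℤ) ^ 2 * PSum p G R =
      ∑ q ∈ FP E R, A p G q.1 q.2 := by
  rw [PSum_eq_PF, PF_cosets (G := G) _ R hR]
  rfl

lemma combine (hg : ∃ g : E, ∀ x : E, ∃ i : ℕ, x⁻¹ * g ^ i ∈ G) (R : E → E → Prop)
    (hR : ∀ x y x' y', x⁻¹ * x' ∈ G → y⁻¹ * y' ∈ G → (R x y ↔ R x' y')) :
    (Nat.card G : ℤ) * ∑ q ∈ FP E R,
      dl p G (Subgroup.closure {q.1, q.2} ⊔ G) = (Nat.card G : ℤ) ^ 2 * PSum p G R -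
      (Nat.card G : ℤ) * ∑ q ∈ FP E R,
        (Z p G q.1 q.2 : ℤ) := by
  obtain ⟨g, hg⟩ := hg
  rw [PSum_A R hR, Finset.mul_sum, Finset.mul_sum, ← Finset.sum_sub_distrib]
  exact Finset.sum_congr rfl fun q _ => card_mul_dl hg q.1 q.2

/-- a generator of `H` modulo `G` -/
def Gen (G H : Subgroup E) : Prop := ∃ e, H = Subgroup.zpowers e ⊔ G

lemma Gen.sub {H : Subgroup E} (h : Gen G H) (hGH : G ≤ H) :
    ∃ g : H, ∀ x : H, ∃ i : ℕ, x⁻¹ * g ^ i ∈ G.subgroupOf H := by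
  obtain ⟨e, he⟩ := h
  have heH : e ∈ H := by
    rw [he]
    exact Subgroup.mem_sup_left (Subgroup.mem_zpowers e)
  refine ⟨⟨e, heH⟩, fun x => ?_⟩
  have hx : (x : E) ∈ Subgroup.zpowers e ⊔ G := he ▸ x.2
  rw [mem_sup_iff] at hx
  obtain ⟨s, hs, hsG⟩ := hx
  have hfo : IsOfFinOrder e := isOfFinOrder_of_finite _
  obtain ⟨i, hi⟩ := (hfo.mem_powers_iff_mem_zpowers).mpr hs
  refine ⟨i, ?_⟩
  change (x : E)⁻¹ * e ^ i ∈ G
  simp only [] at hi
  rw [hi]
  have := G.inv_mem hsG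
  rwa [mul_inv_rev, inv_inv] at this

lemma ite_cast (P : Prop) [Decidable P] (n : ℕ) :
    (((if P then 0 else n ^ 2 : ℕ)) : ℤ) = if P then (0 : ℤ) else (n : ℤ) ^ 2 := by
  split_ifs <;> simp

lemma defectZero_ite [Fact p.Prime] {H : Subgroup E} (hGH : G ≤ H) (hH : Gen G H) :
    (Nat.card G : ℤ) * (Nat.card H * numDefectZero p H) =
      ∑ theta ∈ (Irr G).filter (fun theta => DZ p theta),
        if p ∣ Nat.card (St G theta ⊓ H : Subgroup E) / Nat.card G then (0 : ℤ)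
          else (Nat.card (St G theta ⊓ H : Subgroup E) : ℤ) ^ 2 := by
  obtain ⟨g, hg⟩ := hH.sub hGH
  have h1 := defectZero_sub (p := p) hGH hg
  have h2 : ((Nat.card G * (Nat.card H * numDefectZero p H) : ℕ) : ℤ) = _ := congrArg _ h1
  push_cast at h2
  rw [h2]
  have h3 : (Irr G).filter (fun theta => DZ p theta ∧
        ¬ p ∣ Nat.card (St G theta ⊓ H : Subgroup E) / Nat.card G) =
      ((Irr G).filter (fun theta => DZ p theta)).filter (fun theta =>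
        ¬ p ∣ Nat.card (St G theta ⊓ H : Subgroup E) / Nat.card G) := by
    ext t
    simp only [Finset.mem_filter]
    tauto
  rw [h3, Finset.sum_filter]
  refine Finset.sum_congr rfl fun t _ => ?_
  by_cases h : p ∣ Nat.card (St G t ⊓ H : Subgroup E) / Nat.card G
  · rw [if_pos h, if_neg (not_not.mpr h)]
  · rw [if_neg h, if_pos h]

theorem formula_none [Fact p.Prime] (hPE : PE p (Nat.card E) a b) (hC : Cyc p G)
    (hg : ∃ g : E, ∀ x : E, ∃ i : ℕ, x⁻¹ * g ^ i ∈ G)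
    {H : Subgroup E} (hGH : G ≤ H) (hH : Gen G H) (hno : ∀ h ∈ H, h ^ p ∈ G → h ∈ G) :
    (Nat.card G : ℤ) * ((Nat.card H : ℤ) * (aK p H - (numDefectZero p H : ℤ))) =
      ∑ q ∈ FP E (fun x y => R0 a G H x ∧ R0 a G H y),
        dl p G (Subgroup.closure {q.1, q.2} ⊔ G) := by
  have h0 : (Nat.card G : ℤ) ≠ 0 := by exact_mod_cast Nat.card_pos.ne'
  apply mul_left_cancel₀ h0
  rw [combine hg (fun x y => R0 a G H x ∧ R0 a G H y) (fun x y x' y' hx hy => by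
    rw [R0_congr hC hGH hx, R0_congr hC hGH hy])]
  have h1 := aK_eq (p := p) H
  rw [PSum_none hPE hGH hno] at h1
  have h2 := defectZero_ite (p := p) hGH hH
  have h3 : ∑ theta ∈ (Irr G).filter (fun theta => DZ p theta),
        (if p ∣ Nat.card (St G theta ⊓ H : Subgroup E) / Nat.card G then (0 : ℤ)
          else (Nat.card (St G theta ⊓ H : Subgroup E) : ℤ) ^ 2) =
      ∑ q ∈ FP E (fun x y => R0 a G H x ∧ R0 a G H y),
        (Z p G q.1 q.2 : ℤ) := by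
    have h4 := sum_Z (p := p) (G := G) (fun x y => R0 a G H x ∧ R0 a G H y)
    have h5 : ((∑ q ∈ FP E (fun x y => R0 a G H x ∧ R0 a G H y),
      Z p G q.1 q.2 : ℕ) : ℤ) = _ := congrArg _ h4
    push_cast at h5
    rw [h5]
    refine Finset.sum_congr rfl fun t ht => ?_
    rw [Finset.mem_filter, mem_Irr] at ht
    have h6 := arith_none hPE (S := St G t ⊓ H) (le_inf (le_St G ht.1.isClass) hGH) inf_le_right hno
    have h7 := congrArg (Nat.cast : ℕ → ℤ) h6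
    rw [ite_cast] at h7
    rw [h7]
    congr 2
    ext q
    simp only [mem_FP, Subgroup.mem_inf]
    constructor
    · rintro ⟨h8, h9, h10⟩
      exact ⟨h8, h9.1, h10.1⟩
    · rintro ⟨h8, h9, h10⟩
      exact ⟨h8, ⟨h9, h8.1.1⟩, ⟨h10, h8.2.1⟩⟩
  rw [h3] at h2
  rw [← h1, ← h2]
  ring

theorem formula_some [Fact p.Prime] (hPE : PE p (Nat.card E) a b) (hC : Cyc p G)
    (hg : ∃ g : E, ∀ x : E, ∃ i : ℕ, x⁻¹ * g ^ i ∈ G)
    {H : Subgroup E} (hGH : G ≤ H) (hH : Gen G H) {e₁ : E} (he1 : e₁ ∈ H) (he2 : e₁ ∉ G)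
    (he3 : e₁ ^ p ∈ G) :
    (Nat.card G : ℤ) * ((Nat.card H : ℤ) * (aK p H - (numDefectZero p H : ℤ))) =
      ∑ q ∈ FP E (fun x y => R0 a G H x ∧ R0 a G H y),
        dl p G (Subgroup.closure {q.1, q.2} ⊔ G) -
      ∑ q ∈ FP E (fun x y => R0 a G H x ∧ R1 a G H e₁ y),
        dl p G (Subgroup.closure {q.1, q.2} ⊔ G) := by
  have h0 : (Nat.card G : ℤ) ≠ 0 := by exact_mod_cast Nat.card_pos.ne'
  apply mul_left_cancel₀ h0
  have c1 := combine (p := p) hg (fun x y => R0 a G H x ∧ R0 a G H y) (fun x y x' y' hx hy => by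
    rw [R0_congr hC hGH hx, R0_congr hC hGH hy])
  have c2 := combine (p := p) hg (fun x y => R0 a G H x ∧ R1 a G H e₁ y)
    (fun x y x' y' hx hy => by rw [R0_congr hC hGH hx, R1_congr hC hGH hy])
  have h1 := aK_eq (p := p) H
  rw [PSum_some hPE hC hGH he1 he2 he3] at h1
  have h2 := defectZero_ite (p := p) hGH hH
  have h3 : ∑ theta ∈ (Irr G).filter (fun theta => DZ p theta),
        (if p ∣ Nat.card (St G theta ⊓ H : Subgroup E) / Nat.card G then (0 : ℤ)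
          else (Nat.card (St G theta ⊓ H : Subgroup E) : ℤ) ^ 2) =
      ∑ q ∈ FP E (fun x y => R0 a G H x ∧ R0 a G H y),
        (Z p G q.1 q.2 : ℤ) -
      ∑ q ∈ FP E (fun x y => R0 a G H x ∧ R1 a G H e₁ y),
        (Z p G q.1 q.2 : ℤ) := by
    have h4 := sum_Z (p := p) (G := G) (fun x y => R0 a G H x ∧ R0 a G H y)
    have h5 : ((∑ q ∈ FP E (fun x y => R0 a G H x ∧ R0 a G H y),
      Z p G q.1 q.2 : ℕ) : ℤ) = _ := congrArg _ h4
    have h4' := sum_Z (p := p) (G := G) (fun x y => R0 a G H x ∧ R1 a G H e₁ y)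
    have h5' : ((∑ q ∈ FP E (fun x y => R0 a G H x ∧ R1 a G H e₁ y),
      Z p G q.1 q.2 : ℕ) : ℤ) = _ := congrArg _ h4'
    push_cast at h5 h5'
    rw [h5, h5', ← Finset.sum_sub_distrib]
    refine Finset.sum_congr rfl fun t ht => ?_
    rw [Finset.mem_filter, mem_Irr] at ht
    rw [arith_some hPE hC (S := St G t ⊓ H) (le_inf (le_St G ht.1.isClass) hGH) inf_le_right he2 he3]
    congr 3
    · ext q
      simp only [mem_FP, Subgroup.mem_inf]
      constructor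
      · rintro ⟨h8, h9, h10⟩
        exact ⟨h8, h9.1, h10.1⟩
      · rintro ⟨h8, h9, h10⟩
        exact ⟨h8, ⟨h9, h8.1.1⟩, ⟨h10, h8.2.1⟩⟩
    · ext q
      simp only [mem_FP, Subgroup.mem_inf]
      constructor
      · rintro ⟨h8, h9, h10⟩
        exact ⟨h8, h9.1, h10.1⟩
      · rintro ⟨h8, h9, h10⟩
        exact ⟨h8, ⟨h9, h8.1.1⟩, ⟨h10, h8.2.1⟩⟩
  rw [h3] at h2
  linear_combination (Nat.card G : ℤ) ^ 2 * h1 - (Nat.card G : ℤ) * h2 - c1 + c2

end formula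

end Pool.Agent.X209.DI
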