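import Pool.Agent.X209.DI.Dgn

/-!
# The `p`-regular part of a cyclic quotient
-/

open scoped Classical BigOperators
open Pool.Agent.Y63.KR Pool.Agent.Helper884.IC Pool.Agent.Y63.AWC

set_option linter.unusedSectionVars false
set_option linter.unusedVariables false

noncomputable section

namespace Pool.Agent.X209.DI

variable {p : ℕ} {E : Type} [Group E] [Fintype E] {G : Subgroup E} [hG : G.Normal] {a b : ℕ}

/-- `N / G` is a `p`-regular subgroup of the abelian group `E / G`, and `y` is a `p`-element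
modulo `G` -/
structure Cfg (p a : ℕ) (G N : Subgroup E) (y : E) : Prop where
  comm : ∀ x z : E, x * z * x⁻¹ * z⁻¹ ∈ G
  le : G ≤ N
  reg : ∀ n ∈ N, n ^ a ∈ G
  pel : y⁻¹ * y ^ a ∈ G

lemma mul_pow_quot (hc : ∀ x z : E, x * z * x⁻¹ * z⁻¹ ∈ G) (x z : E) (n : ℕ) :
    (x ^ n * z ^ n)⁻¹ * (x * z) ^ n ∈ G := by
  rw [← QuotientGroup.eq]
  have h : Commute (x : E ⧸ G) (z : E ⧸ G) := by
    have h1 := (QuotientGroup.eq_one_iff _).mpr (hc x z)
    change (x : E ⧸ G) * z * (x : E ⧸ G)⁻¹ * (z : E ⧸ G)⁻¹ = 1 at h1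
    exact mul_inv_eq_iff_eq_mul.mp (mul_inv_eq_one.mp h1)
  rw [QuotientGroup.mk_mul, QuotientGroup.mk_pow, QuotientGroup.mk_pow, QuotientGroup.mk_pow,
    QuotientGroup.mk_mul, h.mul_pow]

/-- the `p`-part of an element of `yN` is `y` modulo `G` -/
lemma Cfg.ppart {N : Subgroup E} {y : E} (h : Cfg p a G N y) {v : E} (hv : y⁻¹ * v ∈ N) :
    y⁻¹ * v ^ a ∈ G := by
  have h1 := mul_pow_quot h.comm y (y⁻¹ * v) a
  rw [mul_inv_cancel_left] at h1
  have h2 := h.reg _ hv
  have e1 : y⁻¹ * v ^ a = (y⁻¹ * y ^ a) * ((y⁻¹ * v) ^ a * ((y ^ a * (y⁻¹ * v) ^ a)⁻¹ * v ^ a)) := by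
    group
  rw [e1]
  exact G.mul_mem h.pel (G.mul_mem h2 h1)

lemma Cfg.split_mem {N : Subgroup E} {y : E} (h : Cfg p a G N y) {S : Subgroup E} (hS : G ≤ S)
    {v : E} (hv : y⁻¹ * v ∈ N) : v ∈ S ↔ y ∈ S ∧ y⁻¹ * v ∈ S := by
  constructor
  · intro h1
    have h2 := h.ppart hv
    have h3 : y ∈ S := by
      have e1 : y = v ^ a * (y⁻¹ * v ^ a)⁻¹ := by group
      rw [e1]
      exact S.mul_mem (S.pow_mem h1 a) (S.inv_mem (hS h2))
    exact ⟨h3, S.mul_mem (S.inv_mem h3) h1⟩
  · rintro ⟨h1, h2⟩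
    have e1 : v = y * (y⁻¹ * v) := by group
    rw [e1]
    exact S.mul_mem h1 h2

/-- the pairs in `N × yN` with both members in `S` -/
lemma Cfg.card_pairs {N : Subgroup E} {y : E} (h : Cfg p a G N y) {S : Subgroup E} (hS : G ≤ S) :
    (FP E (fun u v => ((1 : E)⁻¹ * u ∈ N ∧ y⁻¹ * v ∈ N) ∧ u ∈ S ∧ v ∈ S)).card =
      if y ∈ S then Nat.card (S ⊓ N : Subgroup E) ^ 2 else 0 := by
  split_ifs with hy
  · rw [sq, Nat.card_eq_fintype_card, ← Fintype.card_prod, ← Fintype.card_coe]
    refine Fintype.card_congr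
      { toFun := fun q => (⟨q.1.1, ?_⟩, ⟨y⁻¹ * q.1.2, ?_⟩)
        invFun := fun q => ⟨((q.1 : E), y * (q.2 : E)), ?_⟩
        left_inv := ?_
        right_inv := ?_ }
    · have h1 := mem_FP.mp q.2
      have h4 : (q.1.1 : E) ∈ N := by simpa only [inv_one, one_mul] using h1.1.1
      exact ⟨h1.2.1, h4⟩
    · have h1 := mem_FP.mp q.2
      exact ⟨((h.split_mem hS h1.1.2).mp h1.2.2).2, h1.1.2⟩
    · rw [mem_FP]
      refine ⟨⟨?_, ?_⟩, q.1.2.1, S.mul_mem hy q.2.2.1⟩
      · change (1 : E)⁻¹ * (q.1 : E) ∈ N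
        rw [inv_one, one_mul]
        exact q.1.2.2
      · change y⁻¹ * (y * (q.2 : E)) ∈ N
        rw [inv_mul_cancel_left]
        exact q.2.2.2
    · intro q
      apply Subtype.ext
      refine Prod.ext rfl ?_
      change y * (y⁻¹ * q.1.2) = q.1.2
      group
    · intro q
      refine Prod.ext (Subtype.ext rfl) (Subtype.ext ?_)
      change y⁻¹ * (y * (q.2 : E)) = q.2
      group
  · rw [Finset.card_eq_zero]
    rw [Finset.eq_empty_iff_forall_notMem]
    intro q hq
    rw [mem_FP] at hq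
    exact hy ((h.split_mem hS hq.1.2).mp hq.2.2).1

/-- summation over the pairs, the characters with the property `P` -/
lemma Cfg.sum_pairs {N : Subgroup E} {y : E} (h : Cfg p a G N y) (P : (G → ℂ) → Prop)
    [DecidablePred P] :
    ∑ q ∈ FP E (fun u v => (1 : E)⁻¹ * u ∈ N ∧ y⁻¹ * v ∈ N),
      ((Irr G).filter fun theta => P theta ∧ q.1 ∈ St G theta ∧ q.2 ∈ St G theta).card =
      ∑ theta ∈ (Irr G).filter (fun theta => P theta ∧ y ∈ St G theta),
        Nat.card (St G theta ⊓ N : Subgroup E) ^ 2 := by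
  have h1 : ∀ theta ∈ Irr G, (if P theta ∧ y ∈ St G theta then
      Nat.card (St G theta ⊓ N : Subgroup E) ^ 2 else 0) =
      if P theta then (FP E (fun u v => ((1 : E)⁻¹ * u ∈ N ∧ y⁻¹ * v ∈ N) ∧
        u ∈ St G theta ∧ v ∈ St G theta)).card else 0 := by
    intro theta ht
    rw [mem_Irr] at ht
    rw [h.card_pairs (le_St G ht.isClass)]
    by_cases h2 : P theta <;> by_cases h3 : y ∈ St G theta <;> simp [h2, h3]
  rw [Finset.sum_filter, Finset.sum_congr rfl h1]
  unfold FP
  simp only [Finset.card_filter]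
  rw [Finset.sum_comm]
  refine Finset.sum_congr rfl fun theta _ => ?_
  by_cases h2 : P theta
  · rw [if_pos h2, Finset.sum_filter]
    refine Finset.sum_congr rfl fun q _ => ?_
    by_cases h3 : (1 : E)⁻¹ * q.1 ∈ N ∧ y⁻¹ * q.2 ∈ N
    · rw [if_pos h3]
      refine if_congr ?_ rfl rfl
      constructor
      · exact fun h4 => ⟨h3, h4.2⟩
      · exact fun h4 => ⟨h2, h4.2⟩
    · rw [if_neg h3, if_neg (fun h4 => h3 h4.1)]
  · rw [if_neg h2]
    apply Finset.sum_eq_zero
    intro q _
    rw [if_neg (fun h4 => h2 h4.1)]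

lemma filt_sum {ι : Type} (s : Finset ι) (P Q : ι → Prop) [DecidablePred P] [DecidablePred Q]
    (h : ∀ i ∈ s, P i ↔ Q i) (f : ι → ℕ) : ∑ i ∈ s.filter P, f i = ∑ i ∈ s.filter Q, f i :=
  Finset.sum_congr (Finset.filter_congr h) fun _ _ => rfl

section dc

variable {X : Type} [Group X] [Fintype X] (M : Subgroup X) [hM : M.Normal]

/-- double counting, one-sided -/
lemma double_count' (P : (X → ℂ) → Prop) (Q : (M → ℂ) → Prop)
    (hPQ : ∀ chi theta, IsIrrChar chi → IsIrrChar theta → mult M chi theta ≠ 0 →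
      P chi → Q theta) :
    ∑ theta ∈ (Irr M).filter Q, ((Irr X).filter fun chi => P chi ∧ mult M chi theta ≠ 0).card *
      Nat.card (St M theta) = Nat.card X * ((Irr X).filter P).card := by
  have h1 : ∀ theta ∈ (Irr M).filter Q,
      ((Irr X).filter fun chi => P chi ∧ mult M chi theta ≠ 0).card * Nat.card (St M theta) =
      ∑ chi ∈ (Irr X).filter P, if mult M chi theta ≠ 0 then Nat.card (St M theta) else 0 := by
    intro theta ht
    rw [← Finset.sum_filter, Finset.sum_const, smul_eq_mul, Finset.filter_filter]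
  rw [Finset.sum_congr rfl h1, Finset.sum_comm]
  have h2 : ∀ chi ∈ (Irr X).filter P, (∑ theta ∈ (Irr M).filter Q,
      if mult M chi theta ≠ 0 then Nat.card (St M theta) else 0) = Nat.card X := by
    intro chi hchi
    rw [Finset.mem_filter, mem_Irr] at hchi
    obtain ⟨theta, ht, hm⟩ := mult_exists M hchi.1
    have h3 : ((Irr M).filter Q).filter (fun t => mult M chi t ≠ 0) = Orb M theta := by
      rw [← support_eq M hchi.1 ht hm]
      ext t
      simp only [Finset.mem_filter]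
      constructor
      · rintro ⟨⟨h4, -⟩, h5⟩
        exact ⟨h4, h5⟩
      · rintro ⟨h4, h5⟩
        exact ⟨⟨h4, hPQ chi t hchi.1 (mem_Irr.mp h4) h5 hchi.2⟩, h5⟩
    rw [← Finset.sum_filter, h3]
    have h4 : ∀ t ∈ Orb M theta, Nat.card (St M t) = Nat.card (St M theta) := by
      intro t hth
      have h5 := card_Orb_mul M theta
      have h6 := card_Orb_mul M t
      have h7 : Orb M t = Orb M theta := by
        have ht' := Orb_irr M ht hth
        have h8 : mult M chi t ≠ 0 := by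
          rw [← support_eq M hchi.1 ht hm, Finset.mem_filter] at hth
          exact hth.2
        rw [← support_eq M hchi.1 ht hm, ← support_eq M hchi.1 ht' h8]
      rw [h7, ← h5] at h6
      have h9 : 0 < (Orb M theta).card := by
        rw [Finset.card_pos]
        exact ⟨_, Finset.mem_image.mpr ⟨1, Finset.mem_univ _, rfl⟩⟩
      exact Nat.eq_of_mul_eq_mul_left h9 h6
    rw [Finset.sum_congr rfl h4, Finset.sum_const, smul_eq_mul, card_Orb_mul]
  rw [Finset.sum_congr rfl h2, Finset.sum_const, smul_eq_mul, mul_comm]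

end dc

/-- transport of sums over characters to a subgroup containing `G` -/
lemma sum_transport {N : Subgroup E} (hGN : G ≤ N) (P : (G → ℂ) → Prop) [DecidablePred P] :
    ∑ theta ∈ (Irr G).filter P, Nat.card (St G theta ⊓ N : Subgroup E) ^ 2 =
      ∑ theta ∈ (Irr (G.subgroupOf N)).filter
        (fun theta => P (fun x => theta ((Subgroup.subgroupOfEquivOfLe hGN).symm x))),
        Nat.card (St (G.subgroupOf N) theta) ^ 2 := by
  set e := Subgroup.subgroupOfEquivOfLe hGN with he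
  have h3 : ∀ theta : G → ℂ, (fun x => (fun y => theta (e y)) (e.symm x)) = theta := by
    intro theta
    funext x
    simp
  have h3' : ∀ theta : G.subgroupOf N → ℂ, (fun x => (fun y => theta (e.symm y)) (e x)) = theta := by
    intro theta
    funext x
    simp
  refine Finset.sum_bij' (fun theta _ => fun x => theta (e x))
    (fun theta _ => fun x => theta (e.symm x)) ?_ ?_ ?_ ?_ ?_
  · intro theta ht
    rw [Finset.mem_filter, mem_Irr] at ht ⊢
    exact ⟨irr_comp e ht.1, by rw [h3]; exact ht.2⟩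
  · intro theta ht
    rw [Finset.mem_filter, mem_Irr] at ht ⊢
    exact ⟨irr_comp e.symm ht.1, ht.2⟩
  · intro theta _
    exact h3 theta
  · intro theta _
    exact h3' theta
  · intro theta _
    rw [card_St_sub]

end Pool.Agent.X209.DI
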