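import Pool.Agent.X209.DI.Mixed

/-!
# The recursion for the `p`-regular part of a cyclic quotient
-/

open scoped Classical BigOperators
open Pool.Agent.Y63.KR Pool.Agent.Helper884.IC Pool.Agent.Y63.AWC

set_option linter.unusedSectionVars false
set_option linter.unusedVariables false

noncomputable section

namespace Pool.Agent.X209.DI

variable {p : ℕ} {E : Type} [Group E] [Fintype E] {G : Subgroup E} [hG : G.Normal] {a b : ℕ}
  {N : Subgroup E} [hN : N.Normal] {y : E}

lemma Cfg.coset (h : Cfg p a G N y) (x z x' z' : E) (hx : x⁻¹ * x' ∈ G) (hz : z⁻¹ * z' ∈ G) :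
    ((1 : E)⁻¹ * x ∈ N ∧ y⁻¹ * z ∈ N) ↔ ((1 : E)⁻¹ * x' ∈ N ∧ y⁻¹ * z' ∈ N) := by
  have e1 : (1 : E)⁻¹ * x' = (1 : E)⁻¹ * x * (x⁻¹ * x') := by group
  have e2 : y⁻¹ * z' = y⁻¹ * z * (z⁻¹ * z') := by group
  rw [e1, e2, Subgroup.mul_mem_cancel_right N (h.le hx), Subgroup.mul_mem_cancel_right N (h.le hz)]

/-- the number of the characters of `N` fixed by `y` -/
lemma Cfg.count_fixed (h : Cfg p a G N y) (hg : ∃ g : E, ∀ x : E, ∃ i : ℕ, x⁻¹ * g ^ i ∈ G) :
    Nat.card G * (Nat.card N * ((Irr N).filter fun chi => y ∈ St N chi).card) =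
      ∑ theta ∈ (Irr G).filter (fun theta => True ∧ y ∈ St G theta),
        Nat.card (St G theta ⊓ N : Subgroup E) ^ 2 := by
  obtain ⟨g, hg⟩ := hg
  have hgN : ∀ x : E, ∃ i : ℕ, x⁻¹ * g ^ i ∈ N := fun x => by
    obtain ⟨i, hi⟩ := hg x
    exact ⟨i, h.le hi⟩
  have f1 := fix2 N hgN 1 y
  have f2 := PF_cosets (G := G) (fun _ => (1 : ℤ)) (fun x z => (1 : E)⁻¹ * x ∈ N ∧ y⁻¹ * z ∈ N)
    h.coset
  have f3 : AF (fun _ => (1 : ℤ)) N 1 y =
      PF (fun _ => (1 : ℤ)) (fun x z => (1 : E)⁻¹ * x ∈ N ∧ y⁻¹ * z ∈ N) := rfl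
  rw [← f3, ← f1] at f2
  have f4 : ∑ q ∈ FP E (fun x z => (1 : E)⁻¹ * x ∈ N ∧ y⁻¹ * z ∈ N),
      AF (fun _ => (1 : ℤ)) G q.1 q.2 = (Nat.card G : ℤ) *
      ((∑ q ∈ FP E (fun u v => (1 : E)⁻¹ * u ∈ N ∧ y⁻¹ * v ∈ N),
        ((Irr G).filter fun theta => True ∧ q.1 ∈ St G theta ∧ q.2 ∈ St G theta).card : ℕ) : ℤ) := by
    push_cast
    rw [Finset.mul_sum]
    refine Finset.sum_congr rfl fun q _ => ?_
    rw [← fix2 G hg q.1 q.2]
    congr 3
    apply Finset.filter_congr
    intro theta _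
    simp
  rw [f4, h.sum_pairs (fun _ => True)] at f2
  have f5 : ((Irr N).filter fun theta => (1 : E) ∈ St N theta ∧ y ∈ St N theta) =
      (Irr N).filter fun theta => y ∈ St N theta := by
    apply Finset.filter_congr
    intro theta _
    exact ⟨fun h1 => h1.2, fun h1 => ⟨(St N theta).one_mem, h1⟩⟩
  rw [f5] at f2
  have h0 : (Nat.card G : ℤ) ≠ 0 := by exact_mod_cast Nat.card_pos.ne'
  have f6 : (Nat.card G : ℤ) * ((Nat.card G * (Nat.card N *
      ((Irr N).filter fun chi => y ∈ St N chi).card) : ℕ) : ℤ) = (Nat.card G : ℤ) *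
      ((∑ theta ∈ (Irr G).filter (fun theta => True ∧ y ∈ St G theta),
        Nat.card (St G theta ⊓ N : Subgroup E) ^ 2 : ℕ) : ℤ) := by
    rw [← f2]
    push_cast
    ring
  exact_mod_cast mul_left_cancel₀ h0 f6

/-- the constituents of a character fixed by `y` -/
lemma Cfg.fixed_of_fixed (h : Cfg p a G N y) {chi : N → ℂ} (hc : IsIrrChar chi)
    {theta : G.subgroupOf N → ℂ} (ht : IsIrrChar theta)
    (hm : mult (G.subgroupOf N) chi theta ≠ 0) (hy : y ∈ St N chi) :
    y ∈ St G (fun x => theta ((Subgroup.subgroupOfEquivOfLe h.le).symm x)) := by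
  set e := Subgroup.subgroupOfEquivOfLe h.le with he
  set th : G → ℂ := fun x => theta (e.symm x) with hth
  have hth' : IsIrrChar th := irr_comp e.symm ht
  set thy : G.subgroupOf N → ℂ := fun m => cj G y th (e m) with hthy
  have hthy' : IsIrrChar thy := irr_comp e (cj_irr G y hth')
  have h1 : mult (G.subgroupOf N) chi thy = mult (G.subgroupOf N) chi theta := by
    have h2 : ((mult (G.subgroupOf N) chi thy : ℕ) : ℂ) =
        ((mult (G.subgroupOf N) chi theta : ℕ) : ℂ) := by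
      rw [← mult_spec (G.subgroupOf N) hc hthy', ← mult_spec (G.subgroupOf N) hc ht]
      unfold B
      congr 1
      let s : G.subgroupOf N ≃ G.subgroupOf N :=
        e.toEquiv.trans ((MulAut.conjNormal y : MulAut G).toEquiv.trans e.symm.toEquiv)
      refine Fintype.sum_equiv s _ _ fun m => ?_
      have hs : s m = e.symm (MulAut.conjNormal y (e m)) := rfl
      congr 1
      · unfold res
        have h3 := congrFun ((mem_St (M := N)).mp hy) (m : N)
        rw [← h3]
        unfold cj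
        congr 1
      · rw [hthy]
        change th (MulAut.conjNormal y (e m⁻¹)) = theta (s m)⁻¹
        rw [hs, hth]
        change theta (e.symm (MulAut.conjNormal y (e m⁻¹))) = _
        rw [map_inv, map_inv, map_inv]
    exact_mod_cast h2
  have h2 : thy ∈ Orb (G.subgroupOf N) theta := by
    rw [← support_eq (G.subgroupOf N) hc ht hm, Finset.mem_filter, mem_Irr]
    exact ⟨hthy', by rw [h1]; exact hm⟩
  obtain ⟨n, -, hn⟩ := Finset.mem_image.mp h2
  have h3 : cj G (n : E) th = cj G y th := by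
    funext x
    have h4 := congrFun hn (e.symm x)
    rw [hthy] at h4
    simp only [MulEquiv.apply_symm_apply] at h4
    rw [← h4, hth]
    unfold cj
    congr 1
  have h4 : (n : E) * y⁻¹ ∈ St G th := by
    rw [mem_St, cj_mul, h3, ← cj_mul, mul_inv_cancel, cj_one]
  have h5 : y * (n : E)⁻¹ ∈ St G th := by
    have := (St G th).inv_mem h4
    rwa [mul_inv_rev, inv_inv] at this
  refine ((h.split_mem (le_St G hth'.isClass) (v := y * (n : E)⁻¹) ?_).mp h5).1
  rw [inv_mul_cancel_left]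
  exact N.inv_mem n.2

lemma gen_sub' (hg : ∃ g : E, ∀ x : E, ∃ i : ℕ, x⁻¹ * g ^ i ∈ G) (hGN : G ≤ N) :
    ∃ g : N, ∀ x : N, ∃ i : ℕ, x⁻¹ * g ^ i ∈ G.subgroupOf N := by
  obtain ⟨g, hg⟩ := hg
  have : IsCyclic (E ⧸ G) := by
    refine ⟨(g : E ⧸ G), fun c => ?_⟩
    obtain ⟨x, rfl⟩ := QuotientGroup.mk_surjective c
    obtain ⟨i, hi⟩ := hg x
    rw [QuotientGroup.eq.mpr hi, QuotientGroup.mk_pow]
    exact Subgroup.pow_mem _ (Subgroup.mem_zpowers _) i
  exact (gen_H hGN).sub hGN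

/-- all characters over a character fixed by `y` are fixed by `y` -/
lemma Cfg.fixed_over (h : Cfg p a G N y) (hg : ∃ g : E, ∀ x : E, ∃ i : ℕ, x⁻¹ * g ^ i ∈ G)
    {chi : N → ℂ} (hc : IsIrrChar chi) {theta : G.subgroupOf N → ℂ} (ht : IsIrrChar theta)
    (hm : mult (G.subgroupOf N) chi theta ≠ 0)
    (hy : y ∈ St G (fun x => theta ((Subgroup.subgroupOfEquivOfLe h.le).symm x))) :
    y ∈ St N chi := by
  obtain ⟨g, hgN⟩ := gen_sub' hg h.le
  let Q : (G.subgroupOf N → ℂ) → Prop :=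
    fun theta => y ∈ St G (fun x => theta ((Subgroup.subgroupOfEquivOfLe h.le).symm x))
  have h1 := double_count' (G.subgroupOf N) (fun chi => y ∈ St N chi) Q
    (fun chi theta h2 h3 h4 h5 => h.fixed_of_fixed h2 h3 h4 h5)
  have h2 := h.count_fixed hg
  rw [sum_transport h.le (fun theta => True ∧ y ∈ St G theta), ← h1] at h2
  have hcard : Nat.card (G.subgroupOf N) = Nat.card G :=
    Nat.card_congr (Subgroup.subgroupOfEquivOfLe h.le).toEquiv
  have h3 : (Irr (G.subgroupOf N)).filter (fun theta => True ∧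
      y ∈ St G (fun x => theta ((Subgroup.subgroupOfEquivOfLe h.le).symm x))) = (Irr (G.subgroupOf N)).filter Q := by
    apply Finset.filter_congr
    intro t _
    simp [Q]
  rw [h3, ← hcard, Finset.mul_sum] at h2
  have h4 : ∀ t ∈ (Irr (G.subgroupOf N)).filter Q, Nat.card (G.subgroupOf N) *
      (((Irr N).filter fun chi => y ∈ St N chi ∧ mult (G.subgroupOf N) chi t ≠ 0).card * Nat.card (St (G.subgroupOf N) t)) ≤
      Nat.card (St (G.subgroupOf N) t) ^ 2 := by
    intro t ht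
    rw [Finset.mem_filter, mem_Irr] at ht
    rw [← mul_assoc, sq]
    apply Nat.mul_le_mul_right
    rw [← nov_eq (G.subgroupOf N) hgN ht.1]
    apply Nat.mul_le_mul_left
    unfold nov
    apply Finset.card_le_card
    intro c hc
    rw [Finset.mem_filter] at hc ⊢
    exact ⟨hc.1, hc.2.2⟩
  have h5 := (Finset.sum_eq_sum_iff_of_le h4).mp h2 theta
    (Finset.mem_filter.mpr ⟨mem_Irr.mpr ht, hy⟩)
  rw [← mul_assoc, sq] at h5
  have h6 := Nat.eq_of_mul_eq_mul_right Nat.card_pos h5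
  rw [← nov_eq (G.subgroupOf N) hgN ht] at h6
  have h7 := Nat.eq_of_mul_eq_mul_left Nat.card_pos h6
  unfold nov at h7
  have h8 : (Irr N).filter (fun chi => y ∈ St N chi ∧ mult (G.subgroupOf N) chi theta ≠ 0) =
      (Irr N).filter (fun chi => mult (G.subgroupOf N) chi theta ≠ 0) := by
    apply Finset.eq_of_subset_of_card_le
    · intro c hc
      rw [Finset.mem_filter] at hc ⊢
      exact ⟨hc.1, hc.2.2⟩
    · rw [h7]
  have h9 : chi ∈ (Irr N).filter (fun chi => y ∈ St N chi ∧ mult (G.subgroupOf N) chi theta ≠ 0) := by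
    rw [h8, Finset.mem_filter, mem_Irr]
    exact ⟨hc, hm⟩
  exact (Finset.mem_filter.mp h9).2.1

lemma not_dvd_quot [hp : Fact p.Prime] {X : Type} [Group X] [Fintype X] {M S : Subgroup X}
    [M.Normal] (hMS : M ≤ S) (hno : ∀ s ∈ S, s ^ p ∈ M → s ∈ M) :
    ¬ p ∣ Nat.card S / Nat.card M := by
  intro h
  have h2 : Nat.card (S ⧸ M.subgroupOf S) = Nat.card S / Nat.card M := by
    have h3 := Subgroup.card_eq_card_quotient_mul_card_subgroup (M.subgroupOf S)
    rw [Nat.card_congr (Subgroup.subgroupOfEquivOfLe hMS).toEquiv] at h3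
    rw [h3]
    exact (Nat.mul_div_cancel _ Nat.card_pos).symm
  rw [← h2] at h
  obtain ⟨c, hc⟩ := exists_prime_orderOf_dvd_card' p h
  obtain ⟨s, rfl⟩ := QuotientGroup.mk_surjective c
  have h4 : s ^ p ∈ M.subgroupOf S := by
    rw [← QuotientGroup.eq_one_iff, QuotientGroup.mk_pow, ← hc, pow_orderOf_eq_one]
  have h5 : (s : X) ∈ M := hno s s.2 h4
  have h6 : (s : S ⧸ M.subgroupOf S) = 1 := (QuotientGroup.eq_one_iff s).mpr h5
  rw [h6, orderOf_one] at hc
  exact hp.out.one_lt.ne hc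

lemma Cfg.no_p [hp : Fact p.Prime] (hPE : PE p (Nat.card E) a b) (h : Cfg p a G N y) {s : E}
    (hs : s ∈ N) (hsp : s ^ p ∈ G) : s ∈ G := by
  have h1 : (s : E ⧸ G) ^ a = (s : E ⧸ G) := by
    apply hPE.self _ _ (quot_pow G _)
    refine ⟨1, ?_⟩
    rw [pow_one, ← QuotientGroup.mk_pow]
    exact (QuotientGroup.eq_one_iff _).mpr hsp
  rw [← QuotientGroup.eq_one_iff, ← h1, ← QuotientGroup.mk_pow, QuotientGroup.eq_one_iff]
  exact h.reg s hs

/-- the recursion for the characters of defect zero -/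
theorem Cfg.Z_rec [hp : Fact p.Prime] (hPE : PE p (Nat.card E) a b) (h : Cfg p a G N y)
    (hg : ∃ g : E, ∀ x : E, ∃ i : ℕ, x⁻¹ * g ^ i ∈ G) :
    ∑ q ∈ FP E (fun u v => (1 : E)⁻¹ * u ∈ N ∧ y⁻¹ * v ∈ N), Z p G q.1 q.2 =
      Nat.card G * (Nat.card N * zGe p N (Subgroup.zpowers y ⊔ N)) := by
  unfold Z
  rw [h.sum_pairs (fun theta => DZ p theta),
    sum_transport h.le (fun theta => DZ p theta ∧ y ∈ St G theta)]
  obtain ⟨g, hgN⟩ := gen_sub' hg h.le
  have hcard : Nat.card (G.subgroupOf N) = Nat.card G :=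
    Nat.card_congr (Subgroup.subgroupOfEquivOfLe h.le).toEquiv
  obtain ⟨P, hP⟩ : ∃ P : (N → ℂ) → Prop, ∀ chi, P chi ↔ (DZ p chi ∧ y ∈ St N chi) :=
    ⟨_, fun _ => Iff.rfl⟩
  obtain ⟨Q, hQ⟩ : ∃ Q : (G.subgroupOf N → ℂ) → Prop, ∀ theta, Q theta ↔
      (DZ p (fun x => theta ((Subgroup.subgroupOfEquivOfLe h.le).symm x)) ∧
      y ∈ St G (fun x => theta ((Subgroup.subgroupOfEquivOfLe h.le).symm x))) :=
    ⟨_, fun _ => Iff.rfl⟩
  have h1 := double_count (G.subgroupOf N) P Q ?_
  · have h2 : zGe p N (Subgroup.zpowers y ⊔ N) = ((Irr N).filter P).card := by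
      unfold zGe
      apply natCard_eq
      intro chi
      rw [Finset.mem_filter, mem_Irr, hP]
      constructor
      · rintro ⟨h3, h4, h5⟩
        exact ⟨h3, h4, h5 (Subgroup.mem_sup_left (Subgroup.mem_zpowers y))⟩
      · rintro ⟨h3, h4, h5⟩
        refine ⟨h3, h4, sup_le ?_ (le_St N h3.isClass)⟩
        rw [Subgroup.zpowers_le]
        exact h5
    rw [h2, ← h1, ← hcard, Finset.mul_sum]
    refine Finset.sum_congr (Finset.filter_congr fun i _ => (hQ i).symm) fun theta ht => ?_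
    rw [Finset.mem_filter, mem_Irr] at ht
    rw [← mul_assoc, nov_eq (G.subgroupOf N) hgN ht.1, sq]
  · intro chi theta hc ht hm
    rw [hP, hQ, DZ_over (G.subgroupOf N) hgN ht hc hm,
      DZ_comp (Subgroup.subgroupOfEquivOfLe h.le).symm theta]
    have h2 : ¬ p ∣ Nat.card (St (G.subgroupOf N) theta) / Nat.card (G.subgroupOf N) := by
      apply not_dvd_quot (le_St (G.subgroupOf N) ht.isClass)
      intro s _ hsp
      exact h.no_p hPE s.2 hsp
    constructor
    · rintro ⟨⟨h3, -⟩, h4⟩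
      exact ⟨h3, h.fixed_of_fixed hc ht hm h4⟩
    · rintro ⟨h3, h4⟩
      exact ⟨⟨h3, h2⟩, h.fixed_over hg hc ht hm h4⟩

/-- the recursion for the sums over commuting pairs -/
lemma Cfg.A_rec [hp : Fact p.Prime] (hPE : PE p (Nat.card E) a b) (h : Cfg p a G N y) :
    A p N 1 y = PSum p G (fun u v => (1 : E)⁻¹ * u ∈ N ∧ y⁻¹ * v ∈ N) := by
  rw [A_def]
  unfold PSum
  refine Finset.sum_congr rfl fun q _ => ?_
  unfold w
  congr 1
  ext P
  rw [mem_Sp, mem_Sp]
  constructor
  · rintro ⟨h2, h3, h4, h5⟩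
    refine ⟨h2, h3, fun x hx => ?_, h5⟩
    obtain ⟨j, hj⟩ := h2 ⟨x, hx⟩
    have h6 : x ^ a = x := hPE.self E x (card_pow x) ⟨j, congrArg Subtype.val hj⟩
    rw [← h6]
    exact h.reg x (h4 hx)
  · rintro ⟨h2, h3, h4, h5⟩
    exact ⟨h2, h3, h4.trans h.le, h5⟩

/-- **The recursion.** -/
theorem Cfg.dl_rec [hp : Fact p.Prime] (hPE : PE p (Nat.card E) a b) (h : Cfg p a G N y)
    (hg : ∃ g : E, ∀ x : E, ∃ i : ℕ, x⁻¹ * g ^ i ∈ G) :
    ∑ q ∈ FP E (fun u v => (1 : E)⁻¹ * u ∈ N ∧ y⁻¹ * v ∈ N),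
      dl p G (Subgroup.closure {q.1, q.2} ⊔ G) =
      (Nat.card G : ℤ) * ((Nat.card N : ℤ) * dl p N (Subgroup.zpowers y ⊔ N)) := by
  have h0 : (Nat.card G : ℤ) ≠ 0 := by exact_mod_cast Nat.card_pos.ne'
  apply mul_left_cancel₀ h0
  rw [combine (p := p) hg (fun u v => (1 : E)⁻¹ * u ∈ N ∧ y⁻¹ * v ∈ N) h.coset, ← h.A_rec hPE]
  have h1 := congrArg (Nat.cast : ℕ → ℤ) (h.Z_rec hPE hg)
  push_cast at h1
  rw [h1]
  have h2 : (Nat.card N : ℤ) * altSum p N (fun σ => (kGe N (Subgroup.zpowers y ⊔ N) σ : ℤ)) =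
      A p N 1 y := by
    rw [← altSum_kE]
    congr 2
    funext σ
    rw [← kGe_zpowers]
  unfold dl
  rw [← h2]
  ring

/-- **From the `p`-parts to arbitrary cyclic sections.** -/
theorem dl_zero_of' [hp : Fact p.Prime] (hPE : PE p (Nat.card E) a b) [IsCyclic (E ⧸ G)] {y : E}
    (hy : y⁻¹ * y ^ a ∈ G)
    {N0 : Subgroup E}
    (hall : ∀ (N : Subgroup E) [N.Normal], N ≤ N0 → G ≤ N → (∀ n ∈ N, n ^ a ∈ G) →
      dl p N (Subgroup.zpowers y ⊔ N) = 0) (hN0 : G ≤ N0) (hreg0 : ∀ n ∈ N0, n ^ a ∈ G) :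
    dl p G (Subgroup.zpowers y ⊔ N0) = 0 := by
  have hg := gen_of_cyclic (E := E) (G := G)
  have hC : Cyc p G := Cyc.of_cyclic
  have main : ∀ n : ℕ, ∀ N : Subgroup E, Nat.card N = n → N ≤ N0 → G ≤ N →
      (∀ n ∈ N, n ^ a ∈ G) → dl p G (Subgroup.zpowers y ⊔ N) = 0 := by
    intro n
    induction n using Nat.strong_induction_on with
    | _ n ih =>
      intro N hn hNN0 hGN hreg
      have hNn : N.Normal := by
        refine ⟨fun x hx z => ?_⟩
        have h1 := conj_ge hC.comm hGN z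
        have h2 := conj_mem_conjSub (g := z) hx
        rwa [h1] at h2
      have h : Cfg p a G N y := ⟨hC.comm, hGN, hreg, hy⟩
      have h1 := h.dl_rec hPE hg
      rw [hall N hNN0 hGN hreg, mul_zero, mul_zero] at h1
      have h2 : ∀ q ∈ FP E (fun u v => (1 : E)⁻¹ * u ∈ N ∧ y⁻¹ * v ∈ N),
          dl p G (Subgroup.closure {q.1, q.2} ⊔ G) =
          if Subgroup.closure {q.1, q.2} ⊔ G = Subgroup.zpowers y ⊔ N then
            dl p G (Subgroup.zpowers y ⊔ N) else 0 := by
        rintro ⟨u, v⟩ hq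
        rw [mem_FP] at hq
        obtain ⟨hu, hv⟩ := hq
        simp only [inv_one, one_mul] at hu hv
        split_ifs with h3
        · rw [h3]
        · set W := Subgroup.closure {u, v} ⊔ G with hW
          have hGW : G ≤ W := le_sup_right
          have hvW : v ∈ W := Subgroup.mem_sup_left closure_pair_right
          have huW : u ∈ W := Subgroup.mem_sup_left closure_pair_left
          obtain ⟨hyW, hvy⟩ := (h.split_mem hGW hv).mp hvW
          have hWe : W = Subgroup.zpowers y ⊔ (W ⊓ N) := by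
            apply le_antisymm
            · refine sup_le (pair_le_iff.mpr ⟨?_, ?_⟩) (le_trans (le_inf hGW hGN) le_sup_right)
              · exact Subgroup.mem_sup_right ⟨huW, hu⟩
              · have e1 : v = y * (y⁻¹ * v) := by group
                rw [e1]
                exact Subgroup.mul_mem _ (Subgroup.mem_sup_left (Subgroup.mem_zpowers y))
                  (Subgroup.mem_sup_right ⟨hvy, hv⟩)
            · refine sup_le ?_ inf_le_left
              rw [Subgroup.zpowers_le]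
              exact hyW
          have hlt : W ⊓ N < N := by
            refine lt_of_le_of_ne inf_le_right fun h4 => h3 ?_
            rw [hWe, h4]
          rw [hWe]
          refine ih (Nat.card ↥(W ⊓ N)) ?_ (W ⊓ N) rfl (inf_le_right.trans hNN0) (le_inf hGW hGN)
            fun n hn => hreg n hn.2
          rw [← hn]
          exact Set.Finite.card_lt_card (Set.toFinite _) (SetLike.coe_ssubset_coe.mpr hlt)
      rw [Finset.sum_congr rfl h2, ← Finset.sum_filter, Finset.sum_const, nsmul_eq_mul] at h1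
      rcases mul_eq_zero.mp h1 with h3 | h3
      · exfalso
        obtain ⟨n0, hn0⟩ := gen_H (G := G) hGN
        have hn0N : n0 ∈ N := by
          rw [hn0]
          exact Subgroup.mem_sup_left (Subgroup.mem_zpowers n0)
        have h4 : (n0, y) ∈ (FP E (fun u v => (1 : E)⁻¹ * u ∈ N ∧ y⁻¹ * v ∈ N)).filter
            (fun q => Subgroup.closure {q.1, q.2} ⊔ G = Subgroup.zpowers y ⊔ N) := by
          rw [Finset.mem_filter, mem_FP]
          refine ⟨⟨?_, ?_⟩, ?_⟩
          · change (1 : E)⁻¹ * n0 ∈ N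
            rw [inv_one, one_mul]
            exact hn0N
          · change y⁻¹ * y ∈ N
            rw [inv_mul_cancel]
            exact N.one_mem
          · change Subgroup.closure {n0, y} ⊔ G = Subgroup.zpowers y ⊔ N
            apply le_antisymm
            · exact sup_le (pair_le_iff.mpr ⟨Subgroup.mem_sup_right hn0N,
                Subgroup.mem_sup_left (Subgroup.mem_zpowers y)⟩) (hGN.trans le_sup_right)
            · refine sup_le ?_ ?_
              · rw [Subgroup.zpowers_le]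
                exact Subgroup.mem_sup_left closure_pair_right
              · conv_lhs => rw [hn0]
                refine sup_le ?_ le_sup_right
                rw [Subgroup.zpowers_le]
                exact Subgroup.mem_sup_left closure_pair_left
        have h5 := Finset.card_pos.mpr ⟨_, h4⟩
        have h6 : ((FP E (fun u v => (1 : E)⁻¹ * u ∈ N ∧ y⁻¹ * v ∈ N)).filter
            (fun q => Subgroup.closure {q.1, q.2} ⊔ G = Subgroup.zpowers y ⊔ N)).card = 0 := by
          exact_mod_cast h3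
        omega
      · exact h3
  exact main _ N0 rfl le_rfl hN0 hreg0

end Pool.Agent.X209.DI
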