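import Pool.Agent.X209.DI.IdxP

/-!
# Extensions by `p`-groups: the formula over elementary abelian subgroups
-/

open scoped Classical BigOperators
open Pool.Agent.Y63.KR Pool.Agent.Helper884.IC Pool.Agent.Y63.AWC

set_option linter.unusedSectionVars false
set_option linter.unusedVariables false

noncomputable section

namespace Pool.Agent.X209.DI

variable {p : ℕ} {E : Type} [Group E] [Fintype E]

/-- invariants of finite groups which satisfy the formula for normal subgroups of index `p` -/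
structure Good (p : ℕ) (ψ : (H : Type) → [Group H] → ℤ) : Prop where
  iso : ∀ (A B : Type) [Group A] [Group B] [Fintype A] [Fintype B], (A ≃* B) → ψ A = ψ B
  top : ∀ (A : Type) [Group A] [Fintype A] (G : Subgroup A) [G.Normal], Nat.card (A ⧸ G) = p →
    ∀ e : A, e ∉ G → (Nat.card A : ℤ) * ψ A = (Nat.card G : ℤ) * ψ G -
      ∑ q ∈ Qe p G e, (Nat.card ↥(G ⊓ Cq q) : ℤ) * ψ ↥(G ⊓ Cq q)

/-- `|K| ψ(K)` -/
def fK (ψ : (H : Type) → [Group H] → ℤ) (K : Subgroup E) : ℤ := (Nat.card K : ℤ) * ψ K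

/-- the centraliser of `q` in `M`, in a subgroup -/
def centEquiv' {M H : Subgroup E} (hMH : M ≤ H) (q : H) :
    ↥(M.subgroupOf H ⊓ Cq q) ≃* ↥(M ⊓ Cq (q : E)) where
  toFun x := ⟨x.1.1, x.2.1, mem_Cq.mpr (congrArg Subtype.val (mem_Cq.mp x.2.2))⟩
  invFun x := ⟨⟨x.1, hMH x.2.1⟩, x.2.1, mem_Cq.mpr (Subtype.ext (mem_Cq.mp x.2.2))⟩
  left_inv x := rfl
  right_inv x := rfl
  map_mul' x y := rfl

/-- the elements of order `p` in the coset `e M` -/
def Te (p : ℕ) (M : Subgroup E) (e : E) : Finset E :=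
  Finset.univ.filter fun q => q ^ p = 1 ∧ e⁻¹ * q ∈ M

lemma mem_Te {M : Subgroup E} {e q : E} : q ∈ Te p M e ↔ q ^ p = 1 ∧ e⁻¹ * q ∈ M := by
  simp [Te]

lemma not_mem_coset {M : Subgroup E} {e q : E} (he : e ∉ M) (hq : e⁻¹ * q ∈ M) : q ∉ M := by
  intro h
  apply he
  have e1 : e = q * (e⁻¹ * q)⁻¹ := by group
  rw [e1]
  exact M.mul_mem h (M.inv_mem hq)

/-- powers of an element of order `p` outside `M` -/
lemma pow_mem_iff [hp : Fact p.Prime] {M : Subgroup E} {q : E} (hq : q ^ p = 1) (hqM : q ∉ M)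
    {i : ℤ} (hi : q ^ i ∈ M) : q ^ i = 1 := by
  by_contra hne
  apply hqM
  have hq1 : q ≠ 1 := fun h => hqM (h ▸ M.one_mem)
  have hord := order_eq_p (p := p) hq hq1
  have h9 : orderOf (q ^ i) = p := by
    apply orderOf_eq_prime _ hne
    rw [← zpow_natCast, ← zpow_mul, mul_comm, zpow_mul, zpow_natCast, hq, one_zpow]
  have h10 : Subgroup.zpowers (q ^ i) = Subgroup.zpowers q := by
    apply Subgroup.eq_of_le_of_card_ge
    · rw [Subgroup.zpowers_le]
      exact Subgroup.zpow_mem _ (Subgroup.mem_zpowers q) _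
    · rw [Nat.card_zpowers, Nat.card_zpowers, h9, hord]
  have h11 : q ∈ Subgroup.zpowers (q ^ i) := by
    rw [h10]; exact Subgroup.mem_zpowers q
  exact (Subgroup.zpowers_le.mpr hi) h11

theorem fK_index [hp : Fact p.Prime] {ψ : (H : Type) → [Group H] → ℤ} (hψ : Good p ψ)
    {M H : Subgroup E} (hMH : M ≤ H)
    (hn : (M.subgroupOf H).Normal) (hidx : M.relIndex H = p) {e : E} (heH : e ∈ H) (he : e ∉ M) :
    fK ψ H = fK ψ M - ∑ q ∈ Te p M e, fK ψ (M ⊓ Cq q) := by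
  have he' : (⟨e, heH⟩ : H) ∉ M.subgroupOf H := fun h => he h
  have h1 := hψ.top H (M.subgroupOf H) hidx ⟨e, heH⟩ he'
  have h2 := hψ.iso _ _ (Subgroup.subgroupOfEquivOfLe hMH)
  have h3 := Nat.card_congr (Subgroup.subgroupOfEquivOfLe hMH).toEquiv
  rw [h2, h3] at h1
  unfold fK
  rw [h1]
  congr 1
  refine Finset.sum_bij' (fun q _ => (q : E)) (fun q hq => (⟨q, ?_⟩ : H)) ?_ ?_ ?_ ?_ ?_
  · have h4 := (mem_Te.mp hq).2
    have e1 : q = e * (e⁻¹ * q) := by group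
    rw [e1]
    exact H.mul_mem heH (hMH h4)
  · intro q hq
    rw [mem_Qe] at hq
    obtain ⟨_, h4, h5⟩ := hq
    rw [mem_Te]
    refine ⟨?_, h5⟩
    have h6 : q ^ p ∈ M.subgroupOf H := by
      rw [← QuotientGroup.eq_one_iff, QuotientGroup.mk_pow]
      have h := pow_card_eq_one' (x := (q : H ⧸ M.subgroupOf H))
      have e2 : Nat.card (H ⧸ M.subgroupOf H) = p := hidx
      rwa [e2] at h
    exact congrArg Subtype.val (h4 p h6)
  · intro q hq
    rw [mem_Te] at hq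
    rw [mem_Qe]
    refine ⟨⟨1, Subtype.ext (by rw [pow_one]; exact hq.1)⟩, fun i hi => Subtype.ext ?_, hq.2⟩
    have h4 : q ^ i ∈ M := hi
    have h5 := pow_mem_iff hq.1 (not_mem_coset he hq.2) (i := (i : ℤ)) (by rwa [zpow_natCast])
    rwa [zpow_natCast] at h5
  · intro q _
    rfl
  · intro q _
    rfl
  · intro q _
    rw [Nat.card_congr (centEquiv' hMH q).toEquiv, hψ.iso _ _ (centEquiv' hMH q)]

/-- elementary abelian `p`-subgroups -/
structure ElAb (p : ℕ) (Q : Subgroup E) : Prop where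
  pow : ∀ x ∈ Q, x ^ p = 1
  comm : ∀ x ∈ Q, ∀ y ∈ Q, x * y = y * x

/-- elementary abelian subgroups of `H` meeting `N` trivially -/
def EA (p : ℕ) (H N : Subgroup E) : Finset (Subgroup E) :=
  Finset.univ.filter fun Q => Q ≤ H ∧ Q ⊓ N = ⊥ ∧ ElAb p Q

lemma mem_EA {H N Q : Subgroup E} : Q ∈ EA p H N ↔ Q ≤ H ∧ Q ⊓ N = ⊥ ∧ ElAb p Q := by
  simp [EA]

/-- the rank -/
def rk (p : ℕ) (Q : Subgroup E) : ℕ := (Nat.card Q).factorization p

/-- the Möbius function -/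
def mob (p : ℕ) (Q : Subgroup E) : ℤ := (-1) ^ rk p Q * (p : ℤ) ^ (rk p Q).choose 2

/-- the centraliser of a subgroup -/
abbrev CQ (Q : Subgroup E) : Subgroup E := Subgroup.centralizer (Q : Set E)

lemma mem_CQ {Q : Subgroup E} {x : E} : x ∈ CQ Q ↔ ∀ q ∈ Q, q * x = x * q :=
  Subgroup.mem_centralizer_iff

lemma CQ_sup {q : E} {Q : Subgroup E} : CQ (Subgroup.zpowers q ⊔ Q) = Cq q ⊓ CQ Q := by
  apply le_antisymm
  · intro x hx
    rw [mem_CQ] at hx
    refine ⟨mem_Cq.mpr ?_, mem_CQ.mpr fun y hy => hx y (Subgroup.mem_sup_right hy)⟩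
    exact (hx q (Subgroup.mem_sup_left (Subgroup.mem_zpowers q))).symm
  · rintro x ⟨hx1, hx2⟩
    have h1 : Subgroup.zpowers q ⊔ Q ≤ Cq x := by
      refine sup_le ?_ ?_
      · rw [Subgroup.zpowers_le, mem_Cq]
        exact (mem_Cq.mp hx1).symm
      · intro y hy
        rw [mem_Cq]
        exact mem_CQ.mp hx2 y hy
    rw [mem_CQ]
    intro y hy
    exact mem_Cq.mp (h1 hy)

/-- elements of `⟨q⟩ Q` for commuting `q`, `Q` -/
lemma mem_zp_sup {q : E} {Q : Subgroup E} (hc : ∀ x ∈ Q, x * q = q * x) {y : E} :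
    y ∈ Subgroup.zpowers q ⊔ Q ↔ ∃ i : ℤ, ∃ x ∈ Q, y = q ^ i * x := by
  constructor
  · intro hy
    have hn : Subgroup.zpowers q ≤ Subgroup.normalizer (Q : Set E) := by
      rw [Subgroup.zpowers_le]
      apply Subgroup.centralizer_le_normalizer
      rw [Subgroup.mem_centralizer_iff]
      intro x hx
      exact hc x hx
    have h1 : y ∈ ((Subgroup.zpowers q ⊔ Q : Subgroup E) : Set E) := hy
    rw [Subgroup.coe_mul_of_left_le_normalizer_right _ _ hn] at h1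
    obtain ⟨z, hz, x, hx, rfl⟩ := h1
    obtain ⟨i, rfl⟩ := Subgroup.mem_zpowers_iff.mp hz
    exact ⟨i, x, hx, rfl⟩
  · rintro ⟨i, x, hx, rfl⟩
    exact Subgroup.mul_mem _ (Subgroup.mem_sup_left (Subgroup.zpow_mem _
      (Subgroup.mem_zpowers q) i)) (Subgroup.mem_sup_right hx)

lemma ElAb.of_le {Q R : Subgroup E} (h : ElAb p R) (hQ : Q ≤ R) : ElAb p Q :=
  ⟨fun x hx => h.pow x (hQ hx), fun x hx y hy => h.comm x (hQ hx) y (hQ hy)⟩

lemma ElAb.sup {q : E} {Q : Subgroup E} (h : ElAb p Q) (hq : q ^ p = 1)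
    (hc : ∀ x ∈ Q, x * q = q * x) : ElAb p (Subgroup.zpowers q ⊔ Q) := by
  have hcc : ∀ x ∈ Q, ∀ i : ℤ, x * q ^ i = q ^ i * x := fun x hx i =>
    ((show Commute x q from hc x hx).zpow_right i).eq
  constructor
  · intro y hy
    obtain ⟨i, x, hx, rfl⟩ := (mem_zp_sup hc).mp hy
    rw [(show Commute (q ^ i) x from (hcc x hx i).symm).mul_pow, h.pow x hx, mul_one,
      ← zpow_natCast, ← zpow_mul, mul_comm, zpow_mul, zpow_natCast, hq, one_zpow]
  · intro y hy z hz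
    obtain ⟨i, x, hx, rfl⟩ := (mem_zp_sup hc).mp hy
    obtain ⟨j, x', hx', rfl⟩ := (mem_zp_sup hc).mp hz
    have h1 : Commute (q ^ i) (q ^ j) := (Commute.refl q).zpow_zpow i j
    have h2 : Commute (q ^ i) x' := (hcc x' hx' i).symm
    have h3 : Commute x (q ^ j) := hcc x hx j
    have h4 : Commute x x' := h.comm x hx x' hx'
    exact ((h1.mul_right h2).mul_left (h3.mul_right h4)).eq

lemma ElAb.pgroup {Q : Subgroup E} (h : ElAb p Q) : IsPGroup p Q := by
  rintro ⟨x, hx⟩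
  refine ⟨1, Subtype.ext ?_⟩
  change x ^ p ^ 1 = 1
  rw [pow_one]
  exact h.pow x hx

end Pool.Agent.X209.DI
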