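import Pool.Agent.X209.DI.Mob

/-!
# The formula over elementary abelian subgroups: the induction
-/

open scoped Classical BigOperators
open Pool.Agent.Y63.KR Pool.Agent.Helper884.IC Pool.Agent.Y63.AWC

set_option linter.unusedSectionVars false
set_option linter.unusedVariables false

noncomputable section

namespace Pool.Agent.X209.DI

variable {p : ℕ} {E : Type} [Group E] [Fintype E]

/-- the fibre over `R` -/
def Fb (M : Subgroup E) (e : E) (R : Subgroup E) : Finset E :=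
  Finset.univ.filter fun q => q ∈ R ∧ e⁻¹ * q ∈ M

lemma mem_Fb {M : Subgroup E} {e : E} {R : Subgroup E} {q : E} :
    q ∈ Fb M e R ↔ q ∈ R ∧ e⁻¹ * q ∈ M := by
  simp [Fb]

/-- the situation of a normal subgroup of index `p` -/
structure Ix (p : ℕ) (M H : Subgroup E) (e : E) : Prop where
  le : M ≤ H
  normal : ∀ h ∈ H, ∀ m ∈ M, h * m * h⁻¹ ∈ M
  mem : e ∈ H
  notMem : e ∉ M
  gen : ∀ x ∈ H, ∀ y ∈ H, y ∉ M → ∃ i : ℕ, x⁻¹ * y ^ i ∈ M

lemma Ix.coset {M H : Subgroup E} {e : E} (h : Ix p M H e) {x y : E} (hx : x ∈ H) (hy : y ∈ H)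
    (h1 : e⁻¹ * x ∈ M) : (e⁻¹ * y ∈ M ↔ x⁻¹ * y ∈ M) := by
  constructor
  · intro h2
    have e1 : x⁻¹ * y = (e⁻¹ * x)⁻¹ * (e⁻¹ * y) := by group
    rw [e1]
    exact M.mul_mem (M.inv_mem h1) h2
  · intro h2
    have e1 : e⁻¹ * y = (e⁻¹ * x) * (x⁻¹ * y) := by group
    rw [e1]
    exact M.mul_mem h1 h2

/-- the fibre is a coset of `R ∩ M` -/
lemma card_Fb {M H : Subgroup E} {e : E} (h : Ix p M H e) {R : Subgroup E} (hR : R ≤ H)
    (hRM : ¬ R ≤ M) : (Fb M e R).card = Nat.card ↥(R ⊓ M) := by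
  obtain ⟨y, hyR, hyM⟩ := Set.not_subset.mp hRM
  obtain ⟨i, hi⟩ := h.gen e h.mem y (hR hyR) hyM
  have hq : y ^ i ∈ R := R.pow_mem hyR i
  have : Fintype ↥(R ⊓ M) := Fintype.ofFinite _
  rw [Nat.card_eq_fintype_card, ← Finset.card_univ]
  symm
  refine Finset.card_bij (fun x _ => y ^ i * (x : E)) ?_ ?_ ?_
  · intro x _
    rw [mem_Fb]
    refine ⟨R.mul_mem hq x.2.1, ?_⟩
    rw [← mul_assoc]
    exact M.mul_mem hi x.2.2
  · intro x _ x' _ hxx
    exact Subtype.ext (mul_left_cancel hxx)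
  · intro z hz
    rw [mem_Fb] at hz
    refine ⟨⟨(y ^ i)⁻¹ * z, R.mul_mem (R.inv_mem hq) hz.1, ?_⟩, Finset.mem_univ _, ?_⟩
    · exact (h.coset (hR hq) (hR hz.1) hi).mp hz.2
    · exact mul_inv_cancel_left _ _

/-- the order of `⟨q⟩ Q` -/
lemma card_sup [hp : Fact p.Prime] {M : Subgroup E} {q : E} {Q : Subgroup E} (hq : q ^ p = 1)
    (hqM : q ∉ M) (hQM : Q ≤ M) (hc : ∀ x ∈ Q, x * q = q * x) :
    Nat.card ↥(Subgroup.zpowers q ⊔ Q) = p * Nat.card Q := by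
  have hq1 : q ≠ 1 := fun h => hqM (h ▸ M.one_mem)
  have hord := order_eq_p (p := p) hq hq1
  have h1 : Function.Bijective (fun z : Subgroup.zpowers q × Q =>
      (⟨z.1 * z.2, Subgroup.mul_mem _ (Subgroup.mem_sup_left z.1.2)
        (Subgroup.mem_sup_right z.2.2)⟩ : ↥(Subgroup.zpowers q ⊔ Q))) := by
    constructor
    · rintro ⟨⟨a, ha⟩, ⟨b, hb⟩⟩ ⟨⟨a', ha'⟩, ⟨b', hb'⟩⟩ h
      have h2 : a * b = a' * b' := congrArg Subtype.val h
      obtain ⟨i, rfl⟩ := Subgroup.mem_zpowers_iff.mp ha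
      obtain ⟨j, rfl⟩ := Subgroup.mem_zpowers_iff.mp ha'
      have h4 : q ^ (-j + i) = b' * b⁻¹ := by
        rw [zpow_add, zpow_neg]
        apply mul_left_cancel (a := q ^ j)
        rw [mul_inv_cancel_left]
        apply mul_right_cancel (b := b)
        rw [h2]
        group
      have h5 : q ^ (-j + i) ∈ M := by
        rw [h4]
        exact M.mul_mem (hQM hb') (M.inv_mem (hQM hb))
      have h6 := pow_mem_iff hq hqM h5
      rw [h6] at h4
      have h7 : b = b' := (mul_inv_eq_one.mp h4.symm).symm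
      subst h7
      have h8 : q ^ i = q ^ j := mul_right_cancel h2
      exact Prod.ext (Subtype.ext h8) rfl
    · rintro ⟨y, hy⟩
      obtain ⟨i, x, hx, rfl⟩ := (mem_zp_sup hc).mp hy
      exact ⟨(⟨q ^ i, Subgroup.zpow_mem _ (Subgroup.mem_zpowers q) i⟩, ⟨x, hx⟩), rfl⟩
  rw [← Nat.card_congr (Equiv.ofBijective _ h1), Nat.card_prod, Nat.card_zpowers, hord]

/-- `⟨q⟩ Q ∩ M = Q` -/
lemma sup_inf [hp : Fact p.Prime] {M : Subgroup E} {q : E} {Q : Subgroup E} (hq : q ^ p = 1)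
    (hqM : q ∉ M) (hQM : Q ≤ M) (hc : ∀ x ∈ Q, x * q = q * x) :
    (Subgroup.zpowers q ⊔ Q) ⊓ M = Q := by
  apply le_antisymm
  · rintro y ⟨hy, hyM⟩
    obtain ⟨i, x, hx, rfl⟩ := (mem_zp_sup hc).mp hy
    have h1 : q ^ i ∈ M := (Subgroup.mul_mem_cancel_right M (hQM hx)).mp hyM
    rw [pow_mem_iff hq hqM h1, one_mul]
    exact hx
  · exact le_inf le_sup_right hQM

lemma mob_step [hp : Fact p.Prime] {R Q : Subgroup E} (hQ : ElAb p Q)
    (hcard : Nat.card R = p * Nat.card Q) : mob p R = -((Nat.card Q : ℤ) * mob p Q) := by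
  obtain ⟨t, ht⟩ := IsPGroup.iff_card.mp hQ.pgroup
  have h1 : rk p Q = t := by
    unfold rk
    rw [ht, Nat.Prime.factorization_pow hp.out, Finsupp.single_eq_same]
  have h2 : rk p R = t + 1 := by
    unfold rk
    rw [hcard, ht, ← pow_succ', Nat.Prime.factorization_pow hp.out, Finsupp.single_eq_same]
  unfold mob
  rw [h1, h2, ht, Nat.choose_succ_succ', Nat.choose_one_right]
  push_cast
  ring

/-- the sum over the elementary abelian subgroups not contained in `M` -/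
theorem sum_outer [hp : Fact p.Prime] (ψ : (H : Type) → [Group H] → ℤ) {N M H : Subgroup E} {e : E} (h : Ix p M H e) (hNM : N ≤ M) :
    ∑ q ∈ Te p M e, ∑ Q ∈ EA p (M ⊓ Cq q) (N ⊓ Cq q), mob p Q * fK ψ (N ⊓ Cq q ⊓ CQ Q) =
      -∑ R ∈ (EA p H N).filter (fun R => ¬ R ≤ M), mob p R * fK ψ (N ⊓ CQ R) := by
  have h1 : ∀ R ∈ (EA p H N).filter (fun R => ¬ R ≤ M), mob p R * fK ψ (N ⊓ CQ R) =
      -∑ q ∈ Fb M e R, mob p (R ⊓ M) * fK ψ (N ⊓ CQ R) := by
    intro R hR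
    rw [Finset.mem_filter, mem_EA] at hR
    obtain ⟨⟨h2, h3, h4⟩, h5⟩ := hR
    rw [Finset.sum_const, card_Fb h h2 h5, nsmul_eq_mul]
    have h6 : ∃ q ∈ R, e⁻¹ * q ∈ M := by
      have h7 : 0 < (Fb M e R).card := by
        rw [card_Fb h h2 h5]
        exact Nat.card_pos
      obtain ⟨q, hq⟩ := Finset.card_pos.mp h7
      exact ⟨q, mem_Fb.mp hq⟩
    obtain ⟨q, hqR, hq⟩ := h6
    have hqM : q ∉ M := not_mem_coset h.notMem hq
    have hc : ∀ x ∈ R ⊓ M, x * q = q * x := fun x hx => h4.comm x hx.1 q hqR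
    have hsup : Subgroup.zpowers q ⊔ (R ⊓ M) = R := by
      apply le_antisymm
      · exact sup_le (by rw [Subgroup.zpowers_le]; exact hqR) inf_le_left
      · intro r hr
        obtain ⟨i, hi⟩ := h.gen r (h2 hr) q (h2 hqR) hqM
        have hi2 : (q ^ i)⁻¹ * r ∈ M := by
          have h8 := M.inv_mem hi
          have e1 : (r⁻¹ * q ^ i)⁻¹ = (q ^ i)⁻¹ * r := by group
          rwa [e1] at h8
        rw [mem_zp_sup hc]
        refine ⟨i, (q ^ i)⁻¹ * r, ⟨R.mul_mem (R.inv_mem (R.pow_mem hqR i)) hr, hi2⟩, ?_⟩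
        rw [zpow_natCast, mul_inv_cancel_left]
    have hcard := card_sup (M := M) (h4.pow q hqR) hqM inf_le_right hc
    rw [hsup] at hcard
    rw [mob_step (h4.of_le inf_le_left) hcard]
    ring
  rw [Finset.sum_congr rfl h1, Finset.sum_neg_distrib, neg_neg, Finset.sum_sigma',
    Finset.sum_sigma']
  refine Finset.sum_bij' (fun s _ => ⟨Subgroup.zpowers s.1 ⊔ s.2, s.1⟩)
    (fun s _ => ⟨s.2, s.1 ⊓ M⟩) ?_ ?_ ?_ ?_ ?_
  · rintro ⟨q, Q⟩ hs
    rw [Finset.mem_sigma, mem_Te, mem_EA] at hs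
    obtain ⟨⟨hq, hqe⟩, hQM, hQN, hQ⟩ := hs
    simp only [] at hq hqe hQM hQN hQ
    have hqM : q ∉ M := not_mem_coset h.notMem hqe
    have hc : ∀ x ∈ Q, x * q = q * x := fun x hx => mem_Cq.mp (hQM hx).2
    have hQM' : Q ≤ M := hQM.trans inf_le_left
    have hqH : q ∈ H := by
      have e1 : q = e * (e⁻¹ * q) := by group
      rw [e1]
      exact H.mul_mem h.mem (h.le hqe)
    rw [Finset.mem_sigma, Finset.mem_filter, mem_EA, mem_Fb]
    refine ⟨⟨⟨?_, ?_, hQ.sup hq hc⟩, ?_⟩, ?_, hqe⟩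
    · exact sup_le (by rw [Subgroup.zpowers_le]; exact hqH) (hQM'.trans h.le)
    · rw [eq_bot_iff]
      rintro x ⟨hx, hxN⟩
      have h2 : x ∈ (Subgroup.zpowers q ⊔ Q) ⊓ M := ⟨hx, hNM hxN⟩
      rw [sup_inf hq hqM hQM' hc] at h2
      have h3 : x ∈ Q ⊓ (N ⊓ Cq q) := ⟨h2, hxN, (hQM h2).2⟩
      rwa [hQN] at h3
    · intro h2
      exact hqM (h2 (Subgroup.mem_sup_left (Subgroup.mem_zpowers q)))
    · exact Subgroup.mem_sup_left (Subgroup.mem_zpowers q)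
  · rintro ⟨R, q⟩ hs
    rw [Finset.mem_sigma, Finset.mem_filter, mem_EA, mem_Fb] at hs
    obtain ⟨⟨⟨h2, h3, h4⟩, h5⟩, h6, h7⟩ := hs
    simp only [] at h2 h3 h4 h5 h6 h7
    rw [Finset.mem_sigma, mem_Te, mem_EA]
    refine ⟨⟨h4.pow q h6, h7⟩, ?_, ?_, h4.of_le inf_le_left⟩
    · intro x hx
      exact ⟨hx.2, mem_Cq.mpr (h4.comm x hx.1 q h6)⟩
    · rw [eq_bot_iff, ← h3]
      intro x hx
      exact ⟨hx.1.1, hx.2.1⟩
  · rintro ⟨q, Q⟩ hs
    rw [Finset.mem_sigma, mem_Te, mem_EA] at hs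
    obtain ⟨⟨hq, hqe⟩, hQM, hQN, hQ⟩ := hs
    simp only [] at hq hqe hQM hQN hQ
    have hqM : q ∉ M := not_mem_coset h.notMem hqe
    have hc : ∀ x ∈ Q, x * q = q * x := fun x hx => mem_Cq.mp (hQM hx).2
    have hQM' : Q ≤ M := hQM.trans inf_le_left
    simp only []
    rw [sup_inf hq hqM hQM' hc]
  · rintro ⟨R, q⟩ hs
    rw [Finset.mem_sigma, Finset.mem_filter, mem_EA, mem_Fb] at hs
    obtain ⟨⟨⟨h2, h3, h4⟩, h5⟩, h6, h7⟩ := hs
    simp only [] at h2 h3 h4 h5 h6 h7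
    have hqM : q ∉ M := not_mem_coset h.notMem h7
    have hc : ∀ x ∈ R ⊓ M, x * q = q * x := fun x hx => h4.comm x hx.1 q h6
    have hsup : Subgroup.zpowers q ⊔ (R ⊓ M) = R := by
      apply le_antisymm
      · exact sup_le (by rw [Subgroup.zpowers_le]; exact h6) inf_le_left
      · intro r hr
        obtain ⟨i, hi⟩ := h.gen r (h2 hr) q (h2 h6) hqM
        have hi2 : (q ^ i)⁻¹ * r ∈ M := by
          have h8 := M.inv_mem hi
          have e1 : (r⁻¹ * q ^ i)⁻¹ = (q ^ i)⁻¹ * r := by group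
          rwa [e1] at h8
        rw [mem_zp_sup hc]
        refine ⟨i, (q ^ i)⁻¹ * r, ⟨R.mul_mem (R.inv_mem (R.pow_mem h6 i)) hr, hi2⟩, ?_⟩
        rw [zpow_natCast, mul_inv_cancel_left]
    simp only []
    rw [hsup]
  · rintro ⟨q, Q⟩ hs
    rw [Finset.mem_sigma, mem_Te, mem_EA] at hs
    obtain ⟨⟨hq, hqe⟩, hQM, hQN, hQ⟩ := hs
    simp only [] at hq hqe hQM hQN hQ
    have hqM : q ∉ M := not_mem_coset h.notMem hqe
    have hc : ∀ x ∈ Q, x * q = q * x := fun x hx => mem_Cq.mp (hQM hx).2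
    have hQM' : Q ≤ M := hQM.trans inf_le_left
    simp only []
    rw [sup_inf hq hqM hQM' hc, CQ_sup, inf_assoc]

end Pool.Agent.X209.DI
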