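import Pool.Agent.X209.DI.Mob2

/-!
# The formula over elementary abelian subgroups: the theorem
-/

open scoped Classical BigOperators
open Pool.Agent.Y63.KR Pool.Agent.Helper884.IC Pool.Agent.Y63.AWC

set_option linter.unusedSectionVars false
set_option linter.unusedVariables false

noncomputable section

namespace Pool.Agent.X209.DI

variable {p : ℕ} {E : Type} [Group E] [Fintype E]

lemma EA_self {N : Subgroup E} : EA p N N = {⊥} := by
  ext Q
  rw [mem_EA, Finset.mem_singleton]
  constructor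
  · rintro ⟨h1, h2, _⟩
    rw [inf_eq_left.mpr h1] at h2
    exact h2
  · rintro rfl
    refine ⟨bot_le, bot_inf_eq _, ?_, ?_⟩
    · intro x hx
      rw [Subgroup.mem_bot.mp hx, one_pow]
    · intro x hx y hy
      rw [Subgroup.mem_bot.mp hx, Subgroup.mem_bot.mp hy]

lemma mob_bot : mob p (⊥ : Subgroup E) = 1 := by
  unfold mob rk
  rw [Subgroup.card_bot]
  simp

lemma CQ_bot : CQ (⊥ : Subgroup E) = ⊤ := by
  rw [eq_top_iff]
  intro x _
  rw [mem_CQ]
  intro q hq
  rw [Subgroup.mem_bot.mp hq, one_mul, mul_one]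

/-- a normal subgroup of index `p` above `N` -/
lemma exists_index [hp : Fact p.Prime] {N H : Subgroup E} (hNH : N ≤ H)
    (hn : ∀ h ∈ H, ∀ m ∈ N, h * m * h⁻¹ ∈ N) {n : ℕ} (hidx : N.relIndex H = p ^ (n + 1)) :
    ∃ (M : Subgroup E) (e : E), N ≤ M ∧ Ix p M H e ∧ (M.subgroupOf H).Normal ∧
      M.relIndex H = p ∧ N.relIndex M = p ^ n := by
  have hN : (N.subgroupOf H).Normal := by
    constructor
    intro m hm h
    exact hn h h.2 m hm
  have hcard : Nat.card (H ⧸ N.subgroupOf H) = p ^ (n + 1) := hidx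
  obtain ⟨K, hK⟩ := Sylow.exists_subgroup_card_pow_prime (G := H ⧸ N.subgroupOf H) p (n := n)
    (by rw [hcard]; exact pow_dvd_pow p (Nat.le_succ n))
  have hKi : K.index = p := by
    have h1 := K.card_mul_index
    rw [hK, hcard, pow_succ] at h1
    exact Nat.eq_of_mul_eq_mul_left (pow_pos hp.out.pos n) h1
  have hKn : K.Normal := by
    apply Subgroup.normal_of_index_eq_minFac_card
    rw [hKi, hcard, Nat.Prime.pow_minFac hp.out (Nat.succ_ne_zero n)]
  set M' : Subgroup H := K.comap (QuotientGroup.mk' (N.subgroupOf H)) with hM'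
  have hM'n : M'.Normal := hKn.comap _
  set M : Subgroup E := M'.map H.subtype with hM
  have hMH : M.subgroupOf H = M' := Subgroup.comap_map_eq_self_of_injective H.subtype_injective _
  have hMle : M ≤ H := by
    rintro _ ⟨x, _, rfl⟩
    exact x.2
  have hNM : N ≤ M := by
    intro x hx
    refine ⟨⟨x, hNH hx⟩, ?_, rfl⟩
    change QuotientGroup.mk' (N.subgroupOf H) ⟨x, hNH hx⟩ ∈ K
    have h1 : QuotientGroup.mk' (N.subgroupOf H) ⟨x, hNH hx⟩ = 1 :=
      (QuotientGroup.eq_one_iff _).mpr hx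
    rw [h1]
    exact K.one_mem
  have hrel : M.relIndex H = p := by
    change (M.subgroupOf H).index = p
    rw [hMH, hM', Subgroup.index_comap_of_surjective _ (QuotientGroup.mk'_surjective _), hKi]
  have hnle : ¬ H ≤ M := by
    intro h
    have h1 := Subgroup.relIndex_eq_one.mpr h
    rw [hrel] at h1
    exact hp.out.one_lt.ne' h1
  obtain ⟨e, heH, heM⟩ := Set.not_subset.mp hnle
  have hnorm : (M.subgroupOf H).Normal := by rw [hMH]; exact hM'n
  refine ⟨M, e, hNM, ⟨hMle, ?_, heH, heM, ?_⟩, hnorm, hrel, ?_⟩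
  · intro h hh m hm
    exact hnorm.conj_mem ⟨m, hMle hm⟩ hm ⟨h, hh⟩
  · intro x hx y hy hyM
    have hcq : Nat.card (H ⧸ M.subgroupOf H) = p := hrel
    have hcyc : IsCyclic (H ⧸ M.subgroupOf H) := isCyclic_of_prime_card hcq
    have hC : Cyc p (M.subgroupOf H) := Cyc.of_cyclic
    have hep : ∀ x : H, x ^ p ∈ M.subgroupOf H := by
      intro x
      rw [← QuotientGroup.eq_one_iff, QuotientGroup.mk_pow]
      have h := pow_card_eq_one' (x := (x : H ⧸ M.subgroupOf H))
      rwa [hcq] at h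
    obtain ⟨i, hi⟩ := hC.uniq ⟨x, hx⟩ ⟨y, hy⟩ hyM (hep _) (hep _)
    exact ⟨i, hi⟩
  · have h1 := Subgroup.relIndex_mul_relIndex N M H hNM hMle
    rw [hrel, hidx, pow_succ] at h1
    exact Nat.eq_of_mul_eq_mul_right hp.out.pos h1

/-- **The formula.** -/
theorem fK_formula [hp : Fact p.Prime] {ψ : (H : Type) → [Group H] → ℤ} (hψ : Good p ψ) :
    ∀ (n : ℕ) (H N : Subgroup E), N ≤ H →
    (∀ h ∈ H, ∀ m ∈ N, h * m * h⁻¹ ∈ N) → N.relIndex H ∣ p ^ n →
    fK ψ H = ∑ Q ∈ EA p H N, mob p Q * fK ψ (N ⊓ CQ Q) := by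
  intro n
  induction n with
  | zero =>
    intro H N hNH hn hd
    rw [pow_zero, Nat.dvd_one, Subgroup.relIndex_eq_one] at hd
    have h1 : H = N := le_antisymm hd hNH
    subst h1
    rw [EA_self, Finset.sum_singleton, mob_bot, CQ_bot, inf_top_eq, one_mul]
  | succ n ih =>
    intro H N hNH hn hd
    obtain ⟨m, hm, hm2⟩ := (Nat.dvd_prime_pow hp.out).mp hd
    rcases Nat.lt_or_ge m (n + 1) with hlt | hge
    · exact ih H N hNH hn (by rw [hm2]; exact pow_dvd_pow p (by omega))
    · have hm3 : m = n + 1 := by omega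
      subst hm3
      obtain ⟨M, e, hNM, hI, hnorm, hrel, hrelN⟩ := exists_index hNH hn hm2
      rw [fK_index hψ hI.le hnorm hrel hI.mem hI.notMem]
      rw [ih M N hNM (fun h hh => hn h (hI.le hh)) (by rw [hrelN])]
      have h1 : ∀ q ∈ Te p M e, fK ψ (M ⊓ Cq q) =
          ∑ Q ∈ EA p (M ⊓ Cq q) (N ⊓ Cq q), mob p Q * fK ψ (N ⊓ Cq q ⊓ CQ Q) := by
        intro q _
        apply ih (M ⊓ Cq q) (N ⊓ Cq q) (inf_le_inf_right _ hNM)
        · intro h hh m hm
          exact ⟨hn h (hI.le hh.1) m hm.1, (Cq q).mul_mem ((Cq q).mul_mem hh.2 hm.2)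
            ((Cq q).inv_mem hh.2)⟩
        · have e1 : N ⊓ Cq q = N ⊓ (M ⊓ Cq q) := by
            rw [← inf_assoc, inf_eq_left.mpr hNM]
          rw [e1, Subgroup.inf_relIndex_right, ← hrelN]
          have hN' : (N.subgroupOf M).Normal := by
            constructor
            intro m hm h
            exact hn h (hI.le h.2) m hm
          have h2 := Subgroup.relIndex_dvd_index_of_normal (N.subgroupOf M)
            ((M ⊓ Cq q).subgroupOf M)
          rwa [Subgroup.relIndex_subgroupOf inf_le_left] at h2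
      rw [Finset.sum_congr rfl h1, sum_outer ψ hI hNM, sub_neg_eq_add]
      have h3 : EA p M N = (EA p H N).filter (fun R => R ≤ M) := by
        ext Q
        rw [Finset.mem_filter, mem_EA, mem_EA]
        constructor
        · rintro ⟨h4, h5, h6⟩
          exact ⟨⟨h4.trans hI.le, h5, h6⟩, h4⟩
        · rintro ⟨⟨_, h5, h6⟩, h4⟩
          exact ⟨h4, h5, h6⟩
      rw [h3]
      exact Finset.sum_filter_add_sum_filter_not _ _ _

/-- the formula for a normal subgroup `G` of `E` of `p`-power index -/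
theorem good_formula [hp : Fact p.Prime] {ψ : (H : Type) → [Group H] → ℤ} (hψ : Good p ψ)
    {G : Subgroup E} [hG : G.Normal] (h : IsPGroup p (E ⧸ G)) :
    (Nat.card E : ℤ) * ψ E = ∑ Q ∈ EA p ⊤ G, mob p Q * fK ψ (G ⊓ CQ Q) := by
  obtain ⟨n, hn⟩ := IsPGroup.iff_card.mp h
  have h1 := fK_formula hψ n ⊤ G le_top (fun h _ m hm => hG.conj_mem m hm h) (by
    rw [Subgroup.relIndex_top_right]
    exact dvd_of_eq hn)
  rw [← h1]
  unfold fK
  rw [Subgroup.card_top, hψ.iso _ _ Subgroup.topEquiv]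

lemma good_aK [hp : Fact p.Prime] : Good p (fun H _ => aK p H) := by
  constructor
  · intro A B _ _ _ _ e
    exact aK_congr e
  · intro A _ _ G _ hidx e he
    exact aK_index hidx he

lemma good_z [hp : Fact p.Prime] : Good p (fun H _ => (numDefectZero p H : ℤ)) := by
  constructor
  · intro A B _ _ _ _ e
    rw [numDefectZero_congr e]
  · intro A _ _ G _ hidx e he
    exact z_index hidx he

lemma good_kd [hp : Fact p.Prime] : Good p (fun H _ => kd p H) := by
  constructor
  · intro A B _ _ _ _ e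
    exact kd_congr e
  · intro A _ _ G _ hidx e he
    exact kd_index hidx he

end Pool.Agent.X209.DI
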