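import Pool.Agent.X209.DI.Mob3

/-!
# Consequences of the formula over elementary abelian subgroups
-/

open scoped Classical BigOperators
open Pool.Agent.Y63.KR Pool.Agent.Helper884.IC Pool.Agent.Y63.AWC

set_option linter.unusedSectionVars false
set_option linter.unusedVariables false

noncomputable section

namespace Pool.Agent.X209.DI

variable {p : ℕ} {E : Type} [Group E] [Fintype E]

lemma CQ_sup' {Q Q' : Subgroup E} : CQ (Q ⊔ Q') = CQ Q ⊓ CQ Q' := by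
  ext x
  have key : ∀ R : Subgroup E, x ∈ CQ R ↔ R ≤ Cq x := by
    intro R
    rw [mem_CQ]
    constructor
    · intro h q hq
      exact mem_Cq.mpr (h q hq)
    · intro h q hq
      exact mem_Cq.mp (h hq)
  rw [Subgroup.mem_inf, key, key, key, sup_le_iff]

lemma ElAb.sup' {Q Q' : Subgroup E} (h : ElAb p Q) (h' : ElAb p Q') (hc : Q' ≤ CQ Q) :
    ElAb p (Q ⊔ Q') := by
  have hle : Q ⊔ Q' ≤ CQ (Q ⊔ Q') := by
    rw [CQ_sup']
    refine sup_le (le_inf ?_ ?_) (le_inf hc ?_)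
    · intro x hx
      exact mem_CQ.mpr fun q hq => h.comm q hq x hx
    · intro x hx
      refine mem_CQ.mpr fun q hq => ?_
      exact (mem_CQ.mp (hc hq) x hx).symm
    · intro x hx
      exact mem_CQ.mpr fun q hq => h'.comm q hq x hx
  have hcomm : ∀ x ∈ Q ⊔ Q', ∀ y ∈ Q ⊔ Q', x * y = y * x := fun x hx y hy =>
    mem_CQ.mp (hle hy) x hx
  let P : Subgroup E :=
    { carrier := {x | x ∈ Q ⊔ Q' ∧ x ^ p = 1}
      one_mem' := ⟨Subgroup.one_mem _, one_pow p⟩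
      mul_mem' := fun {x y} hx hy => ⟨Subgroup.mul_mem _ hx.1 hy.1, by
        rw [(show Commute x y from hcomm x hx.1 y hy.1).mul_pow, hx.2, hy.2, one_mul]⟩
      inv_mem' := fun {x} hx => ⟨Subgroup.inv_mem _ hx.1, by rw [inv_pow, hx.2, inv_one]⟩ }
  have hP : Q ⊔ Q' ≤ P := sup_le (fun x hx => ⟨Subgroup.mem_sup_left hx, h.pow x hx⟩)
    (fun x hx => ⟨Subgroup.mem_sup_right hx, h'.pow x hx⟩)
  exact ⟨fun x hx => (hP hx).2, hcomm⟩

/-- a nontrivial intersection with `G` gives a normal `p`-subgroup of the centraliser -/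
lemma kd_inf [hp : Fact p.Prime] {G R : Subgroup E} (hR : ElAb p R) (h : R ⊓ G ≠ ⊥) :
    ∃ S : Subgroup ↥(G ⊓ CQ R), S.Normal ∧ IsPGroup p S ∧ S ≠ ⊥ := by
  have hle : R ⊓ G ≤ G ⊓ CQ R := fun x hx =>
    ⟨hx.2, mem_CQ.mpr fun q hq => hR.comm q hq x hx.1⟩
  refine ⟨(R ⊓ G).subgroupOf (G ⊓ CQ R), ?_, ?_, ?_⟩
  · constructor
    intro x hx y
    have h1 : (y : E) * x * (y : E)⁻¹ = x := by
      rw [← mem_CQ.mp y.2.2 x hx.1, mul_inv_cancel_right]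
    change (y : E) * x * (y : E)⁻¹ ∈ R ⊓ G
    rw [h1]
    exact hx
  · exact (hR.of_le inf_le_left).pgroup.comap_subtype
  · intro h2
    apply h
    rw [Subgroup.subgroupOf_eq_bot] at h2
    rw [eq_bot_iff]
    intro x hx
    exact h2.le_bot ⟨hx, hle hx⟩

/-- the formula for centralisers of elementary abelian subgroups -/
theorem kd_cent [hp : Fact p.Prime] {G : Subgroup E} [hG : G.Normal] (h : IsPGroup p (E ⧸ G))
    (hK : ∀ Q : Subgroup E, ElAb p Q → Q ⊓ G = ⊥ →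
      (∀ S : Subgroup ↥(G ⊓ CQ Q), S.Normal → IsPGroup p S → S = ⊥) → kd p ↥(G ⊓ CQ Q) = 0)
    {H : Subgroup E} (hGH : G ≤ H) {Q : Subgroup E} (hQ : ElAb p Q) : kd p ↥(H ⊓ CQ Q) = 0 := by
  obtain ⟨n, hn⟩ := IsPGroup.iff_card.mp h
  have h1 := fK_formula (good_kd (p := p)) n (H ⊓ CQ Q) (G ⊓ CQ Q) (inf_le_inf_right _ hGH)
    (fun x hx m hm => ⟨hG.conj_mem m hm.1 x, (CQ Q).mul_mem ((CQ Q).mul_mem hx.2 hm.2)
      ((CQ Q).inv_mem hx.2)⟩) (by
      have e1 : G ⊓ CQ Q = G ⊓ (H ⊓ CQ Q) := by rw [← inf_assoc, inf_eq_left.mpr hGH]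
      rw [e1, Subgroup.inf_relIndex_right]
      exact (Subgroup.relIndex_dvd_index_of_normal G (H ⊓ CQ Q)).trans (dvd_of_eq hn))
  have h2 : fK (fun H _ => kd p H) (H ⊓ CQ Q) = 0 := by
    rw [h1]
    apply Finset.sum_eq_zero
    intro Q' hQ'
    rw [mem_EA] at hQ'
    obtain ⟨h3, h4, h5⟩ := hQ'
    have h6 : ElAb p (Q ⊔ Q') := hQ.sup' h5 (h3.trans inf_le_right)
    have h7 : G ⊓ CQ Q ⊓ CQ Q' = G ⊓ CQ (Q ⊔ Q') := by rw [CQ_sup', inf_assoc]
    have h8 : kd p ↥(G ⊓ CQ (Q ⊔ Q')) = 0 := by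
      by_cases hS : ∀ S : Subgroup ↥(G ⊓ CQ (Q ⊔ Q')), S.Normal → IsPGroup p S → S = ⊥
      · refine hK _ h6 ?_ hS
        by_contra hne
        obtain ⟨S, hS1, hS2, hS3⟩ := kd_inf h6 hne
        exact hS3 (hS S hS1 hS2)
      · push Not at hS
        obtain ⟨S, hS1, hS2, hS3⟩ := hS
        exact kd_normal hS2 hS1 hS3
    unfold fK
    rw [h7]
    change mob p Q' * ((Nat.card ↥(G ⊓ CQ (Q ⊔ Q')) : ℤ) * kd p ↥(G ⊓ CQ (Q ⊔ Q'))) = 0
    rw [h8, mul_zero, mul_zero]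
  unfold fK at h2
  have h0 : (Nat.card ↥(H ⊓ CQ Q) : ℤ) ≠ 0 := by exact_mod_cast Nat.card_pos.ne'
  exact (mul_eq_zero_iff_left h0).mp h2

/-- only the term of the trivial subgroup -/
theorem kd_single [hp : Fact p.Prime] {G : Subgroup E} [hG : G.Normal] (h : IsPGroup p (E ⧸ G))
    (hK : ∀ Q : Subgroup E, Q ≠ ⊥ → ElAb p Q → Q ⊓ G = ⊥ →
      (∀ S : Subgroup ↥(G ⊓ CQ Q), S.Normal → IsPGroup p S → S = ⊥) → kd p ↥(G ⊓ CQ Q) = 0) :
    (Nat.card E : ℤ) * kd p E = (Nat.card G : ℤ) * kd p G := by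
  have h1 := good_formula (good_kd (p := p)) h
  change (Nat.card E : ℤ) * kd p E = _ at h1
  rw [h1, Finset.sum_eq_single ⊥]
  · rw [mob_bot, one_mul, CQ_bot, inf_top_eq]
    rfl
  · intro Q hQ hne
    rw [mem_EA] at hQ
    obtain ⟨h3, h4, h5⟩ := hQ
    have h8 : kd p ↥(G ⊓ CQ Q) = 0 := by
      by_cases hS : ∀ S : Subgroup ↥(G ⊓ CQ Q), S.Normal → IsPGroup p S → S = ⊥
      · exact hK Q hne h5 h4 hS
      · push Not at hS
        obtain ⟨S, hS1, hS2, hS3⟩ := hS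
        exact kd_normal hS2 hS1 hS3
    unfold fK
    change mob p Q * ((Nat.card ↥(G ⊓ CQ Q) : ℤ) * kd p ↥(G ⊓ CQ Q)) = 0
    rw [h8, mul_zero, mul_zero]
  · intro h2
    exfalso
    apply h2
    rw [mem_EA]
    refine ⟨bot_le, bot_inf_eq _, ?_, ?_⟩
    · intro x hx
      rw [Subgroup.mem_bot.mp hx, one_pow]
    · intro x hx y hy
      rw [Subgroup.mem_bot.mp hx, Subgroup.mem_bot.mp hy]

end Pool.Agent.X209.DI
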