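import Pool.Agent.X209.DI.Sum

/-!
# The sums over commuting pairs in two cosets
-/

open scoped Classical BigOperators
open Pool.Agent.Y63.KR

set_option linter.unusedSectionVars false
set_option linter.unusedVariables false

noncomputable section

namespace Pool.Agent.X209.DI

variable {p : ℕ} {E : Type} [Group E] [Fintype E] {G : Subgroup E} [hG : G.Normal]

/-- the sum of a function of subgroups over commuting pairs -/
def PF (F : Subgroup E → ℤ) (R : E → E → Prop) : ℤ :=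
  ∑ q ∈ CP E R, F (Subgroup.closure {q.1, q.2})

lemma PSum_eq_PF (R : E → E → Prop) :
    PSum p G R = PF (fun S => w p G (S : Set E)) R := by
  unfold PSum PF
  refine Finset.sum_congr rfl fun q _ => ?_
  apply w_closure
  rw [Subgroup.closure_eq]

/-- the sum over the commuting pairs in `uG × vG` -/
def AF (F : Subgroup E → ℤ) (G : Subgroup E) (u v : E) : ℤ :=
  PF F (fun x y => u⁻¹ * x ∈ G ∧ v⁻¹ * y ∈ G)

variable {F : Subgroup E → ℤ}

lemma AF_symm (u v : E) : AF F G u v = AF F G v u := by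
  unfold AF PF
  refine Finset.sum_bij' (fun q _ => (q.2, q.1)) (fun q _ => (q.2, q.1)) ?_ ?_ ?_ ?_ ?_
  · intro q hq
    rw [mem_CP] at hq ⊢
    exact ⟨hq.1.symm, hq.2.2, hq.2.1⟩
  · intro q hq
    rw [mem_CP] at hq ⊢
    exact ⟨hq.1.symm, hq.2.2, hq.2.1⟩
  · intro q _
    rfl
  · intro q _
    rfl
  · intro q _
    change F (Subgroup.closure {q.1, q.2}) = F (Subgroup.closure {q.2, q.1})
    rw [Set.pair_comm]

lemma AF_mul (u v : E) : AF F G u v = AF F G u (u * v) := by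
  unfold AF PF
  refine Finset.sum_bij' (fun q _ => (q.1, q.1 * q.2)) (fun q _ => (q.1, q.1⁻¹ * q.2)) ?_ ?_ ?_ ?_ ?_
  · rintro ⟨x, y⟩ hq
    rw [mem_CP] at hq ⊢
    obtain ⟨h1, h2, h3⟩ := hq
    simp only [] at h1 h2 h3 ⊢
    refine ⟨by rw [mul_assoc, ← h1], h2, ?_⟩
    have h4 := G.mul_mem (hG.conj_mem _ h2 v⁻¹) h3
    have e : (u * v)⁻¹ * (x * y) = v⁻¹ * (u⁻¹ * x) * v⁻¹⁻¹ * (v⁻¹ * y) := by group
    rw [e]
    exact h4
  · rintro ⟨x, y⟩ hq
    rw [mem_CP] at hq ⊢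
    obtain ⟨h1, h2, h3⟩ := hq
    simp only [] at h1 h2 h3 ⊢
    refine ⟨by rw [mul_inv_cancel_left, mul_assoc, ← h1, inv_mul_cancel_left], h2, ?_⟩
    have h4 := hG.conj_mem _ h2 v⁻¹
    have e : v⁻¹ * (x⁻¹ * y) = (v⁻¹ * (u⁻¹ * x) * v⁻¹⁻¹)⁻¹ * ((u * v)⁻¹ * y) := by group
    rw [e]
    exact G.mul_mem (G.inv_mem h4) h3
  · rintro ⟨x, y⟩ _
    simp
  · rintro ⟨x, y⟩ _
    simp
  · rintro ⟨x, y⟩ _
    change F (Subgroup.closure {x, y}) = F (Subgroup.closure {x, x * y})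
    congr 1
    apply le_antisymm
    · rw [Subgroup.closure_le]
      rintro z (rfl | hz)
      · exact closure_pair_left
      · rw [Set.mem_singleton_iff.mp hz]
        have h5 := Subgroup.mul_mem _ (Subgroup.inv_mem _ (closure_pair_left (x := x) (y := x * y)))
          (closure_pair_right (x := x) (y := x * y))
        rwa [inv_mul_cancel_left] at h5
    · rw [Subgroup.closure_le]
      rintro z (rfl | hz)
      · exact closure_pair_left
      · rw [Set.mem_singleton_iff.mp hz]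
        exact Subgroup.mul_mem _ closure_pair_left closure_pair_right

lemma coset_iff {u u' x : E} (h : u⁻¹ * u' ∈ G) : u⁻¹ * x ∈ G ↔ u'⁻¹ * x ∈ G := by
  have e : u⁻¹ * x = (u⁻¹ * u') * (u'⁻¹ * x) := by group
  rw [e]
  exact Subgroup.mul_mem_cancel_left G h

lemma AF_congr {u v u' v' : E} (hu : u⁻¹ * u' ∈ G) (hv : v⁻¹ * v' ∈ G) :
    AF F G u v = AF F G u' v' := by
  unfold AF PF
  apply Finset.sum_congr _ fun _ _ => rfl
  ext q
  rw [mem_CP, mem_CP, coset_iff hu, coset_iff hv]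

lemma AF_pow (u v : E) (k : ℕ) : AF F G u (u ^ k * v) = AF F G u v := by
  induction k with
  | zero => rw [pow_zero, one_mul]
  | succ k ih => rw [pow_succ', mul_assoc, ← AF_mul, ih]

lemma AF_gcd (g : E) (i j : ℕ) : AF F G (g ^ i) (g ^ j) = AF F G 1 (g ^ Nat.gcd i j) := by
  induction i, j using Nat.gcd.induction with
  | H0 n => rw [Nat.gcd_zero_left, pow_zero]
  | H1 m n _ ih =>
    have h1 : g ^ n = (g ^ m) ^ (n / m) * g ^ (n % m) := by
      rw [← pow_mul, ← pow_add, Nat.div_add_mod]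
    rw [h1, AF_pow, AF_symm, ih, ← Nat.gcd_rec]

lemma mem_sup_iff {S : Subgroup E} {y : E} : y ∈ S ⊔ G ↔ ∃ s ∈ S, s⁻¹ * y ∈ G := by
  constructor
  · intro h
    have h1 : y ∈ ((S ⊔ G : Subgroup E) : Set E) := h
    rw [Subgroup.mul_normal] at h1
    obtain ⟨s, hs, t, ht, rfl⟩ := h1
    refine ⟨s, hs, ?_⟩
    simpa using ht
  · rintro ⟨s, hs, h⟩
    have e : y = s * (s⁻¹ * y) := by group
    rw [e]
    exact Subgroup.mul_mem _ (Subgroup.mem_sup_left hs) (Subgroup.mem_sup_right h)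

/-- normal form of the pairs of cosets in a cyclic group -/
lemma normal_form {g : E} (hg : ∀ x : E, ∃ i : ℕ, x⁻¹ * g ^ i ∈ G) (u v : E) :
    ∃ d, d ∣ Nat.card (E ⧸ G) ∧ AF F G u v = AF F G 1 (g ^ d) ∧
      Subgroup.closure {u, v} ⊔ G = Subgroup.zpowers (g ^ d) ⊔ G := by
  set N := Nat.card (E ⧸ G) with hN
  have hgN : g ^ N ∈ G := by
    rw [← QuotientGroup.eq_one_iff, QuotientGroup.mk_pow, hN]
    exact pow_card_eq_one'
  obtain ⟨i, hi⟩ := hg u
  obtain ⟨j, hj⟩ := hg v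
  refine ⟨Nat.gcd N (Nat.gcd i j), Nat.gcd_dvd_left _ _, ?_, ?_⟩
  · rw [AF_congr hi hj, AF_gcd, ← AF_gcd g N]
    apply AF_congr
    · simpa using hgN
    · simp [G.one_mem]
  · have hinv : ∀ {x y : E}, x⁻¹ * y ∈ G → y⁻¹ * x ∈ G := by
      intro x y h
      have := G.inv_mem h
      rwa [mul_inv_rev, inv_inv] at this
    apply le_antisymm
    · refine sup_le ?_ le_sup_right
      rw [Subgroup.closure_le]
      have key : ∀ x : E, ∀ k : ℕ, x⁻¹ * g ^ k ∈ G → Nat.gcd N (Nat.gcd i j) ∣ k →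
          x ∈ Subgroup.zpowers (g ^ Nat.gcd N (Nat.gcd i j)) ⊔ G := by
        rintro x k hx ⟨c, hc⟩
        rw [mem_sup_iff]
        refine ⟨g ^ k, ?_, hinv hx⟩
        rw [hc, pow_mul]
        exact Subgroup.pow_mem _ (Subgroup.mem_zpowers _) c
      rintro z (rfl | hz)
      · exact key z i hi ((Nat.gcd_dvd_right _ _).trans (Nat.gcd_dvd_left _ _))
      · rw [Set.mem_singleton_iff.mp hz]
        exact key v j hj ((Nat.gcd_dvd_right _ _).trans (Nat.gcd_dvd_right _ _))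
    · refine sup_le ?_ le_sup_right
      rw [Subgroup.zpowers_le]
      have h1 : ∀ k l : ℕ, g ^ k ∈ Subgroup.closure {u, v} ⊔ G → g ^ l ∈ Subgroup.closure {u, v} ⊔ G →
          g ^ Nat.gcd k l ∈ Subgroup.closure {u, v} ⊔ G := by
        intro k l hk hl
        rw [← zpow_natCast, Nat.gcd_eq_gcd_ab, zpow_add, zpow_mul, zpow_mul, zpow_natCast,
          zpow_natCast]
        exact Subgroup.mul_mem _ (Subgroup.zpow_mem _ hk _) (Subgroup.zpow_mem _ hl _)
      apply h1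
      · exact Subgroup.mem_sup_right hgN
      · apply h1
        · rw [mem_sup_iff]
          exact ⟨u, closure_pair_left, hi⟩
        · rw [mem_sup_iff]
          exact ⟨v, closure_pair_right, hj⟩

lemma zpowers_inj {g : E} (hg : ∀ x : E, ∃ i : ℕ, x⁻¹ * g ^ i ∈ G) {d d' : ℕ}
    (hd : d ∣ Nat.card (E ⧸ G)) (hd' : d' ∣ Nat.card (E ⧸ G))
    (h : Subgroup.zpowers (g ^ d) ⊔ G = Subgroup.zpowers (g ^ d') ⊔ G) : d = d' := by
  have hord : orderOf (g : E ⧸ G) = Nat.card (E ⧸ G) := by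
    apply orderOf_eq_card_of_forall_mem_zpowers
    intro c
    obtain ⟨x, rfl⟩ := QuotientGroup.mk_surjective c
    obtain ⟨i, hi⟩ := hg x
    rw [QuotientGroup.eq.mpr hi, QuotientGroup.mk_pow]
    exact Subgroup.pow_mem _ (Subgroup.mem_zpowers _) i
  have key : ∀ {d d' : ℕ}, d' ∣ Nat.card (E ⧸ G) →
      Subgroup.zpowers (g ^ d) ⊔ G = Subgroup.zpowers (g ^ d') ⊔ G → d' ∣ d := by
    intro d d' hd' h
    have h1 : g ^ d ∈ Subgroup.zpowers (g ^ d') ⊔ G := by
      rw [← h]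
      exact Subgroup.mem_sup_left (Subgroup.mem_zpowers _)
    rw [mem_sup_iff] at h1
    obtain ⟨s, hs, hsG⟩ := h1
    obtain ⟨k, rfl⟩ := Subgroup.mem_zpowers_iff.mp hs
    have h2 : ((g : E ⧸ G)) ^ ((d' : ℤ) * k) = (g : E ⧸ G) ^ (d : ℤ) := by
      have := QuotientGroup.eq.mpr hsG
      rw [QuotientGroup.mk_zpow, QuotientGroup.mk_pow, QuotientGroup.mk_pow] at this
      rw [zpow_mul, zpow_natCast, zpow_natCast]
      exact this
    have h3 := zpow_eq_zpow_iff_modEq.mp h2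
    rw [hord] at h3
    have h4 : (d' : ℤ) ∣ (Nat.card (E ⧸ G) : ℤ) := by exact_mod_cast hd'
    have h5 : (d : ℤ) ≡ 0 [ZMOD d'] := by
      have h6 := (h3.of_dvd h4).symm
      refine h6.trans ?_
      exact (Int.modEq_zero_iff_dvd).mpr (Dvd.intro _ rfl)
    exact_mod_cast Int.modEq_zero_iff_dvd.mp h5
  exact Nat.dvd_antisymm (key hd h.symm) (key hd' h)

/-- the sum over the pairs in two cosets depends only on the generated subgroup -/
theorem AF_eq {g : E} (hg : ∀ x : E, ∃ i : ℕ, x⁻¹ * g ^ i ∈ G) {u v u' v' : E}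
    (h : Subgroup.closure {u, v} ⊔ G = Subgroup.closure {u', v'} ⊔ G) :
    AF F G u v = AF F G u' v' := by
  obtain ⟨d, hd, h1, h2⟩ := normal_form (F := F) hg u v
  obtain ⟨d', hd', h1', h2'⟩ := normal_form (F := F) hg u' v'
  have h3 : d = d' := zpowers_inj hg hd hd' (by rw [← h2, ← h2', h])
  rw [h1, h1', h3]

/-- the pairs with the property `R` -/
def FP (E : Type) [Fintype E] (R : E → E → Prop) : Finset (E × E) :=
  Finset.univ.filter fun q => R q.1 q.2

lemma mem_FP {R : E → E → Prop} {q : E × E} : q ∈ FP E R ↔ R q.1 q.2 := by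
  simp [FP]

/-- sums over pairs of cosets -/
theorem PF_cosets (F : Subgroup E → ℤ) (R : E → E → Prop)
    (hR : ∀ x y x' y', x⁻¹ * x' ∈ G → y⁻¹ * y' ∈ G → (R x y ↔ R x' y')) :
    (Nat.card G : ℤ) ^ 2 * PF F R =
      ∑ q ∈ FP E R, AF F G q.1 q.2 := by
  unfold AF PF FP
  have h1 : ∀ q : E × E, ∑ r ∈ CP E (fun x y => q.1⁻¹ * x ∈ G ∧ q.2⁻¹ * y ∈ G),
      F (Subgroup.closure {r.1, r.2}) = ∑ r ∈ CP E (fun _ _ => True),
      if q.1⁻¹ * r.1 ∈ G ∧ q.2⁻¹ * r.2 ∈ G then F (Subgroup.closure {r.1, r.2}) else 0 := by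
    intro q
    rw [← Finset.sum_filter]
    apply Finset.sum_congr _ fun _ _ => rfl
    ext r
    rw [Finset.mem_filter, mem_CP, mem_CP]
    tauto
  have h2 : ∑ r ∈ CP E R, F (Subgroup.closure {r.1, r.2}) = ∑ r ∈ CP E (fun _ _ => True),
      if R r.1 r.2 then F (Subgroup.closure {r.1, r.2}) else 0 := by
    rw [← Finset.sum_filter]
    apply Finset.sum_congr _ fun _ _ => rfl
    ext r
    rw [Finset.mem_filter, mem_CP, mem_CP]
    tauto
  rw [Finset.sum_congr rfl fun q _ => h1 q, Finset.sum_comm, h2, Finset.mul_sum]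
  refine Finset.sum_congr rfl fun r _ => ?_
  rw [← Finset.sum_filter, Finset.sum_const, nsmul_eq_mul]
  have hcount : ((Finset.univ.filter (fun q : E × E => R q.1 q.2)).filter
      (fun q => q.1⁻¹ * r.1 ∈ G ∧ q.2⁻¹ * r.2 ∈ G)).card =
      if R r.1 r.2 then Nat.card G ^ 2 else 0 := by
    have h3 : (Finset.univ.filter (fun q : E × E => R q.1 q.2)).filter
        (fun q => q.1⁻¹ * r.1 ∈ G ∧ q.2⁻¹ * r.2 ∈ G) =
        Finset.univ.filter (fun q : E × E => R r.1 r.2 ∧ (q.1⁻¹ * r.1 ∈ G ∧ q.2⁻¹ * r.2 ∈ G)) := by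
      ext q
      simp only [Finset.mem_filter, Finset.mem_univ, true_and]
      constructor
      · rintro ⟨h4, h5, h6⟩
        exact ⟨(hR _ _ _ _ h5 h6).mp h4, h5, h6⟩
      · rintro ⟨h4, h5, h6⟩
        exact ⟨(hR _ _ _ _ h5 h6).mpr h4, h5, h6⟩
    rw [h3]
    split_ifs with h4
    · have h5 : Finset.univ.filter (fun q : E × E => R r.1 r.2 ∧
          (q.1⁻¹ * r.1 ∈ G ∧ q.2⁻¹ * r.2 ∈ G)) =
          (Finset.univ.filter fun x : E => x⁻¹ * r.1 ∈ G) ×ˢ
            (Finset.univ.filter fun x : E => x⁻¹ * r.2 ∈ G) := by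
        ext q
        simp only [Finset.mem_filter, Finset.mem_univ, true_and, Finset.mem_product, h4]
      have h6 : ∀ y : E, (Finset.univ.filter fun x : E => x⁻¹ * y ∈ G).card = Nat.card G := by
        intro y
        rw [← Fintype.card_subtype, ← Nat.card_eq_fintype_card]
        refine Nat.card_congr
          { toFun := fun x => ⟨x.1⁻¹ * y, x.2⟩
            invFun := fun z => ⟨y * z.1⁻¹, ?_⟩
            left_inv := fun x => by apply Subtype.ext; simp
            right_inv := fun z => by apply Subtype.ext; simp }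
        simp
      rw [h5, Finset.card_product, h6, h6, sq]
    · rw [Finset.card_eq_zero, Finset.filter_eq_empty_iff]
      intro q _ h5
      exact h4 h5.1
  rw [hcount]
  split_ifs
  · push_cast
    ring
  · simp

/-- the sum over the commuting pairs in `uG × vG` -/
def A (p : ℕ) (G : Subgroup E) (u v : E) : ℤ := AF (fun S => w p G (S : Set E)) G u v

lemma A_def (u v : E) : A p G u v = PSum p G (fun x y => u⁻¹ * x ∈ G ∧ v⁻¹ * y ∈ G) := by
  rw [PSum_eq_PF]
  rfl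

end Pool.Agent.X209.DI
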