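import Pool.Agent.X209.DI.Exp

/-!
# Comparison of the `p`-subgroups of `H` and of `G`
-/

open scoped Classical BigOperators
open Pool.Agent.Y63.KR

set_option linter.unusedSectionVars false
set_option linter.unusedVariables false

noncomputable section

namespace Pool.Agent.X209.DI

variable {p : ℕ} {E : Type} [Group E] [Finite E] {a b : ℕ} {G : Subgroup E} [G.Normal]

/-- `E / G` is abelian with at most one subgroup of order `p` -/
structure Cyc (p : ℕ) {E : Type} [Group E] (G : Subgroup E) : Prop where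
  comm : ∀ x y : E, x * y * x⁻¹ * y⁻¹ ∈ G
  uniq : ∀ x y : E, y ∉ G → x ^ p ∈ G → y ^ p ∈ G → ∃ i : ℕ, x⁻¹ * y ^ i ∈ G

lemma Cyc.of_cyclic [hp : Fact p.Prime] [hcyc : IsCyclic (E ⧸ G)] : Cyc p G := by
  constructor
  · intro x y
    rw [← QuotientGroup.eq_one_iff]
    have hc : ∀ a b : E ⧸ G, a * b = b * a := (IsCyclic.commGroup (α := E ⧸ G)).mul_comm
    have : ((x * y * x⁻¹ * y⁻¹ : E) : E ⧸ G) = (x : E ⧸ G) * y * (x : E ⧸ G)⁻¹ * (y : E ⧸ G)⁻¹ := rfl
    rw [this, hc (x : E ⧸ G) y]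
    group
  · intro x y hy hxp hyp
    have : Fintype (E ⧸ G) := Fintype.ofFinite _
    have h1 := IsCyclic.card_pow_eq_one_le (α := E ⧸ G) (n := p) hp.out.pos
    have hord : orderOf (y : E ⧸ G) = p := by
      apply orderOf_eq_prime
      · rw [← QuotientGroup.mk_pow]
        exact (QuotientGroup.eq_one_iff _).mpr hyp
      · intro h4
        exact hy ((QuotientGroup.eq_one_iff _).mp h4)
    have h2 : (Finset.univ.filter (· ∈ Subgroup.zpowers (y : E ⧸ G)) : Finset (E ⧸ G)) ⊆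
        (Finset.univ.filter fun c : E ⧸ G => c ^ p = 1) := by
      intro c hc
      simp only [Finset.mem_filter, Finset.mem_univ, true_and] at hc ⊢
      obtain ⟨i, rfl⟩ := Subgroup.mem_zpowers_iff.mp hc
      rw [← zpow_natCast, ← zpow_mul, mul_comm, zpow_mul, zpow_natCast]
      have : (y : E ⧸ G) ^ p = 1 := by
        rw [← hord]
        exact pow_orderOf_eq_one _
      rw [this, one_zpow]
    have h3 : (Finset.univ.filter (· ∈ Subgroup.zpowers (y : E ⧸ G)) : Finset (E ⧸ G)).card = p := by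
      rw [← Fintype.card_subtype, ← hord, ← Nat.card_zpowers, Nat.card_eq_fintype_card]
    have h4 := Finset.eq_of_subset_of_card_le h2 (by rw [h3]; exact h1)
    have h5 : (x : E ⧸ G) ∈ (Finset.univ.filter fun c : E ⧸ G => c ^ p = 1) := by
      rw [Finset.mem_filter]
      refine ⟨Finset.mem_univ _, ?_⟩
      rw [← QuotientGroup.mk_pow]
      exact (QuotientGroup.eq_one_iff _).mpr hxp
    rw [← h4, Finset.mem_filter] at h5
    have hfo : IsOfFinOrder (y : E ⧸ G) := isOfFinOrder_of_finite _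
    obtain ⟨i, hi⟩ := (mem_powers_iff_mem_zpowers.mpr h5.2)
    refine ⟨i, ?_⟩
    rw [← QuotientGroup.eq, QuotientGroup.mk_pow]
    exact hi.symm

lemma mem_closure_insert {K : Set E} {q x : E} (h : x ∈ insert q K) :
    x = q ∨ x ∈ K := h

/-- the elements of order `p` in a fixed coset of `G` commuting with `K` -/
def Tq (p : ℕ) {E : Type} [Group E] [Fintype E] (G : Subgroup E) (e₁ : E) (K : Set E) : Finset E :=
  Finset.univ.filter fun q => q ^ p = 1 ∧ e₁⁻¹ * q ∈ G ∧ ∀ x ∈ K, x * q = q * x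

lemma pgroup_zpowers {q : E} (hq : q ^ p = 1) : IsPGroup p (Subgroup.zpowers q) := by
  rintro ⟨x, hx⟩
  obtain ⟨i, rfl⟩ := Subgroup.mem_zpowers_iff.mp hx
  refine ⟨1, ?_⟩
  apply Subtype.ext
  change (q ^ i) ^ p ^ 1 = 1
  rw [pow_one, ← zpow_natCast, ← zpow_mul, mul_comm, zpow_mul, zpow_natCast, hq, one_zpow]

/-- the chains above a complement -/
lemma chi_above [hp : Fact p.Prime] (hPE : PE p (Nat.card E) a b) (hC : Cyc p G)
    {H : Subgroup E} (hGH : G ≤ H) {K : Set E} {q : E} (hq : q ^ p = 1) (hqG : q ∉ G)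
    (hqH : q ∈ H) (hqK : ∀ x ∈ K, x * q = q * x) :
    chi ((Sp p (H1 p a G H hC.comm) K).filter (Subgroup.zpowers q < ·)) = w p G (insert q K) := by
  set Q := Subgroup.zpowers q with hQ
  have hqQ : q ∈ Q := Subgroup.mem_zpowers q
  have hQG : Q ⊓ G = ⊥ := by
    rw [eq_bot_iff]
    rintro x ⟨hx1, hx2⟩
    rw [Subgroup.mem_bot]
    by_contra hne
    apply hqG
    have h1 : orderOf q = p := by
      apply orderOf_eq_prime hq
      rintro rfl
      exact hqG G.one_mem
    have h2 : orderOf x ∣ p := by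
      rw [← h1]
      exact orderOf_dvd_of_mem_zpowers hx1
    have h3 : orderOf x = p := by
      rcases (Nat.dvd_prime hp.out).mp h2 with h3 | h3
      · exact absurd (orderOf_eq_one_iff.mp h3) hne
      · exact h3
    have h4 : Subgroup.zpowers x = Q := by
      apply Subgroup.eq_of_le_of_card_ge
      · rw [Subgroup.zpowers_le]
        exact hx1
      · rw [Nat.card_zpowers, Nat.card_zpowers, h1, h3]
    have h5 : q ∈ Subgroup.zpowers x := by rw [h4]; exact hqQ
    exact (Subgroup.zpowers_le.mpr hx2) h5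
  have hcov : ∀ x ∈ H, x ^ p ∈ G → ∃ i : ℕ, x * (q ^ i)⁻¹ ∈ G := by
    intro x _ hx
    obtain ⟨i, hi⟩ := hC.uniq x q hqG hx (by rw [hq]; exact G.one_mem)
    refine ⟨i, ?_⟩
    have h1 := G.inv_mem hi
    have h2 := ‹G.Normal›.conj_mem _ h1 x
    have e : x * (x⁻¹ * q ^ i)⁻¹ * x⁻¹ = x * (q ^ i)⁻¹ := by group
    rwa [e] at h2
  have hself : ∀ {P : Subgroup E}, IsPGroup p P → P ≤ H1 p a G H hC.comm → ∀ x ∈ P, x ^ p ∈ G := by
    intro P hP hPH x hx
    obtain ⟨j, hj⟩ := hP ⟨x, hx⟩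
    have hj' : x ^ p ^ j = 1 := congrArg Subtype.val hj
    have h1 := hPE.self E x (card_pow x) ⟨j, hj'⟩
    have h2 := (hPH hx).2
    rwa [pow_mul, h1] at h2
  have hnormQ : ∀ x ∈ K, conjSub x Q = Q := by
    intro x hx
    rw [conjSub_eq_iff]
    have h2 : x ∈ Subgroup.centralizer (Q : Set E) := by
      rw [Subgroup.mem_centralizer_iff]
      intro y hy
      obtain ⟨i, rfl⟩ := Subgroup.mem_zpowers_iff.mp hy
      exact ((show Commute x q from hqK x hx).zpow_right i).symm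
    exact Subgroup.centralizer_le_normalizer (s := (Q : Set E)) h2
  have hGn : ∀ x : E, conjSub x G = G := fun x => conj_ge hC.comm le_rfl x
  refine chi_congr (fun P => P ⊓ G) (fun R => R ⊔ Q) ?_ ?_ ?_ ?_ ?_ ?_
  · intro P hP
    rw [Finset.mem_filter, mem_Sp] at hP
    obtain ⟨⟨h1, h2, h3, h4⟩, h5⟩ := hP
    rw [mem_Sp]
    refine ⟨h1.to_le inf_le_left, ?_, inf_le_right, ?_⟩
    · intro h6
      apply not_le_of_gt h5
      intro x hx
      obtain ⟨i, hi⟩ := hcov x (h3 hx).1 (hself h1 h3 x hx)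
      have h7 : x * (q ^ i)⁻¹ ∈ P ⊓ G :=
        ⟨P.mul_mem hx (P.inv_mem (P.pow_mem (h5.le hqQ) i)), hi⟩
      rw [h6, Subgroup.mem_bot] at h7
      rw [mul_inv_eq_one.mp h7]
      exact Q.pow_mem hqQ i
    · rintro x (rfl | hx)
      · rw [conjSub_inf, hGn, conjSub_of_mem (h5.le hqQ)]
      · rw [conjSub_inf, hGn, h4 x hx]
  · intro R hR
    rw [mem_Sp] at hR
    obtain ⟨h1, h2, h3, h4⟩ := hR
    have hqR : conjSub q R = R := h4 q (Set.mem_insert _ _)
    have hQR : Q ≤ Subgroup.normalizer (R : Set E) := by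
      rw [hQ, Subgroup.zpowers_le]
      exact conjSub_eq_iff.mp hqR
    rw [Finset.mem_filter, mem_Sp]
    refine ⟨⟨?_, ?_, ?_, ?_⟩, ?_⟩
    · exact IsPGroup.to_sup_of_normal_left' h1 (pgroup_zpowers hq) hQR
    · intro h5
      exact h2 (le_bot_iff.mp (h5 ▸ le_sup_left))
    · refine sup_le (fun x hx => ⟨hGH (h3 hx), G.pow_mem (h3 hx) _⟩) ?_
      rw [hQ, Subgroup.zpowers_le]
      refine ⟨hqH, ?_⟩
      rw [mul_comm, pow_mul, hq, one_pow]
      exact G.one_mem
    · intro x hx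
      rw [conjSub_sup, hnormQ x hx, h4 x (Set.mem_insert_of_mem _ hx)]
    · refine lt_of_le_of_ne le_sup_right (fun h5 => h2 ?_)
      rw [eq_bot_iff, ← hQG]
      refine le_inf ?_ h3
      rw [h5]
      exact le_sup_left
  · intro P hP
    rw [Finset.mem_filter, mem_Sp] at hP
    obtain ⟨⟨h1, h2, h3, h4⟩, h5⟩ := hP
    apply le_antisymm
    · exact sup_le inf_le_left h5.le
    · intro x hx
      obtain ⟨i, hi⟩ := hcov x (h3 hx).1 (hself h1 h3 x hx)
      have h7 : x * (q ^ i)⁻¹ ∈ P ⊓ G :=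
        ⟨P.mul_mem hx (P.inv_mem (P.pow_mem (h5.le hqQ) i)), hi⟩
      have e : x = x * (q ^ i)⁻¹ * q ^ i := by group
      rw [e]
      exact Subgroup.mul_mem _ (Subgroup.mem_sup_left h7)
        (Subgroup.mem_sup_right (Q.pow_mem hqQ i))
  · intro R hR
    rw [mem_Sp] at hR
    obtain ⟨h1, h2, h3, h4⟩ := hR
    have hqR : conjSub q R = R := h4 q (Set.mem_insert _ _)
    have hQR : Q ≤ Subgroup.normalizer (R : Set E) := by
      rw [hQ, Subgroup.zpowers_le]
      exact conjSub_eq_iff.mp hqR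
    apply le_antisymm
    · rintro x ⟨hx1, hx2⟩
      have hx3 : x ∈ ((R ⊔ Q : Subgroup E) : Set E) := hx1
      rw [Subgroup.coe_mul_of_right_le_normalizer_left R Q hQR] at hx3
      obtain ⟨r, hr, y, hy, rfl⟩ := hx3
      have h5 : y ∈ Q ⊓ G := ⟨hy, (Subgroup.mul_mem_cancel_left G (h3 hr)).mp hx2⟩
      rw [hQG, Subgroup.mem_bot] at h5
      change r * y ∈ R
      rw [h5, mul_one]
      exact hr
    · exact le_inf le_sup_left h3
  · intro P _ P' _ h
    exact inf_le_inf_right G h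
  · intro R _ R' _ h
    exact sup_le_sup_right h Q

lemma order_eq_p [hp : Fact p.Prime] {q : E} (hq : q ^ p = 1) (h1 : q ≠ 1) : orderOf q = p :=
  orderOf_eq_prime hq h1

/-- second reduction -/
theorem w_H1_eq [hp : Fact p.Prime] [Fintype E] (hPE : PE p (Nat.card E) a b) (hC : Cyc p G)
    {H : Subgroup E} (hGH : G ≤ H) {e₁ : E} (he1 : e₁ ∈ H) (he2 : e₁ ∉ G) (he3 : e₁ ^ p ∈ G)
    (K : Set E) :
    w p (H1 p a G H hC.comm) K = w p G K - ∑ q ∈ Tq p G e₁ K, w p G (insert q K) := by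
  have hGH1 : G ≤ H1 p a G H hC.comm := fun x hx => ⟨hGH hx, G.pow_mem hx _⟩
  have hGn : ∀ x : E, conjSub x G = G := fun x => conj_ge hC.comm le_rfl x
  have hsub : Sp p G K ⊆ Sp p (H1 p a G H hC.comm) K := by
    intro P hP
    rw [mem_Sp] at hP ⊢
    exact ⟨hP.1, hP.2.1, hP.2.2.1.trans hGH1, hP.2.2.2⟩
  unfold w
  rw [chi_decomp hsub]
  congr 1
  have hself : ∀ {P : Subgroup E}, IsPGroup p P → P ≤ H1 p a G H hC.comm → ∀ x ∈ P, x ^ p ∈ G := by
    intro P hP hPH x hx
    obtain ⟨j, hj⟩ := hP ⟨x, hx⟩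
    have hj' : x ^ p ^ j = 1 := congrArg Subtype.val hj
    have h1 := hPE.self E x (card_pow x) ⟨j, hj'⟩
    have h2 := (hPH hx).2
    rwa [pow_mul, h1] at h2
  have hTq : ∀ q ∈ Tq p G e₁ K, q ^ p = 1 ∧ q ∉ G ∧ q ∈ H ∧ e₁⁻¹ * q ∈ G ∧
      ∀ x ∈ K, x * q = q * x := by
    intro q hq
    obtain ⟨-, h1, h2, h3⟩ := Finset.mem_filter.mp hq
    refine ⟨h1, ?_, ?_, h2, h3⟩
    · intro h4
      apply he2
      have : e₁ = q * (e₁⁻¹ * q)⁻¹ := by group
      rw [this]
      exact G.mul_mem h4 (G.inv_mem h2)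
    · have : q = e₁ * (e₁⁻¹ * q) := by group
      rw [this]
      exact H.mul_mem he1 (hGH h2)
  symm
  refine Finset.sum_bij_ne_zero (fun q _ _ => Subgroup.zpowers q) ?_ ?_ ?_ ?_
  · intro q hq _
    obtain ⟨h1, h2, h3, h4, h5⟩ := hTq q hq
    rw [Finset.mem_sdiff, mem_Sp, mem_Sp]
    refine ⟨⟨pgroup_zpowers h1, ?_, ?_, ?_⟩, ?_⟩
    · intro h6
      rw [Subgroup.zpowers_eq_bot] at h6
      exact h2 (h6 ▸ G.one_mem)
    · rw [Subgroup.zpowers_le]
      refine ⟨h3, ?_⟩
      rw [mul_comm, pow_mul, h1, one_pow]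
      exact G.one_mem
    · intro x hx
      rw [conjSub_eq_iff]
      have h2 : x ∈ Subgroup.centralizer (Subgroup.zpowers q : Set E) := by
        rw [Subgroup.mem_centralizer_iff]
        intro y hy
        obtain ⟨i, rfl⟩ := Subgroup.mem_zpowers_iff.mp hy
        exact ((show Commute x q from h5 x hx).zpow_right i).symm
      exact Subgroup.centralizer_le_normalizer (s := (Subgroup.zpowers q : Set E)) h2
    · intro h6
      exact h2 (h6.2.2.1 (Subgroup.mem_zpowers q))
  · intro q hq _ q' hq' _ heq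
    obtain ⟨h1, h2, h3, h4, h5⟩ := hTq q hq
    obtain ⟨h1', h2', h3', h4', h5'⟩ := hTq q' hq'
    have h6 : q' ∈ Subgroup.zpowers q := by
      have : q' ∈ Subgroup.zpowers q' := Subgroup.mem_zpowers q'
      rwa [← heq] at this
    obtain ⟨i, hi⟩ := Subgroup.mem_zpowers_iff.mp h6
    have h7 : q ^ (i - 1) ∈ G := by
      have e : q ^ (i - 1) = (e₁⁻¹ * q)⁻¹ * (e₁⁻¹ * q') := by
        rw [← hi, zpow_sub_one]
        have : q ^ i * q⁻¹ = q⁻¹ * q ^ i := ((Commute.refl q).zpow_left i).inv_right.eq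
        rw [this]
        group
      rw [e]
      exact G.mul_mem (G.inv_mem h4) h4'
    have hq1 : q ≠ 1 := fun h => h2 (h ▸ G.one_mem)
    have hord := order_eq_p (p := p) h1 hq1
    have h8 : q ^ (i - 1) = 1 := by
      by_contra hne
      apply h2
      have h9 : orderOf (q ^ (i - 1)) = p := by
        apply orderOf_eq_prime _ hne
        rw [← zpow_natCast, ← zpow_mul, mul_comm, zpow_mul, zpow_natCast, h1, one_zpow]
      have h10 : Subgroup.zpowers (q ^ (i - 1)) = Subgroup.zpowers q := by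
        apply Subgroup.eq_of_le_of_card_ge
        · rw [Subgroup.zpowers_le]
          exact Subgroup.zpow_mem _ (Subgroup.mem_zpowers q) _
        · rw [Nat.card_zpowers, Nat.card_zpowers, h9, hord]
      have h11 : q ∈ Subgroup.zpowers (q ^ (i - 1)) := by
        rw [h10]; exact Subgroup.mem_zpowers q
      exact (Subgroup.zpowers_le.mpr h7) h11
    rw [← hi]
    have e : q ^ i = q ^ (i - 1) * q := by
      rw [zpow_sub_one, inv_mul_cancel_right]
    rw [e, h8, one_mul]
  · intro Q hQ hne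
    rw [Finset.mem_sdiff] at hQ
    have hQ1 := mem_Sp.mp hQ.1
    have hQG : Q ⊓ G = ⊥ := by
      by_contra hcon
      apply hne
      rw [chi_max (m := Q ⊓ G), zero_mul]
      · rw [Finset.mem_filter, mem_Sp]
        refine ⟨⟨hQ1.1.to_le inf_le_left, hcon, inf_le_right, fun x hx => ?_⟩, ?_⟩
        · rw [conjSub_inf, hGn, hQ1.2.2.2 x hx]
        · refine lt_of_le_of_ne inf_le_left fun h => hQ.2 ?_
          rw [mem_Sp]
          exact ⟨hQ1.1, hQ1.2.1, by rw [← h]; exact inf_le_right, hQ1.2.2.2⟩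
      · intro P hP
        rw [Finset.mem_filter, mem_Sp] at hP
        exact le_inf hP.2.le hP.1.2.2.1
    have hG1 : ∀ x ∈ Q, x ∈ G → x = 1 := by
      intro x hx hxG
      have : x ∈ Q ⊓ G := ⟨hx, hxG⟩
      rwa [hQG, Subgroup.mem_bot] at this
    obtain ⟨g, hg, hg1, hgp⟩ := exists_order_p hp.out hQ1.1 hQ1.2.1
    have hgG : g ∉ G := fun h => hg1 (hG1 g hg h)
    obtain ⟨i, hi⟩ := hC.uniq e₁ g hgG he3 (by rw [hgp]; exact G.one_mem)
    set q := g ^ i with hq
    have hqQ : q ∈ Q := Q.pow_mem hg i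
    have hqp : q ^ p = 1 := by rw [hq, ← pow_mul, mul_comm, pow_mul, hgp, one_pow]
    have hqG : q ∉ G := by
      intro h
      apply he2
      have : e₁ = q * (e₁⁻¹ * q)⁻¹ := by group
      rw [this]
      exact G.mul_mem h (G.inv_mem hi)
    have hzQ : Subgroup.zpowers q = Q := by
      apply le_antisymm
      · rw [Subgroup.zpowers_le]
        exact hqQ
      · intro x hx
        obtain ⟨j, hj⟩ := hC.uniq x q hqG (hself hQ1.1 hQ1.2.2.1 x hx) (by rw [hqp]; exact G.one_mem)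
        have h1 := hG1 _ (Q.mul_mem (Q.inv_mem hx) (Q.pow_mem hqQ j)) hj
        rw [inv_mul_eq_one.mp h1]
        exact Subgroup.pow_mem _ (Subgroup.mem_zpowers q) j
    have hcomm : ∀ x ∈ K, x * q = q * x := by
      intro x hx
      have h1 : x * q * x⁻¹ * q⁻¹ ∈ Q := by
        refine Q.mul_mem ?_ (Q.inv_mem hqQ)
        have := conj_mem_conjSub (g := x) hqQ
        rwa [hQ1.2.2.2 x hx] at this
      have h2 := hG1 _ h1 (hC.comm x q)
      exact mul_inv_eq_iff_eq_mul.mp (mul_inv_eq_one.mp h2)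
    have hqT : q ∈ Tq p G e₁ K := by
      rw [Tq, Finset.mem_filter]
      exact ⟨Finset.mem_univ _, hqp, hi, hcomm⟩
    refine ⟨q, hqT, ?_, hzQ⟩
    have h6 : chi ((Sp p G K).filter (· < Q)) = 1 := by
      have : (Sp p G K).filter (· < Q) = ∅ := by
        rw [Finset.filter_eq_empty_iff]
        intro P hP hPQ
        rw [mem_Sp] at hP
        apply hP.2.1
        rw [eq_bot_iff, ← hQG]
        exact le_inf hPQ.le hP.2.2.1
      rw [this, chi_empty]
    rw [h6, one_mul, ← hzQ] at hne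
    rw [chi_above hPE hC hGH hqp hqG (hTq q hqT).2.2.1 hcomm] at hne
    exact hne
  · intro q hq hne
    obtain ⟨h1, h2, h3, h4, h5⟩ := hTq q hq
    have h6 : chi ((Sp p G K).filter (· < Subgroup.zpowers q)) = 1 := by
      have : (Sp p G K).filter (· < Subgroup.zpowers q) = ∅ := by
        rw [Finset.filter_eq_empty_iff]
        intro P hP hPQ
        rw [mem_Sp] at hP
        obtain ⟨g, hg, hg1, hgp⟩ := exists_order_p hp.out hP.1 hP.2.1
        have hq1 : q ≠ 1 := fun h => h2 (h ▸ G.one_mem)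
        have hord := order_eq_p (p := p) h1 hq1
        have hordg := order_eq_p (p := p) hgp hg1
        have h7 : Subgroup.zpowers g = Subgroup.zpowers q := by
          apply Subgroup.eq_of_le_of_card_ge
          · rw [Subgroup.zpowers_le]
            exact hPQ.le hg
          · rw [Nat.card_zpowers, Nat.card_zpowers, hord, hordg]
        apply h2
        have h8 : q ∈ Subgroup.zpowers g := by rw [h7]; exact Subgroup.mem_zpowers q
        exact hP.2.2.1 ((Subgroup.zpowers_le.mpr hg) h8)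
      rw [this, chi_empty]
    rw [h6, one_mul, chi_above hPE hC hGH h1 h2 h3 h5]
    rfl

end Pool.Agent.X209.DI
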