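import Pool.Agent.Y63.KR.Basic
import Pool.Agent.X209.DI.Chi

/-!
# The posets of the `p`-subgroups of a normal subgroup normalised by a set of elements
-/

open scoped Classical BigOperators
open Pool.Agent.Y63.KR

set_option linter.unusedSectionVars false

noncomputable section

namespace Pool.Agent.X209.DI

variable {p : ℕ} {E : Type} [Group E] [Finite E]

/-- the nontrivial `p`-subgroups of `G` normalised by the elements of `K` -/
def Sp (p : ℕ) {E : Type} [Group E] [Finite E] (G : Subgroup E) (K : Set E) :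
    Finset (Subgroup E) :=
  (Set.toFinite {P : Subgroup E | IsPGroup p P ∧ P ≠ ⊥ ∧ P ≤ G ∧
    ∀ x ∈ K, conjSub x P = P}).toFinset

lemma mem_Sp {G : Subgroup E} {K : Set E} {P : Subgroup E} :
    P ∈ Sp p G K ↔ IsPGroup p P ∧ P ≠ ⊥ ∧ P ≤ G ∧ ∀ x ∈ K, conjSub x P = P := by
  simp [Sp]

/-- the alternating sum of the chains of nontrivial `p`-subgroups of `G` normalised by `K` -/
def w (p : ℕ) {E : Type} [Group E] [Finite E] (G : Subgroup E) (K : Set E) : ℤ := chi (Sp p G K)

lemma conjSub_of_mem {P : Subgroup E} {x : E} (hx : x ∈ P) : conjSub x P = P :=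
  conjSub_eq_iff.mpr (Subgroup.le_normalizer hx)

/-- the elements normalising a subgroup form a subgroup -/
lemma conj_closure {K : Set E} {P : Subgroup E} (h : ∀ x ∈ K, conjSub x P = P) :
    ∀ x ∈ Subgroup.closure K, conjSub x P = P := by
  have : Subgroup.closure K ≤ Subgroup.normalizer (P : Set E) := by
    rw [Subgroup.closure_le]
    intro x hx
    exact conjSub_eq_iff.mp (h x hx)
  intro x hx
  exact conjSub_eq_iff.mpr (this hx)

lemma Sp_closure {G : Subgroup E} {K L : Set E} (h : Subgroup.closure K = Subgroup.closure L) :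
    Sp p G K = Sp p G L := by
  ext P
  rw [mem_Sp, mem_Sp]
  have key : ∀ {K L : Set E}, Subgroup.closure K = Subgroup.closure L →
      (∀ x ∈ K, conjSub x P = P) → ∀ x ∈ L, conjSub x P = P := by
    intro K L hKL h1 x hx
    apply conj_closure h1
    rw [hKL]
    exact Subgroup.subset_closure hx
  exact ⟨fun ⟨a, b, c, d⟩ => ⟨a, b, c, key h d⟩, fun ⟨a, b, c, d⟩ => ⟨a, b, c, key h.symm d⟩⟩

/-- the alternating sum depends only on the subgroup generated by `K` -/
lemma w_closure {G : Subgroup E} {K L : Set E} (h : Subgroup.closure K = Subgroup.closure L) :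
    w p G K = w p G L := by
  rw [w, w, Sp_closure h]

lemma conjSub_sup (x : E) (P Q : Subgroup E) : conjSub x (P ⊔ Q) = conjSub x P ⊔ conjSub x Q :=
  Subgroup.map_sup _ _ _

lemma conjSub_inf (x : E) (P Q : Subgroup E) : conjSub x (P ⊓ Q) = conjSub x P ⊓ conjSub x Q :=
  Subgroup.map_inf _ _ _ (MulAut.conj x).injective

/-- **Cancellation.** -/
theorem w_eq_zero [Fact p.Prime] {G : Subgroup E} {K : Set E} {U : Subgroup E}
    (hU : U ∈ Sp p G K) (hUK : U ≤ Subgroup.closure K) : w p G K = 0 := by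
  have hU' := mem_Sp.mp hU
  unfold w
  have h1 : (Sp p G K).filter (fun P => U ≤ P) ⊆ Sp p G K := Finset.filter_subset _ _
  rw [chi_eq_of_above h1]
  · exact chi_min (m := U) (Finset.mem_filter.mpr ⟨hU, le_rfl⟩)
      (fun P hP => (Finset.mem_filter.mp hP).2)
  · intro P hP hP2
    have hP' := mem_Sp.mp hP
    have hn : ¬ U ≤ P := fun h => hP2 (Finset.mem_filter.mpr ⟨hP, h⟩)
    have hUN : U ≤ Subgroup.normalizer (P : Set E) :=
      hUK.trans (fun x hx => conjSub_eq_iff.mp (conj_closure hP'.2.2.2 x hx))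
    refine ⟨P ⊔ U, ?_, ?_, ?_⟩
    · rw [Finset.mem_filter, mem_Sp]
      refine ⟨⟨IsPGroup.to_sup_of_normal_left' hP'.1 hU'.1 hUN, ?_, sup_le hP'.2.2.1 hU'.2.2.1,
        fun x hx => ?_⟩, le_sup_right⟩
      · intro h
        exact hU'.2.1 (le_bot_iff.mp (h ▸ le_sup_right))
      · rw [conjSub_sup, hP'.2.2.2 x hx, hU'.2.2.2 x hx]
    · exact lt_of_le_of_ne le_sup_left (fun h => hn (by rw [h]; exact le_sup_right))
    · intro Q hQ hPQ
      exact sup_le hPQ.le (Finset.mem_filter.mp hQ).2

end Pool.Agent.X209.DI
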