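import Pool.Agent.X209.DI.Step

/-!
# Sums over commuting pairs
-/

open scoped Classical BigOperators
open Pool.Agent.Y63.KR

set_option linter.unusedSectionVars false
set_option linter.unusedVariables false

noncomputable section

namespace Pool.Agent.X209.DI

variable {p : ℕ} {E : Type} [Group E] [Fintype E] {a b : ℕ} {G : Subgroup E} [G.Normal]

lemma mem_Tq {e₁ : E} {K : Set E} {q : E} :
    q ∈ Tq p G e₁ K ↔ q ^ p = 1 ∧ e₁⁻¹ * q ∈ G ∧ ∀ x ∈ K, x * q = q * x := by
  simp only [Tq, Finset.mem_filter, Finset.mem_univ, true_and]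

/-- the commuting pairs with the property `R` -/
def CP (E : Type) [Group E] [Fintype E] (R : E → E → Prop) : Finset (E × E) :=
  Finset.univ.filter fun q => q.1 * q.2 = q.2 * q.1 ∧ R q.1 q.2

lemma mem_CP {R : E → E → Prop} {q : E × E} :
    q ∈ CP E R ↔ q.1 * q.2 = q.2 * q.1 ∧ R q.1 q.2 := by
  simp [CP]

/-- the sum of the alternating sums over commuting pairs -/
def PSum (p : ℕ) (G : Subgroup E) (R : E → E → Prop) : ℤ :=
  ∑ q ∈ CP E R, w p G {q.1, q.2}

/-- the elements of `H` which are `p`-regular modulo `G` -/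
def R0 (a : ℕ) (G H : Subgroup E) (h : E) : Prop := h ∈ H ∧ h ^ a ∈ G

/-- the elements of `H` whose `p`-part is `e₁` modulo `G` -/
def R1 (a : ℕ) (G H : Subgroup E) (e₁ h : E) : Prop := h ∈ H ∧ e₁⁻¹ * h ^ a ∈ G

lemma closure_pair_left {x y : E} : x ∈ Subgroup.closure ({x, y} : Set E) :=
  Subgroup.subset_closure (by simp)

lemma closure_pair_right {x y : E} : y ∈ Subgroup.closure ({x, y} : Set E) :=
  Subgroup.subset_closure (by simp)

lemma w_zero_left [Fact p.Prime] (hPE : PE p (Nat.card E) a b) {x y : E} (hxy : x * y = y * x)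
    {H : Subgroup E} (hx : x ^ a ∈ H) (h1 : x ^ a ≠ 1) : w p H {x, y} = 0 := by
  refine w_zero_of_elem (u := x ^ a) (Subgroup.pow_mem _ closure_pair_left _) hx ?_
    (hPE.ppow E x (card_pow x)) h1
  rintro z (rfl | hz)
  · exact ((Commute.refl z).pow_right a).eq
  · rw [Set.mem_singleton_iff.mp hz]
    exact ((show Commute y x from hxy.symm).pow_right a).eq

lemma w_zero_right [Fact p.Prime] (hPE : PE p (Nat.card E) a b) {x y : E} (hxy : x * y = y * x)
    {H : Subgroup E} (hy : y ^ a ∈ H) (h1 : y ^ a ≠ 1) : w p H {x, y} = 0 := by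
  have : ({x, y} : Set E) = {y, x} := Set.pair_comm x y
  rw [this]
  exact w_zero_left hPE hxy.symm hy h1

/-- no elements of order `p` modulo `G` -/
theorem PSum_none [Fact p.Prime] (hPE : PE p (Nat.card E) a b) {H : Subgroup E} (hGH : G ≤ H)
    (hno : ∀ h ∈ H, h ^ p ∈ G → h ∈ G) :
    PSum p H (fun x y => x ∈ H ∧ y ∈ H) = PSum p G (fun x y => R0 a G H x ∧ R0 a G H y) := by
  have hp : ∀ h ∈ H, (∃ j, h ^ p ^ j = 1) → h ∈ G := by
    rintro h hh ⟨j, hj⟩
    have : ∀ j, ∀ h ∈ H, h ^ p ^ j = 1 → h ∈ G := by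
      intro j
      induction j with
      | zero =>
        intro h _ h1
        rw [pow_zero, pow_one] at h1
        rw [h1]
        exact G.one_mem
      | succ j ih =>
        intro h hh h1
        apply hno h hh
        apply ih (h ^ p) (H.pow_mem hh p)
        rw [← pow_mul, ← pow_succ']
        exact h1
    exact this j h hh hj
  have h1 : CP E (fun x y => x ∈ H ∧ y ∈ H) = CP E (fun x y => R0 a G H x ∧ R0 a G H y) := by
    ext q
    rw [mem_CP, mem_CP]
    have h2 : ∀ x ∈ H, x ^ a ∈ G := fun x hx =>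
      hp _ (H.pow_mem hx a) (hPE.ppow E x (card_pow x))
    constructor
    · rintro ⟨h3, h4, h5⟩
      exact ⟨h3, ⟨h4, h2 _ h4⟩, ⟨h5, h2 _ h5⟩⟩
    · rintro ⟨h3, h4, h5⟩
      exact ⟨h3, h4.1, h5.1⟩
  unfold PSum
  rw [h1]
  refine Finset.sum_congr rfl fun q _ => ?_
  unfold w
  congr 1
  ext P
  rw [mem_Sp, mem_Sp]
  constructor
  · rintro ⟨h2, h3, h4, h5⟩
    refine ⟨h2, h3, fun x hx => hp x (h4 hx) ?_, h5⟩
    obtain ⟨j, hj⟩ := h2 ⟨x, hx⟩
    exact ⟨j, congrArg Subtype.val hj⟩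
  · rintro ⟨h2, h3, h4, h5⟩
    exact ⟨h2, h3, h4.trans hGH, h5⟩

/-- the main formula -/
theorem PSum_some [Fact p.Prime] (hPE : PE p (Nat.card E) a b) (hC : Cyc p G)
    {H : Subgroup E} (hGH : G ≤ H) {e₁ : E} (he1 : e₁ ∈ H) (he2 : e₁ ∉ G) (he3 : e₁ ^ p ∈ G) :
    PSum p H (fun x y => x ∈ H ∧ y ∈ H) = PSum p G (fun x y => R0 a G H x ∧ R0 a G H y) -
      PSum p G (fun x y => R0 a G H x ∧ R1 a G H e₁ y) := by
  set S := CP E (fun x y => (x ∈ H ∧ x ^ a = 1) ∧ (y ∈ H ∧ y ^ a = 1)) with hS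
  have hS' : ∀ q : E × E, q ∈ S ↔ q.1 * q.2 = q.2 * q.1 ∧ (q.1 ∈ H ∧ q.1 ^ a = 1) ∧
      (q.2 ∈ H ∧ q.2 ^ a = 1) := fun q => mem_CP
  have h1 : PSum p H (fun x y => x ∈ H ∧ y ∈ H) = ∑ q ∈ S, w p H {q.1, q.2} := by
    symm
    apply Finset.sum_subset
    · intro q hq
      rw [hS'] at hq
      rw [mem_CP]
      exact ⟨hq.1, hq.2.1.1, hq.2.2.1⟩
    · intro q hq hq2
      rw [mem_CP] at hq
      by_cases hx : q.1 ^ a = 1
      · by_cases hy : q.2 ^ a = 1
        · exact absurd ((hS' q).mpr ⟨hq.1, ⟨hq.2.1, hx⟩, ⟨hq.2.2, hy⟩⟩) hq2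
        · exact w_zero_right hPE hq.1 (H.pow_mem hq.2.2 a) hy
      · exact w_zero_left hPE hq.1 (H.pow_mem hq.2.1 a) hx
  have h2 : PSum p G (fun x y => R0 a G H x ∧ R0 a G H y) = ∑ q ∈ S, w p G {q.1, q.2} := by
    symm
    apply Finset.sum_subset
    · intro q hq
      rw [hS'] at hq
      rw [mem_CP]
      refine ⟨hq.1, ⟨hq.2.1.1, ?_⟩, ⟨hq.2.2.1, ?_⟩⟩
      · rw [hq.2.1.2]; exact G.one_mem
      · rw [hq.2.2.2]; exact G.one_mem
    · intro q hq hq2
      rw [mem_CP] at hq
      by_cases hx : q.1 ^ a = 1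
      · by_cases hy : q.2 ^ a = 1
        · exact absurd ((hS' q).mpr ⟨hq.1, ⟨hq.2.1.1, hx⟩, ⟨hq.2.2.1, hy⟩⟩) hq2
        · exact w_zero_right hPE hq.1 hq.2.2.2 hy
      · exact w_zero_left hPE hq.1 hq.2.1.2 hx
  have h3 : ∑ q ∈ S, w p H {q.1, q.2} = ∑ q ∈ S, (w p G {q.1, q.2} -
      ∑ t ∈ Tq p G e₁ {q.1, q.2}, w p G (insert t {q.1, q.2})) := by
    refine Finset.sum_congr rfl fun q _ => ?_
    rw [w_H1 (a := a) hGH hC.comm, w_H1_eq hPE hC hGH he1 he2 he3]
  rw [h1, h2, h3, Finset.sum_sub_distrib]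
  congr 1
  rw [Finset.sum_sigma']
  unfold PSum
  refine Finset.sum_bij_ne_zero (fun s _ _ => (s.1.1, s.1.2 * s.2)) ?_ ?_ ?_ ?_
  · rintro ⟨⟨x, y⟩, q⟩ hs _
    rw [Finset.mem_sigma, hS', mem_Tq] at hs
    obtain ⟨⟨hxy, ⟨hxH, hx⟩, hyH, hy⟩, hqp, hqe, hqc⟩ := hs
    have hxq : x * q = q * x := hqc x (by simp)
    have hyq : y * q = q * y := hqc y (by simp)
    have hqH : q ∈ H := by
      have : q = e₁ * (e₁⁻¹ * q) := by group
      rw [this]
      exact H.mul_mem he1 (hGH hqe)
    have hqa : q ^ a = q := hPE.self E q (card_pow q) ⟨1, by rw [pow_one]; exact hqp⟩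
    simp only [] at hx hy hxH hyH hxy
    rw [mem_CP]
    refine ⟨?_, ⟨hxH, ?_⟩, ⟨H.mul_mem hyH hqH, ?_⟩⟩
    · change x * (y * q) = y * q * x
      rw [← mul_assoc, hxy, mul_assoc, hxq, mul_assoc]
    · change x ^ a ∈ G
      rw [hx]; exact G.one_mem
    · change e₁⁻¹ * (y * q) ^ a ∈ G
      rw [(show Commute y q from hyq).mul_pow, hy, one_mul, hqa]
      exact hqe
  · rintro ⟨⟨x, y⟩, q⟩ hs _ ⟨⟨x', y'⟩, q'⟩ hs' _ heq
    rw [Finset.mem_sigma, hS', mem_Tq] at hs hs'
    obtain ⟨⟨hxy, ⟨hxH, hx⟩, hyH, hy⟩, hqp, hqe, hqc⟩ := hs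
    obtain ⟨⟨hxy', ⟨hxH', hx'⟩, hyH', hy'⟩, hqp', hqe', hqc'⟩ := hs'
    simp only [] at hx hy hxH hyH hxy hx' hy' hxH' hyH' hxy'
    have hyq : y * q = q * y := hqc y (by simp)
    have hyq' : y' * q' = q' * y' := hqc' y' (by simp)
    have e1 : x = x' := (Prod.ext_iff.mp heq).1
    have e2 : y * q = y' * q' := (Prod.ext_iff.mp heq).2
    have hqa : q ^ a = q := hPE.self E q (card_pow q) ⟨1, by rw [pow_one]; exact hqp⟩
    have hqa' : q' ^ a = q' := hPE.self E q' (card_pow q') ⟨1, by rw [pow_one]; exact hqp'⟩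
    have e3 : (y * q) ^ a = q := by
      rw [(show Commute y q from hyq).mul_pow, hy, one_mul, hqa]
    have e4 : (y' * q') ^ a = q' := by
      rw [(show Commute y' q' from hyq').mul_pow, hy', one_mul, hqa']
    have e5 : q = q' := by rw [← e3, e2, e4]
    subst e5
    have e6 : y = y' := mul_right_cancel e2
    subst e6
    subst e1
    rfl
  · rintro ⟨x, z⟩ hz hne
    rw [mem_CP] at hz
    obtain ⟨hxz, ⟨hxH, hx⟩, hzH, hze⟩ := hz
    simp only [] at hxz hxH hx hzH hze hne
    have hx1 : x ^ a = 1 := by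
      by_contra h
      exact hne (w_zero_left hPE hxz hx h)
    have hzp : (z ^ a) ^ p = 1 := by
      by_contra h
      apply hne
      refine w_zero_of_elem (u := (z ^ a) ^ p)
        (Subgroup.pow_mem _ (Subgroup.pow_mem _ closure_pair_right _) _) ?_ ?_ ?_ h
      · have h5 : (((z ^ a : E) : E ⧸ G)) = (e₁ : E ⧸ G) := (QuotientGroup.eq.mpr hze).symm
        rw [← QuotientGroup.eq_one_iff, QuotientGroup.mk_pow, h5, ← QuotientGroup.mk_pow]
        exact (QuotientGroup.eq_one_iff _).mpr he3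
      · rintro u (rfl | hu)
        · rw [← pow_mul]
          exact ((show Commute u z from hxz).pow_right (a * p)).eq
        · rw [Set.mem_singleton_iff.mp hu, ← pow_mul]
          exact ((Commute.refl z).pow_right (a * p)).eq
      · obtain ⟨j, hj⟩ := hPE.ppow E z (card_pow z)
        refine ⟨j, ?_⟩
        rw [← pow_mul, mul_comm, pow_mul, hj, one_pow]
    have hsplit := hPE.split E z (card_pow z)
    have hzb : z ^ b * z ^ a = z := by
      rw [← pow_add, add_comm, pow_add]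
      exact hsplit
    have hxza : x * z ^ a = z ^ a * x := ((show Commute x z from hxz).pow_right a).eq
    have hxzb : x * z ^ b = z ^ b * x := ((show Commute x z from hxz).pow_right b).eq
    refine ⟨⟨(x, z ^ b), z ^ a⟩, ?_, ?_, ?_⟩
    · rw [Finset.mem_sigma, hS', mem_Tq]
      refine ⟨⟨hxzb, ⟨hxH, hx1⟩, H.pow_mem hzH b, ?_⟩, hzp, hze, ?_⟩
      · exact hPE.one E _ (card_pow _) (hPE.pprime E z (card_pow z))
      · rintro u (rfl | hu)
        · exact hxza
        · rw [Set.mem_singleton_iff.mp hu]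
          change z ^ b * z ^ a = z ^ a * z ^ b
          rw [← pow_add, ← pow_add, add_comm]
    · change w p G (insert (z ^ a) {x, z ^ b}) ≠ 0
      have : w p G (insert (z ^ a) {x, z ^ b}) = w p G {x, z} := by
        apply w_closure
        apply le_antisymm
        · rw [Subgroup.closure_le]
          rintro u (rfl | rfl | hu)
          · exact Subgroup.pow_mem _ closure_pair_right _
          · exact closure_pair_left
          · rw [Set.mem_singleton_iff.mp hu]
            exact Subgroup.pow_mem _ closure_pair_right _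
        · rw [Subgroup.closure_le]
          rintro u (rfl | hu)
          · exact Subgroup.subset_closure (by simp)
          · rw [Set.mem_singleton_iff.mp hu]
            have h7 : z ^ b * z ^ a ∈ Subgroup.closure (insert (z ^ a) ({x, z ^ b} : Set E)) :=
              Subgroup.mul_mem _ (Subgroup.subset_closure (by simp))
                (Subgroup.subset_closure (by simp))
            rwa [hzb] at h7
      rw [this]
      exact hne
    · exact Prod.ext rfl hzb
  · rintro ⟨⟨x, y⟩, q⟩ hs _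
    rw [Finset.mem_sigma, hS', mem_Tq] at hs
    obtain ⟨⟨hxy, ⟨hxH, hx⟩, hyH, hy⟩, hqp, hqe, hqc⟩ := hs
    simp only [] at hx hy hxH hyH hxy
    have hyq : y * q = q * y := hqc y (by simp)
    have hqa : q ^ a = q := hPE.self E q (card_pow q) ⟨1, by rw [pow_one]; exact hqp⟩
    have e3 : (y * q) ^ a = q := by
      rw [(show Commute y q from hyq).mul_pow, hy, one_mul, hqa]
    apply w_closure
    have hq : q ∈ Subgroup.closure ({x, y * q} : Set E) := by
      have := Subgroup.pow_mem _ (closure_pair_right (x := x) (y := y * q)) a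
      rwa [e3] at this
    apply le_antisymm
    · rw [Subgroup.closure_le]
      rintro u (rfl | rfl | hu)
      · exact hq
      · exact closure_pair_left
      · rw [Set.mem_singleton_iff.mp hu]
        have := Subgroup.mul_mem _ (closure_pair_right (x := x) (y := y * q)) (Subgroup.inv_mem _ hq)
        rwa [mul_inv_cancel_right] at this
    · rw [Subgroup.closure_le]
      rintro u (rfl | hu)
      · exact Subgroup.subset_closure (by simp)
      · rw [Set.mem_singleton_iff.mp hu]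
        exact Subgroup.mul_mem _ (Subgroup.subset_closure (by simp))
          (Subgroup.subset_closure (by simp))

end Pool.Agent.X209.DI
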