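import Pool.Agent.X209.DI.Cliff

/-!
# The groups between `G` and `E`
-/

open scoped Classical BigOperators
open Pool.Agent.Y63.KR Pool.Agent.Helper884.IC Pool.Agent.Y63.AWC

set_option linter.unusedSectionVars false
set_option linter.unusedVariables false

noncomputable section

namespace Pool.Agent.X209.DI

variable {p : ℕ} {E : Type} [Group E] [Fintype E]

/-- the alternating sum of the numbers of classes -/
def aK (p : ℕ) (H : Type) [Group H] : ℤ :=
  alternatingSum p H (fun K => (Nat.card (ConjClasses K) : ℤ))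

lemma KRC_iff_aK [Fact p.Prime] (H : Type) [Group H] [Finite H] :
    KRC p H ↔ aK p H = (numDefectZero p H : ℤ) := by
  rw [krc_iff (p := p) (G := H) 2 (fun _ => le_rfl), sum_rational 2 (fun _ => le_rfl)]
  rfl

lemma W_eq_w (K : Set E) : W p K = w p (⊤ : Subgroup E) K := by
  have h1 : Fintype {σ : Set (Subgroup E) // IsChainIn p (⊤ : Subgroup E) σ} := Fintype.ofFinite _
  rw [← sum_chains, ← finsum_eq_sum_of_fintype]
  unfold W
  refine finsum_eq_of_bijective (fun σ : {σ : Set (Subgroup E) // IsPChain p σ} =>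
    (⟨σ.1, σ.2, fun P _ => le_top⟩ : {σ : Set (Subgroup E) // IsChainIn p (⊤ : Subgroup E) σ}))
    ?_ (fun σ => by
      by_cases h : ∀ P ∈ σ.1, ∀ x ∈ K, conjSub x P = P
      · rw [if_pos h, if_pos h]
      · rw [if_neg h, if_neg h])
  constructor
  · intro σ τ h
    exact Subtype.ext (congrArg (fun t : {σ : Set (Subgroup E) // IsChainIn p (⊤ : Subgroup E) σ} =>
      t.1) h)
  · intro σ
    exact ⟨⟨σ.1, σ.2.1⟩, rfl⟩

lemma conjSub_map {H : Subgroup E} (x : H) (P : Subgroup H) :
    (conjSub x P).map H.subtype = conjSub (x : E) (P.map H.subtype) := by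
  unfold conjSub
  rw [Subgroup.map_map, Subgroup.map_map]
  congr 1

/-- change of the ambient group -/
lemma w_ambient (H : Subgroup E) (x y : H) :
    w p (⊤ : Subgroup H) {x, y} = w p H ({(x : E), (y : E)} : Set E) := by
  unfold w
  have hinj : Function.Injective H.subtype := H.subtype_injective
  refine chi_congr (fun P => P.map H.subtype) (fun Q => Q.subgroupOf H) ?_ ?_ ?_ ?_ ?_ ?_
  · intro P hP
    rw [mem_Sp] at hP ⊢
    refine ⟨hP.1.map _, ?_, ?_, ?_⟩
    · intro h
      exact hP.2.1 ((Subgroup.map_eq_bot_iff_of_injective _ hinj).mp h)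
    · exact Subgroup.map_subtype_le P
    · rintro z (rfl | hz)
      · rw [← conjSub_map, hP.2.2.2 x (by simp)]
      · rw [Set.mem_singleton_iff.mp hz, ← conjSub_map, hP.2.2.2 y (by simp)]
  · intro Q hQ
    rw [mem_Sp] at hQ ⊢
    have h1 : (Q.subgroupOf H).map H.subtype = Q := Subgroup.map_subgroupOf_eq_of_le hQ.2.2.1
    refine ⟨hQ.1.comap_of_injective _ hinj, ?_, le_top, ?_⟩
    · intro h
      apply hQ.2.1
      rw [← h1, h, Subgroup.map_bot]
    · have key : ∀ z : H, conjSub (z : E) Q = Q → conjSub z (Q.subgroupOf H) = Q.subgroupOf H := by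
        intro z hz
        apply Subgroup.map_injective hinj
        rw [conjSub_map, h1, hz]
      rintro z (rfl | hz)
      · exact key z (hQ.2.2.2 _ (by simp))
      · rw [Set.mem_singleton_iff.mp hz]
        exact key y (hQ.2.2.2 _ (by simp))
  · intro P _
    exact Subgroup.comap_map_eq_self_of_injective hinj P
  · intro Q hQ
    exact Subgroup.map_subgroupOf_eq_of_le (mem_Sp.mp hQ).2.2.1
  · intro P _ P' _ h
    exact Subgroup.map_mono h
  · intro Q _ Q' _ h
    exact Subgroup.comap_mono h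

/-- the alternating sum for a subgroup, by commuting pairs -/
theorem aK_eq [Fact p.Prime] (H : Subgroup E) :
    (Nat.card H : ℤ) * aK p H = PSum p H (fun x y => x ∈ H ∧ y ∈ H) := by
  have : Fintype (TwPair 1 H) := Fintype.ofFinite _
  have e2 : (fun K : Subgroup H => (Nat.card (ConjClasses K) : ℤ)) =
      fun K : Subgroup H => (numR 1 K (fun _ => True) : ℤ) := funext fun K => by
    rw [← numFixed_eq, numFixed_one]
  have h1 := sum_numR (p := p) (G := H) 1 (fun _ => True)
  rw [← e2] at h1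
  unfold aK
  rw [h1]
  unfold PSum
  refine Finset.sum_bij' (fun q _ => ((q.1.1 : E), (q.1.2 : E)))
    (fun q hq => (⟨(⟨q.1, (mem_CP.mp hq).2.1⟩, ⟨q.2, (mem_CP.mp hq).2.2⟩), ?_⟩ : TwPair 1 H))
    ?_ ?_ ?_ ?_ ?_
  · apply Subtype.ext
    have := (mem_CP.mp hq).1
    change q.2 * q.1 * q.2⁻¹ = q.1 ^ 1
    rw [pow_one, ← this]
    group
  · intro q _
    rw [mem_CP]
    refine ⟨?_, q.1.1.2, q.1.2.2⟩
    have h2 := congrArg Subtype.val q.2
    change (q.1.2 : E) * q.1.1 * (q.1.2 : E)⁻¹ = (q.1.1 : E) ^ 1 at h2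
    rw [pow_one] at h2
    exact (mul_inv_eq_iff_eq_mul.mp h2).symm
  · intro q _
    exact Finset.mem_univ _
  · intro q _
    rfl
  · intro q _
    rfl
  · intro q _
    rw [bz_pos trivial, mul_one, W_eq_w, w_ambient]

variable {G : Subgroup E} [hG : G.Normal]

lemma DZ_comp {A B : Type} [Group A] [Group B] [Fintype A] [Fintype B] (e : A ≃* B)
    (theta : B → ℂ) : DZ p (fun x => theta (e x)) ↔ DZ p theta := by
  unfold DZ
  rw [Nat.card_congr e.toEquiv]
  simp only [map_one]

lemma card_St_sub {H : Subgroup E} (hGH : G ≤ H) (theta : G → ℂ) :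
    Nat.card (St (G.subgroupOf H) (fun x => theta (Subgroup.subgroupOfEquivOfLe hGH x))) =
      Nat.card (St G theta ⊓ H : Subgroup E) := by
  have key : ∀ x : H, x ∈ St (G.subgroupOf H)
      (fun x => theta (Subgroup.subgroupOfEquivOfLe hGH x)) ↔ (x : E) ∈ St G theta := by
    intro x
    rw [mem_St, mem_St]
    constructor
    · intro h
      funext m
      have h1 := congrFun h ((Subgroup.subgroupOfEquivOfLe hGH).symm m)
      simp only [cj, MulEquiv.apply_symm_apply] at h1
      rw [← h1]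
      unfold cj
      congr 1
    · intro h
      funext m
      exact congrFun h (Subgroup.subgroupOfEquivOfLe hGH m)
  refine Nat.card_congr
    { toFun := fun x => ⟨x.1.1, (key x.1).mp x.2, x.1.2⟩
      invFun := fun x => ⟨⟨x.1, x.2.2⟩, (key ⟨x.1, x.2.2⟩).mpr x.2.1⟩
      left_inv := fun x => rfl
      right_inv := fun x => rfl }

/-- the characters of defect zero of `H`, in terms of the characters of `G` -/
theorem defectZero_sub [Fact p.Prime] {H : Subgroup E} (hGH : G ≤ H)
    {g : H} (hg : ∀ x : H, ∃ i : ℕ, x⁻¹ * g ^ i ∈ G.subgroupOf H) :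
    Nat.card G * (Nat.card H * numDefectZero p H) =
      ∑ theta ∈ (Irr G).filter (fun theta => DZ p theta ∧
        ¬ p ∣ Nat.card (St G theta ⊓ H : Subgroup E) / Nat.card G),
          Nat.card (St G theta ⊓ H : Subgroup E) ^ 2 := by
  have h1 := defectZero_cyclic (p := p) (G.subgroupOf H) hg
  have h2 : Nat.card (G.subgroupOf H) = Nat.card G :=
    Nat.card_congr (Subgroup.subgroupOfEquivOfLe hGH).toEquiv
  rw [h2] at h1
  rw [h1]
  symm
  set e := Subgroup.subgroupOfEquivOfLe hGH with he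
  refine Finset.sum_bij' (fun theta _ => fun x => theta (e x)) (fun theta _ => fun x => theta (e.symm x))
    ?_ ?_ ?_ ?_ ?_
  · intro theta ht
    rw [Finset.mem_filter, mem_Irr] at ht ⊢
    exact ⟨irr_comp e ht.1, (DZ_comp e theta).mpr ht.2.1, by rw [card_St_sub]; exact ht.2.2⟩
  · intro theta ht
    have h3 : (fun x => (fun y => theta (e.symm y)) (e x)) = theta := by
      funext x
      simp
    rw [Finset.mem_filter, mem_Irr] at ht ⊢
    refine ⟨irr_comp e.symm ht.1, (DZ_comp e.symm theta).mpr ht.2.1, ?_⟩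
    have h4 := card_St_sub hGH (fun y => theta (e.symm y))
    rw [← he, h3] at h4
    rw [← h4]
    exact ht.2.2
  · intro theta _
    funext x
    simp
  · intro theta _
    funext x
    simp
  · intro theta _
    rw [card_St_sub]

/-- the number of characters of defect zero fixed by `x` and `y` -/
def Z (p : ℕ) (G : Subgroup E) [G.Normal] (x y : E) : ℕ :=
  ((Irr G).filter fun theta => DZ p theta ∧ x ∈ St G theta ∧ y ∈ St G theta).card

lemma sum_Z (R : E → E → Prop) :
    ∑ q ∈ FP E R, Z p G q.1 q.2 =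
      ∑ theta ∈ (Irr G).filter (fun theta => DZ p theta),
        (FP E (fun x y => R x y ∧ x ∈ St G theta ∧ y ∈ St G theta)).card := by
  unfold Z FP
  simp only [Finset.card_filter]
  rw [Finset.sum_comm]
  rw [Finset.sum_filter]
  refine Finset.sum_congr rfl fun theta _ => ?_
  split_ifs with h
  · rw [Finset.sum_filter]
    refine Finset.sum_congr rfl fun q _ => ?_
    by_cases h1 : R q.1 q.2
    · simp [h1, h]
    · simp [h1]
  · apply Finset.sum_eq_zero
    intro q _
    rw [if_neg (fun h1 => h h1.1)]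

variable {a b : ℕ}

/-- without elements of order `p` modulo `G` -/
lemma arith_none [hp : Fact p.Prime] (hPE : PE p (Nat.card E) a b)
    {H S : Subgroup E} (hGS : G ≤ S) (hSH : S ≤ H) (hno : ∀ h ∈ H, h ^ p ∈ G → h ∈ G) :
    (if p ∣ Nat.card S / Nat.card G then 0 else Nat.card S ^ 2) =
      (FP E (fun x y => (R0 a G H x ∧ R0 a G H y) ∧ x ∈ S ∧ y ∈ S)).card := by
  have h1 : ¬ p ∣ Nat.card S / Nat.card G := by
    intro h
    have h2 : Nat.card (S ⧸ G.subgroupOf S) = Nat.card S / Nat.card G := by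
      have h3 := Subgroup.card_eq_card_quotient_mul_card_subgroup (G.subgroupOf S)
      rw [Nat.card_congr (Subgroup.subgroupOfEquivOfLe hGS).toEquiv] at h3
      rw [h3]
      exact (Nat.mul_div_cancel _ Nat.card_pos).symm
    rw [← h2] at h
    obtain ⟨c, hc⟩ := exists_prime_orderOf_dvd_card' p h
    obtain ⟨s, rfl⟩ := QuotientGroup.mk_surjective c
    have h4 : s ^ p ∈ G.subgroupOf S := by
      rw [← QuotientGroup.eq_one_iff, QuotientGroup.mk_pow, ← hc, pow_orderOf_eq_one]
    have h5 : (s : E) ∈ G := hno s (hSH s.2) h4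
    have h6 : (s : S ⧸ G.subgroupOf S) = 1 := (QuotientGroup.eq_one_iff s).mpr h5
    rw [h6, orderOf_one] at hc
    exact hp.out.one_lt.ne hc
  rw [if_neg h1]
  have hp2 : ∀ j, ∀ h ∈ H, h ^ p ^ j = 1 → h ∈ G := by
    intro j
    induction j with
    | zero =>
      intro h _ h1
      rw [pow_zero, pow_one] at h1
      rw [h1]
      exact G.one_mem
    | succ j ih =>
      intro h hh h1
      apply hno h hh
      apply ih (h ^ p) (H.pow_mem hh p)
      rw [← pow_mul, ← pow_succ']
      exact h1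
  have h2 : FP E (fun x y => (R0 a G H x ∧ R0 a G H y) ∧ x ∈ S ∧ y ∈ S) =
      (Finset.univ.filter fun x : E => x ∈ S) ×ˢ (Finset.univ.filter fun x : E => x ∈ S) := by
    ext q
    simp only [mem_FP, Finset.mem_filter, Finset.mem_univ, true_and, Finset.mem_product]
    constructor
    · exact fun h => h.2
    · rintro ⟨h3, h4⟩
      have key : ∀ x ∈ S, R0 a G H x := by
        intro x hx
        refine ⟨hSH hx, ?_⟩
        obtain ⟨j, hj⟩ := hPE.ppow E x (card_pow x)
        exact hp2 j _ (H.pow_mem (hSH hx) a) hj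
      exact ⟨⟨key _ h3, key _ h4⟩, h3, h4⟩
  have h3 : (Finset.univ.filter fun x : E => x ∈ S).card = Nat.card S := by
    rw [← Fintype.card_subtype, ← Nat.card_eq_fintype_card]
  rw [h2, Finset.card_product, h3, sq]

/-- with an element of order `p` modulo `G` -/
lemma arith_some [hp : Fact p.Prime] (hPE : PE p (Nat.card E) a b) (hC : Cyc p G)
    {H S : Subgroup E} (hGS : G ≤ S) (hSH : S ≤ H) {e₁ : E} (he2 : e₁ ∉ G) (he3 : e₁ ^ p ∈ G) :
    (if p ∣ Nat.card S / Nat.card G then (0 : ℤ) else (Nat.card S : ℤ) ^ 2) =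
      ((FP E (fun x y => (R0 a G H x ∧ R0 a G H y) ∧ x ∈ S ∧ y ∈ S)).card : ℤ) -
      ((FP E (fun x y => (R0 a G H x ∧ R1 a G H e₁ y) ∧ x ∈ S ∧ y ∈ S)).card : ℤ) := by
  set n0 := (Finset.univ.filter fun x : E => x ∈ S ∧ x ^ a ∈ G).card with hn0
  set n1 := (Finset.univ.filter fun x : E => x ∈ S ∧ e₁⁻¹ * x ^ a ∈ G).card with hn1
  have h2 : FP E (fun x y => (R0 a G H x ∧ R0 a G H y) ∧ x ∈ S ∧ y ∈ S) =
      (Finset.univ.filter fun x : E => x ∈ S ∧ x ^ a ∈ G) ×ˢ
        (Finset.univ.filter fun x : E => x ∈ S ∧ x ^ a ∈ G) := by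
    ext q
    simp only [mem_FP, Finset.mem_filter, Finset.mem_univ, true_and, Finset.mem_product, R0]
    constructor
    · rintro ⟨⟨h3, h4⟩, h5, h6⟩
      exact ⟨⟨h5, h3.2⟩, h6, h4.2⟩
    · rintro ⟨⟨h3, h4⟩, h5, h6⟩
      exact ⟨⟨⟨hSH h3, h4⟩, hSH h5, h6⟩, h3, h5⟩
  have h3 : FP E (fun x y => (R0 a G H x ∧ R1 a G H e₁ y) ∧ x ∈ S ∧ y ∈ S) =
      (Finset.univ.filter fun x : E => x ∈ S ∧ x ^ a ∈ G) ×ˢ
        (Finset.univ.filter fun x : E => x ∈ S ∧ e₁⁻¹ * x ^ a ∈ G) := by
    ext q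
    simp only [mem_FP, Finset.mem_filter, Finset.mem_univ, true_and, Finset.mem_product, R0, R1]
    constructor
    · rintro ⟨⟨h3, h4⟩, h5, h6⟩
      exact ⟨⟨h5, h3.2⟩, h6, h4.2⟩
    · rintro ⟨⟨h3, h4⟩, h5, h6⟩
      exact ⟨⟨⟨hSH h3, h4⟩, hSH h5, h6⟩, h3, h5⟩
  rw [h2, h3, Finset.card_product, Finset.card_product, ← hn0, ← hn1]
  have hquot : Nat.card (S ⧸ G.subgroupOf S) = Nat.card S / Nat.card G := by
    have h3 := Subgroup.card_eq_card_quotient_mul_card_subgroup (G.subgroupOf S)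
    rw [Nat.card_congr (Subgroup.subgroupOfEquivOfLe hGS).toEquiv] at h3
    rw [h3]
    exact (Nat.mul_div_cancel _ Nat.card_pos).symm
  split_ifs with h
  · -- there is an element of order `p`, so `e₁ ∈ S`
    rw [← hquot] at h
    obtain ⟨c, hc⟩ := exists_prime_orderOf_dvd_card' p h
    obtain ⟨s, rfl⟩ := QuotientGroup.mk_surjective c
    have h4 : s ^ p ∈ G.subgroupOf S := by
      rw [← QuotientGroup.eq_one_iff, QuotientGroup.mk_pow, ← hc, pow_orderOf_eq_one]
    have h5 : (s : E) ∉ G := by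
      intro h5
      have h6 : (s : S ⧸ G.subgroupOf S) = 1 := (QuotientGroup.eq_one_iff s).mpr h5
      rw [h6, orderOf_one] at hc
      exact hp.out.one_lt.ne hc
    obtain ⟨i, hi⟩ := hC.uniq e₁ s h5 he3 h4
    have he1S : e₁ ∈ S := by
      have e : e₁ = (s : E) ^ i * (e₁⁻¹ * (s : E) ^ i)⁻¹ := by group
      rw [e]
      exact S.mul_mem (S.pow_mem s.2 i) (S.inv_mem (hGS hi))
    have he1a : e₁⁻¹ * e₁ ^ a ∈ G := by
      rw [← QuotientGroup.eq, QuotientGroup.mk_pow]
      symm
      apply hPE.self _ _ (quot_pow G _)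
      refine ⟨1, ?_⟩
      rw [pow_one, ← QuotientGroup.mk_pow]
      exact (QuotientGroup.eq_one_iff _).mpr he3
    have hmul : ∀ x : E, (x * e₁) ^ a * (x ^ a * e₁ ^ a)⁻¹ ∈ G := by
      intro x
      rw [← QuotientGroup.eq_one_iff]
      have hcm : Commute (x : E ⧸ G) (e₁ : E ⧸ G) := by
        have h1 := (QuotientGroup.eq_one_iff _).mpr (hC.comm x e₁)
        change (x : E ⧸ G) * e₁ * (x : E ⧸ G)⁻¹ * (e₁ : E ⧸ G)⁻¹ = 1 at h1
        exact mul_inv_eq_iff_eq_mul.mp (mul_inv_eq_one.mp h1)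
      change ((x : E ⧸ G) * e₁) ^ a * ((x : E ⧸ G) ^ a * (e₁ : E ⧸ G) ^ a)⁻¹ = 1
      rw [hcm.mul_pow]
      group
    have hiff : ∀ x : E, x ^ a ∈ G ↔ e₁⁻¹ * (x * e₁) ^ a ∈ G := by
      intro x
      have e : e₁⁻¹ * (x * e₁) ^ a = (e₁⁻¹ * ((x * e₁) ^ a * (x ^ a * e₁ ^ a)⁻¹) * e₁⁻¹⁻¹) *
          ((e₁⁻¹ * x ^ a * e₁⁻¹⁻¹) * (e₁⁻¹ * e₁ ^ a)) := by group
      rw [e, Subgroup.mul_mem_cancel_left G (hG.conj_mem _ (hmul x) _),
        Subgroup.mul_mem_cancel_right G he1a]
      constructor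
      · intro h6
        exact hG.conj_mem _ h6 _
      · intro h6
        have h7 := hG.conj_mem _ h6 e₁
        have e' : e₁ * (e₁⁻¹ * x ^ a * e₁⁻¹⁻¹) * e₁⁻¹ = x ^ a := by group
        rwa [e'] at h7
    have h01 : n0 = n1 := by
      rw [hn0, hn1]
      refine Finset.card_bij' (fun x _ => x * e₁) (fun x _ => x * e₁⁻¹) ?_ ?_ ?_ ?_
      · intro x hx
        rw [Finset.mem_filter] at hx ⊢
        exact ⟨Finset.mem_univ _, S.mul_mem hx.2.1 he1S, (hiff x).mp hx.2.2⟩
      · intro x hx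
        rw [Finset.mem_filter] at hx ⊢
        refine ⟨Finset.mem_univ _, S.mul_mem hx.2.1 (S.inv_mem he1S), (hiff _).mpr ?_⟩
        rw [inv_mul_cancel_right]
        exact hx.2.2
      · intro x _
        group
      · intro x _
        group
    rw [h01]
    ring
  · have hS : ∀ x ∈ S, x ^ a ∈ G := by
      intro x hx
      have h4 : ((⟨x, hx⟩ : S) : S ⧸ G.subgroupOf S) ^ a = 1 := by
        apply hPE.one
        · rw [← QuotientGroup.mk_pow]
          have : (⟨x, hx⟩ : S) ^ Nat.card E = 1 := by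
            apply Subtype.ext
            exact card_pow x
          rw [this]
          rfl
        · exact ⟨Nat.card (S ⧸ G.subgroupOf S), by rw [hquot]; exact h, pow_card_eq_one'⟩
      rw [← QuotientGroup.mk_pow, QuotientGroup.eq_one_iff] at h4
      exact h4
    have h4 : n0 = Nat.card S := by
      rw [hn0, Nat.card_eq_fintype_card, Fintype.card_subtype]
      congr 1
      ext x
      simp only [Finset.mem_filter, Finset.mem_univ, true_and]
      exact ⟨fun h => h.1, fun h => ⟨h, hS x h⟩⟩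
    have h5 : n1 = 0 := by
      rw [hn1, Finset.card_eq_zero, Finset.filter_eq_empty_iff]
      rintro x _ ⟨h6, h7⟩
      apply he2
      have e : e₁ = x ^ a * (e₁⁻¹ * x ^ a)⁻¹ := by group
      rw [e]
      exact G.mul_mem (hS x h6) (G.inv_mem h7)
    rw [h4, h5]
    push_cast
    ring

end Pool.Agent.X209.DI
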